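import Pool.Agent.Lib.MP_f80667_ag.Ts.Defs
import Pool.Agent.Lib.MP_f80667_ag.Tq.FinA
import Pool.Agent.Lib.MP_f80667_ag.Rl.Near

/-! Points of a smooth intersection of two quadrics near a real point. -/

open scoped LinearAlgebra.Projectivization
open MvPolynomial Topology Filter

namespace Ts

open ZC Tq

theorem ml_hom {k : Type*} [Field k] {n : ℕ} (H : Matrix (Fin n) (Fin n) k) :
    (ml H).IsHomogeneous 2 := by
  refine MvPolynomial.IsHomogeneous.sum _ _ _ fun i _ =>
    MvPolynomial.IsHomogeneous.sum _ _ _ fun j _ => ?_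
  have h1 := ((MvPolynomial.isHomogeneous_C (Fin n) (H i j)).mul
    ((MvPolynomial.isHomogeneous_X k i).mul (MvPolynomial.isHomogeneous_X k j)))
  simpa using h1

theorem Pl_hom {k : Type*} [Field k] {n : ℕ} (A B : Matrix (Fin n) (Fin n) k) (i : Fin 2) :
    ∃ d, (Pl A B i).IsHomogeneous d := by
  refine ⟨2, ?_⟩
  fin_cases i
  · exact ml_hom A
  · exact ml_hom B

/-- A smooth intersection of two quadrics is smooth in the sense of `Rl.SmAt`. -/
theorem smAt {K : Type} [Field K] {Ω : Type} [Field Ω] [Algebra K Ω] {n : ℕ}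
    {A B : Matrix (Fin n) (Fin n) K} (hs : Sm Ω A B) {P : Fin n → K} (hP : P ≠ 0)
    (aP : qv A P = 0) (bP : qv B P = 0) : Rl.SmAt (Pl A B) P := by
  refine ⟨2, Pl A B, 1, Pl_hom A B, ?_, ?_, fun x _ => Iff.rfl⟩
  · rw [map_one]
    exact one_ne_zero
  · intro b hb
    have h1 : ∀ y : Fin n → K, b 0 * bv A P y + b 1 * bv B P y = 0 := by
      intro y
      rw [bv_eq_grad, bv_eq_grad, Finset.mul_sum, Finset.mul_sum, ← Finset.sum_add_distrib]
      refine Finset.sum_eq_zero fun j _ => ?_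
      have h2 := hb j
      rw [Fin.sum_univ_two] at h2
      change b 0 * aeval P (pderiv j (ml A)) + b 1 * aeval P (pderiv j (ml B)) = 0 at h2
      linear_combination (y j) * h2
    have hP' : (fun i => Algebra.ofId K Ω (P i)) ≠ 0 := by
      obtain ⟨j, hj⟩ := Function.ne_iff.1 hP
      exact Function.ne_iff.2 ⟨j, (map_ne_zero (Algebra.ofId K Ω)).2 hj⟩
    have h2 := hs (fun i => Algebra.ofId K Ω (P i)) hP' (by rw [qv_hom, aP, map_zero])
      (by rw [qv_hom, bP, map_zero]) (Algebra.ofId K Ω (b 0)) (Algebra.ofId K Ω (b 1))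
      (rad_ext (Algebra.ofId K Ω) h1)
    rw [map_eq_zero, map_eq_zero] at h2
    funext i
    fin_cases i
    · exact h2.1
    · exact h2.2

/-- From a filter to a radius. -/
theorem exists_radius {K : Type*} [Field K] {n : ℕ} (e : K ≃+* ℝ) {P : Fin n → K}
    {p : (Fin n → K) → Prop}
    (h : ∀ᶠ y : Fin n → ℝ in 𝓝 (fun j => e (P j)), p (fun j => e.symm (y j))) :
    ∃ δ > 0, ∀ Q : Fin n → K, (∀ i, |e (Q i) - e (P i)| < δ) → p Q := by
  obtain ⟨δ, hδ, hb⟩ := Metric.eventually_nhds_iff.1 h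
  refine ⟨δ, hδ, fun Q hQ => ?_⟩
  have h1 := hb (y := fun j => e (Q j)) ((dist_pi_lt_iff hδ).2 fun i => by
    rw [Real.dist_eq]
    exact hQ i)
  simpa only [RingEquiv.symm_apply_apply] using h1

/-- The class of a point is locally constant. Proof: `Rl.rel_near`, with the topology induced by
`e`. -/
theorem pt_near_aux {K : Type} [Field K] (Ω : Type) [Field Ω] [Algebra K Ω] [IsAlgClosure K Ω]
    {n : ℕ} (e : K ≃+* ℝ) {A B : Matrix (Fin n) (Fin n) K} (hs : Sm Ω A B) {P : Fin n → K}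
    (hP : P ≠ 0) (aP : qv A P = 0) (bP : qv B P = 0) : ∃ δ > 0, ∀ R : Fin n → K,
      (∀ i, |e (R i) - e (P i)| < δ) → qv A R = 0 → qv B R = 0 → ∀ hR : R ≠ 0,
      Ct.pc Ω P hP - Ct.pc Ω R hR ∈ ratEq Ω (Pl A B) ⊔ normCyc Ω (Pl A B) := by
  let _ : TopologicalSpace K := TopologicalSpace.induced e inferInstance
  have he : Continuous e := continuous_induced_dom
  have hes : Continuous e.symm := by
    rw [continuous_induced_rng]
    have : (e ∘ e.symm : ℝ → ℝ) = id := by
      funext x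
      exact e.apply_symm_apply x
    rw [this]
    exact continuous_id
  have h := Rl.rel_near Ω e he (Pl_hom A B) hP ((zer_iff A B).2 ⟨aP, bP⟩) (smAt hs hP aP bP)
  have hc : Continuous fun (y : Fin n → ℝ) (j : Fin n) => e.symm (y j) :=
    continuous_pi fun j => hes.comp (continuous_apply j)
  have hP2 : (fun j => e.symm ((fun j => e (P j)) j)) = P := by
    funext j
    exact e.symm_apply_apply (P j)
  have h2 := hc.tendsto (fun j => e (P j))
  rw [hP2] at h2
  obtain ⟨δ, hδ, hb⟩ := exists_radius e (p := fun Q => Zer (Pl A B) K Q → ∀ hQ : Q ≠ 0,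
      Ct.pc Ω P hP - Ct.pc Ω Q hQ ∈ ratEq Ω (Pl A B) ⊔ normCyc Ω (Pl A B)) (h2.eventually h)
  exact ⟨δ, hδ, fun R hR aR bR hR0 => hb R hR ((zer_iff A B).2 ⟨aR, bR⟩) hR0⟩

end Ts
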