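import Pool.Agent.Lib.MP_f80667_ag.Fa.Dfs
import Pool.Agent.Lib.MP_f80667_ag.Tq.FinB
import Pool.Agent.Lib.MP_f80667_ag.Tq.GenA

/-! The completions at the real places. -/

open ZC NumberField

namespace Ts

variable {F : Type} [Field F] [NumberField F]

/-- The completion at a real place. -/
theorem exists_e (v : InfinitePlace F) (hv : v.IsReal) :
    ∃ e : IK F v ≃+* ℝ, ∀ x : F, |e (algebraMap F (IK F v) x)| = v x := by
  refine ⟨InfinitePlace.Completion.ringEquivRealOfIsReal hv, fun x => ?_⟩
  have h1 : InfinitePlace.Completion.ringEquivRealOfIsReal hv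
      (algebraMap F v.Completion x) = v.embedding_of_isReal hv x :=
    InfinitePlace.Completion.extensionEmbeddingOfIsReal_coe hv _
  have h2 : ‖v.embedding_of_isReal hv x‖ = v x := InfinitePlace.norm_embedding_of_isReal hv x
  rw [Real.norm_eq_abs] at h2
  rw [← h2, ← h1]
  rfl

/-- Every real embedding with the right absolute value is the one of the completion. -/
theorem emb_eq (v w : InfinitePlace F) (φ ψ : F →+* ℝ) (hφ : ∀ x : F, |φ x| = v x)
    (hψ : ∀ x : F, |ψ x| = w x) : φ = ψ ↔ v = w := by
  constructor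
  · intro h
    apply InfinitePlace.ext
    intro x
    rw [← hφ, ← hψ, h]
  · intro h
    subst h
    ext x
    obtain ⟨n, hn⟩ := exists_nat_gt (max |φ x| |ψ x|)
    have h1 : |φ x| < n := lt_of_le_of_lt (le_max_left _ _) hn
    have h2 : |ψ x| < n := lt_of_le_of_lt (le_max_right _ _) hn
    have h3 := hφ (x + n)
    rw [← hψ (x + n), map_add, map_add, map_natCast, map_natCast] at h3
    rw [abs_lt] at h1 h2
    rw [abs_of_pos (by linarith), abs_of_pos (by linarith)] at h3
    linarith

/-- Smoothness over the completions, over `ℝ` and over extensions. -/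
theorem sm_ext {n : ℕ} (A B : Matrix (Fin n) (Fin n) F)
    (hs : ∀ x : Fin n → AlgebraicClosure F, x ≠ 0 → Zer (Tq.Pl A B) (AlgebraicClosure F) x →
      LinearIndependent (AlgebraicClosure F) fun (i : Fin 2) (j : Fin n) =>
        MvPolynomial.aeval x (MvPolynomial.pderiv j (Tq.Pl A B i)))
    (k Ω : Type) [Field k] [CharZero k] [Field Ω] [Algebra k Ω] [IsAlgClosed Ω] (φ : F →+* k) :
    Tq.Sm Ω (A.map φ) (B.map φ) := by
  let : Algebra F k := φ.toAlgebra
  let : Algebra F Ω := ((algebraMap k Ω).comp φ).toAlgebra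
  have : IsScalarTower F k Ω := IsScalarTower.of_algebraMap_eq fun _ => rfl
  intro x hx hA hB a b h
  exact Tq.sm_transfer (k := k) A B hs x hx hA hB a b h

end Ts
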