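import Pool.Agent.Lib.MP_f80667_ag.Ts.Defs
import Pool.Agent.Lib.MP_f80667_ag.Tq.FinB
import Pool.Agent.Lib.MP_f80667_ag.Fa.Adl

/-! Preparations for `Ts.exists_conc`. -/

open scoped LinearAlgebra.Projectivization
open NumberField IsDedekindDomain

namespace Ts

open ZC Tq

section mats

variable {F K E : Type*} [Field F] [Field K] [Field E] [Algebra F K] [Algebra K E] [Algebra F E]
  [IsScalarTower F K E] {n : ℕ} {A B H : Matrix (Fin n) (Fin n) F}

theorem tn_mat (p x : Fin n → E) : tn (H.map (algebraMap F K)) p x = tn H p x := by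
  rw [tn, tn, finb_qv, finb_qv, finb_bv]

theorem Ln_mat {p x : Fin n → E} : Ln (A.map (algebraMap F K)) (B.map (algebraMap F K)) p x ↔
    Ln A B p x := by
  have h1 : ∀ y : Fin n → E, Qp (A.map (algebraMap F K)) (B.map (algebraMap F K)) p y =
      Qp A B p y := fun y => by
    rw [Qp, Qp, finb_qv, finb_qv, finb_qv, finb_qv]
  have h2 : ∀ y z : Fin n → E, Bp (A.map (algebraMap F K)) (B.map (algebraMap F K)) p y z =
      Bp A B p y z := fun y z => by
    rw [Bp, Bp, finb_qv, finb_qv, finb_bv, finb_bv]
  constructor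
  · rintro ⟨ha, hb, hc⟩
    exact ⟨ha, h1 x ▸ hb, h2 p x ▸ hc⟩
  · rintro ⟨ha, hb, hc⟩
    exact ⟨ha, (h1 x).trans hb, (h2 p x).trans hc⟩

theorem zer_mat {x : Fin n → E} : Zer (Pl (A.map (algebraMap F K)) (B.map (algebraMap F K))) E x ↔
    Zer (Pl A B) E x := by
  rw [zer_iff, zer_iff, finb_qv, finb_qv]

end mats

theorem hE_Pl {F : Type} [Field F] (E : Type) [Field E] [Algebra F E] {n : ℕ}
    (A B : Matrix (Fin n) (Fin n) F) :
    hE E (Pl A B) = Pl (A.map (algebraMap F E)) (B.map (algebraMap F E)) := by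
  have hml : ∀ H : Matrix (Fin n) (Fin n) F, (ml H).map (algebraMap F E) =
      ml (H.map (algebraMap F E)) := by
    intro H
    simp only [ml, map_sum, map_mul, MvPolynomial.map_C, MvPolynomial.map_X, Matrix.map_apply]
  funext i
  fin_cases i
  · exact hml A
  · exact hml B

/-- Good pairs under an isomorphism. -/
theorem Gd.of_equiv {k R : Type*} [Field k] [Field R] (e : k ≃+* R) {n : ℕ}
    {A B : Matrix (Fin n) (Fin n) k} {P Q : Fin n → k}
    (h : Gd (A.map (e : k →+* R)) (B.map (e : k →+* R)) (fun i => e (P i)) (fun i => e (Q i))) :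
    Gd A B P Q := by
  have h0 : ∀ H : Matrix (Fin n) (Fin n) k, ∀ x : Fin n → k,
      qv (H.map (e : k →+* R)) (fun i => e (x i)) = 0 → qv H x = 0 := by
    intro H x hx
    have h1 := mqv (e : k →+* R) H x
    exact e.injective ((h1.symm.trans hx).trans (map_zero e).symm)
  refine ⟨h0 A P h.aP, h0 B P h.bP, h0 A Q h.aR, h0 B Q h.bR, fun a b hab => ?_⟩
  have h1 := h.ind (e a) (e b) (fun y => by
    have h2 := hab (fun i => e.symm (y i))
    have h3 := mBp (e : k →+* R) A B (P + Q) P (fun i => e.symm (y i))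
    have h4 := mBp (e : k →+* R) A B (P + Q) Q (fun i => e.symm (y i))
    have h5 : (fun i => (e : k →+* R) ((P + Q) i)) = (fun i => e (P i)) + fun i => e (Q i) := by
      funext i
      exact map_add e _ _
    have h6 : (fun i => (e : k →+* R) (e.symm (y i))) = y := by
      funext i
      exact e.apply_symm_apply _
    rw [h5, h6] at h3 h4
    have h7 := congrArg e h2
    rw [map_add, map_mul, map_mul, map_zero] at h7
    rw [← h7]
    congr 1
    · congr 1
    · congr 1)
  exact ⟨(map_eq_zero e).1 h1.1, (map_eq_zero e).1 h1.2⟩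

/-- The embeddings of `F(√a)` in a field which contains a square root of `a`. -/
theorem exists_tau {F M K Ω : Type*} [Field F] [Field M] [Field K] [Field Ω] [Algebra F M]
    [Algebra F K] [Algebra K Ω] [Algebra F Ω] [IsScalarTower F K Ω] {a : F} {α : M}
    (hα : α ^ 2 = algebraMap F M a) (hM : IntermediateField.adjoin F {α} = ⊤) {s : K}
    (hs : s ^ 2 = algebraMap F K a) (σ : M →ₐ[F] Ω) :
    ∃ τ : M →ₐ[F] K, ∀ x, σ x = algebraMap K Ω (τ x) := by
  let j : K →ₐ[F] Ω := IsScalarTower.toAlgHom F K Ω
  have h1 : σ α ∈ j.fieldRange := by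
    have h2 : (σ α - j s) * (σ α + j s) = 0 := by
      have h3 : σ α ^ 2 = j s ^ 2 := by
        rw [← map_pow, hα, ← map_pow, hs, AlgHom.commutes, AlgHom.commutes]
      linear_combination h3
    rcases mul_eq_zero.1 h2 with h | h
    · exact ⟨s, (sub_eq_zero.1 h).symm⟩
    · refine ⟨-s, ?_⟩
      rw [AlgHom.toRingHom_eq_coe, map_neg]
      exact (eq_neg_of_add_eq_zero_left h).symm
  have h2 : ∀ x, σ x ∈ j.fieldRange := by
    intro x
    have h3 : x ∈ IntermediateField.adjoin F {α} := by
      rw [hM]
      trivial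
    have h4 : IntermediateField.adjoin F {α} ≤ j.fieldRange.comap σ := by
      rw [IntermediateField.adjoin_simple_le_iff]
      exact h1
    exact h4 h3
  choose t ht using h2
  refine ⟨{ toFun := t
            map_one' := ?_
            map_mul' := ?_
            map_zero' := ?_
            map_add' := ?_
            commutes' := ?_ }, fun x => (ht x).symm⟩
  · apply j.injective
    exact (ht 1).trans ((map_one σ).trans (map_one j).symm)
  · intro x y
    apply j.injective
    refine (ht (x * y)).trans ?_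
    rw [map_mul, map_mul, ← ht x, ← ht y]
  · apply j.injective
    exact (ht 0).trans ((map_zero σ).trans (map_zero j).symm)
  · intro x y
    apply j.injective
    refine (ht (x + y)).trans ?_
    rw [map_add, map_add, ← ht x, ← ht y]
  · intro x
    apply j.injective
    exact (ht _).trans ((σ.commutes x).trans (j.commutes x).symm)

end Ts
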