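import Pool.Agent.Lib.MP_f80667_ag.Hm.WA

/-! A quadratic extension which is real only over one real place. -/

open NumberField IsDedekindDomain

namespace Ts

/-- An element which is a uniformiser at a finite place is not a square. -/
theorem not_sq_of_unif {F : Type} [Field F] [NumberField F] (v : HeightOneSpectrum (𝓞 F)) {a : F}
    (ha : v.valuation F a = WithZero.exp (-1 : ℤ)) (y : F) : y ^ 2 ≠ a := by
  intro h
  have h1 : (v.valuation F y) ^ 2 = WithZero.exp (-1 : ℤ) := by
    rw [← map_pow, h, ha]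
  have hy : v.valuation F y ≠ 0 := by
    intro h0
    rw [h0, zero_pow two_ne_zero] at h1
    exact WithZero.exp_ne_zero h1.symm
  have h2 : WithZero.exp (WithZero.log (v.valuation F y)) = v.valuation F y :=
    WithZero.exp_log hy
  rw [← h2, ← WithZero.exp_nsmul] at h1
  have h3 := WithZero.exp_injective h1
  rw [nsmul_eq_mul] at h3
  push_cast at h3
  omega

/-- Proof: `Hm.wapr` with `φ₀ a` near `1`, `φ a` near `-1` for `φ ≠ φ₀`, and `a` of odd valuation at
one finite place; `M = F(√a)` as an intermediate field of `AlgebraicClosure F`, or `AdjoinRoot`. -/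
theorem exists_M (F : Type) [Field F] [NumberField F] (φ₀ : F →+* ℝ) :
    ∃ (M : Type) (_ : Field M) (_ : Algebra F M) (_ : FiniteDimensional F M) (a : F) (α : M),
      Module.finrank F M = 2 ∧ α ^ 2 = algebraMap F M a ∧ IntermediateField.adjoin F {α} = ⊤ ∧
      0 < φ₀ a ∧ ∀ φ : F →+* ℝ, φ ≠ φ₀ → φ a < 0 := by
  classical
  obtain ⟨v⟩ : Nonempty (HeightOneSpectrum (𝓞 F)) := by
    obtain ⟨I, hI⟩ := Ideal.exists_maximal (𝓞 F)
    exact ⟨⟨I, hI.isPrime, Ring.ne_bot_of_isMaximal_of_not_isField hI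
      (RingOfIntegers.not_isField F)⟩⟩
  obtain ⟨ϖ, hϖ⟩ := v.valuation_exists_uniformizer F
  obtain ⟨a, ha1, ha2⟩ := Hm.wapr (K := F) {v} (fun _ => ϖ) (fun φ => if φ = φ₀ then 1 else -1)
    (fun _ => WithZero.exp (-1 : ℤ)) (fun _ => WithZero.exp_ne_zero) (1 / 2) (by norm_num)
  have ha3 := ha1 v (Finset.mem_singleton_self v)
  have ha4 : v.valuation F a = WithZero.exp (-1 : ℤ) := by
    have h1 : a = (a - ϖ) + ϖ := by ring
    rw [h1, Valuation.map_add_eq_of_lt_right (v.valuation F) (by rw [hϖ]; exact ha3), hϖ]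
  have hns : ∀ y : F, y ^ 2 ≠ a := not_sq_of_unif v ha4
  set q : Polynomial F := Polynomial.X ^ 2 - Polynomial.C a with hq
  have hirr : Irreducible q := X_pow_sub_C_irreducible_of_prime Nat.prime_two hns
  have : Fact (Irreducible q) := ⟨hirr⟩
  have hfd : FiniteDimensional F (AdjoinRoot q) := (AdjoinRoot.powerBasis hirr.ne_zero).finite
  have hfr : Module.finrank F (AdjoinRoot q) = 2 := by
    rw [(AdjoinRoot.powerBasis hirr.ne_zero).finrank, AdjoinRoot.powerBasis_dim, hq,
      Polynomial.natDegree_X_pow_sub_C]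
  refine ⟨AdjoinRoot q, inferInstance, inferInstance, hfd, a, AdjoinRoot.root q, hfr, ?_, ?_, ?_, ?_⟩
  · have h1 : Polynomial.eval₂ (AdjoinRoot.of q) (AdjoinRoot.root q) q = 0 :=
      AdjoinRoot.eval₂_root q
    have h2 : ∀ (S : Type) [CommRing S] (f : F →+* S) (x : S),
        Polynomial.eval₂ f x q = x ^ 2 - f a := by
      intro S _ f x
      rw [hq, Polynomial.eval₂_sub, Polynomial.eval₂_pow, Polynomial.eval₂_X, Polynomial.eval₂_C]
    rw [h2] at h1
    exact sub_eq_zero.1 h1
  · rw [eq_top_iff]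
    intro y _
    have h1 : y ∈ Algebra.adjoin F {AdjoinRoot.root q} := by
      rw [AdjoinRoot.adjoinRoot_eq_top]
      trivial
    exact IntermediateField.algebra_adjoin_le_adjoin F _ h1
  · have h1 := ha2 φ₀
    rw [if_pos rfl, abs_lt] at h1
    linarith [h1.1]
  · intro φ hφ
    have h1 := ha2 φ
    rw [if_neg hφ, abs_lt] at h1
    linarith [h1.2]

end Ts
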