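import Pool.Agent.Lib.MP_f80667_ag.Ts.Surj

/-! Smooth intersections of two quadrics in at least `7` variables over number fields. -/

open scoped LinearAlgebra.Projectivization
open NumberField IsDedekindDomain

namespace Ts

open ZC Tq

/-- If the diagonal map is surjective, all elements of the completed adelic group are in the image
of `Δ`. -/
theorem imD_of_surj {F : Type} [Field F] [NumberField F] {N : ℕ} {κ : Type}
    {h : κ → MvPolynomial (Fin N) F} (hh : ∀ j, ∃ d, (h j).IsHomogeneous d)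
    (hd : Function.Surjective (dl (h := h) hh)) (z : LHat (FA h)) : ImD hh z := by
  obtain ⟨x, rfl⟩ := LHat.map_surjective (dl (h := h) hh) hd z
  refine ⟨x, fun m => ?_⟩
  obtain ⟨a, ha⟩ := x.exists_rep m
  obtain ⟨c, rfl⟩ := G1.cls_surj a
  refine ⟨c, ha, ?_⟩
  rw [← dl_cls]
  exact ha.map (dl (h := h) hh)

theorem q1 (F : Type) [Field F] [NumberField F] {n : ℕ} (hn : 7 ≤ n)
    (f : Fin 2 → MvPolynomial (Fin n) F) (hf : ∀ i, (f i).IsHomogeneous 2)
    (hs : ∀ x : Fin n → AlgebraicClosure F, x ≠ 0 → Zer f (AlgebraicClosure F) x →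
      LinearIndependent (AlgebraicClosure F)
        fun (i : Fin 2) (j : Fin n) => MvPolynomial.aeval x (MvPolynomial.pderiv j (f i)))
    (hh : ∀ j, ∃ d, (f j).IsHomogeneous d) :
    (∀ v : HeightOneSpectrum (𝓞 F), Subsingleton (G1 (FK F v) (hE (FK F v) f))) ∧
      ∀ z : LHat (FA f), ImD hh z := by
  obtain ⟨A, hA⟩ := exists_mat (f 0) (hf 0)
  obtain ⟨B, hB⟩ := exists_mat (f 1) (hf 1)
  have hfP : f = Pl A B := by
    funext i
    fin_cases i
    · exact hA
    · exact hB
  subst hfP
  exact ⟨fun v => F1_adic F v (Pl A B) hf hn hs, imD_of_surj hh (dl_surj hn hs hh)⟩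

end Ts
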