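import Pool.Agent.Lib.MP_f80667_ag.Ts.Defs
import Pool.Agent.Lib.MP_f80667_ag.Tq.LinC
import Pool.Agent.Lib.MP_f80667_ag.Fa.Bc

/-! Base change of the cycles of tensors. -/

open scoped LinearAlgebra.Projectivization

namespace Ts

open ZC Tq

universe u

variable {F Ω Ω' : Type u} [Field F] [CharZero F] [Field Ω] [Field Ω'] [Algebra F Ω] [Algebra F Ω']
  {n : ℕ} {A B : Matrix (Fin n) (Fin n) F} {M : Type u} [Field M] [Algebra F M]
  [FiniteDimensional F M]

/-- Base change of the cycle of one tensor over an algebraically closed field. -/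
theorem bc_Ph [IsAlgClosed Ω] (e : Ω →ₐ[F] Ω') {p : Fin n → Ω} {t : ℙ Ω (Fin (n * n) → Ω)}
    (ht : IsT A B p t) : bc e (Ph t) = Ph (mapPt (e : Ω →+* Ω') t) := by
  have : CharZero Ω := charZero_of_injective_algebraMap (algebraMap F Ω).injective
  have : CharZero Ω' := charZero_of_injective_algebraMap (algebraMap F Ω').injective
  obtain ⟨a, b, ha, hb, hs, -, -, rfl⟩ := ht.roots
  have ha' := comp_ne (e : Ω →+* Ω') ha
  have hb' := comp_ne (e : Ω →+* Ω') hb
  have hs' := sq_ne_zero ha' hb'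
  have h1 : mapPt (e : Ω →+* Ω') (Projectivization.mk Ω (sq a b) hs) =
      Projectivization.mk Ω' (sq (fun i => (e : Ω →+* Ω') (a i)) fun i => (e : Ω →+* Ω') (b i))
        hs' := by
    rw [mapPt_mk]
    congr 1
    exact sq_map (e : Ω →+* Ω') a b
  rw [h1, Ph_mk ha hb hs, Ph_mk ha' hb' hs', map_add, bc_single, bc_single, mapPt_mk, mapPt_mk]

/-- Proof: `IsT.hom` and `IsT.roots` over `Ω`: the tensor is `sq a b`; `Ph_mk`; the embeddings of `M`
in `Ω'` are those in `Ω` composed with `e`. -/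
theorem bc_PhL [IsAlgClosure F Ω] [IsAlgClosed Ω'] (e : Ω →ₐ[F] Ω') {p : Fin n → M}
    {t : ℙ M (Fin (n * n) → M)} (ht : IsT A B p t) :
    bc e (PhL (trPt F Ω t)) = ∑ σ : M →ₐ[F] Ω', Ph (mapPt (σ : M →+* Ω') t) := by
  have : IsAlgClosed Ω := IsAlgClosure.isAlgClosed F
  rw [trPt, map_sum, map_sum]
  have hinj : Function.Injective (fun ι : M →ₐ[F] Ω => e.comp ι) := by
    intro ι ι' h
    ext x
    exact (e : Ω →+* Ω').injective (DFunLike.congr_fun h x)
  have hbij : Function.Bijective (fun ι : M →ₐ[F] Ω => e.comp ι) := by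
    rw [Fintype.bijective_iff_injective_and_card]
    exact ⟨hinj, by rw [AlgHom.card, AlgHom.card]⟩
  refine Fintype.sum_bijective _ hbij _ _ fun ι => ?_
  rw [PhL_single, one_smul, bc_Ph e (ht.hom ι), mapPt_comp]
  rfl

/-- The cycle of a tensor over `M` is a zero-cycle of `X` over `F`. -/
theorem PhL_mem [IsAlgClosure F Ω] {p : Fin n → M} {t : ℙ M (Fin (n * n) → M)}
    (ht : IsT A B p t) : PhL (trPt F Ω t) ∈ cyc Ω (Pl A B) ∧
      deg Ω (PhL (trPt F Ω t)) = 2 * Module.finrank F M := by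
  classical
  have : IsAlgClosed Ω := IsAlgClosure.isAlgClosed F
  have : CharZero Ω := charZero_of_injective_algebraMap (algebraMap F Ω).injective
  have hhom : ∀ i, (Pl A B i).IsHomogeneous 2 := by
    have hm : ∀ H : Matrix (Fin n) (Fin n) F, (ml H).IsHomogeneous 2 := by
      intro H
      refine MvPolynomial.IsHomogeneous.sum _ _ _ fun i _ =>
        MvPolynomial.IsHomogeneous.sum _ _ _ fun j _ => ?_
      have h1 := ((MvPolynomial.isHomogeneous_C (Fin n) (H i j)).mul
        ((MvPolynomial.isHomogeneous_X F i).mul (MvPolynomial.isHomogeneous_X F j)))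
      simpa using h1
    intro i
    fin_cases i
    · exact hm A
    · exact hm B
  have hsum : PhL (trPt F Ω t) = ∑ ι : M →ₐ[F] Ω, Ph (mapPt (ι : M →+* Ω) t) := by
    rw [trPt, map_sum]
    refine Finset.sum_congr rfl fun ι _ => ?_
    rw [PhL_single, one_smul]
  refine ⟨⟨?_, ?_⟩, ?_⟩
  · intro x hx
    rw [hsum] at hx
    have h1 := Finsupp.support_finsetSum hx
    rw [Finset.mem_biUnion] at h1
    obtain ⟨ι, -, hι⟩ := h1
    obtain ⟨a, b, ha, hb, hs, hza, hzb, hab⟩ := (ht.hom ι).roots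
    rw [hab, Ph_mk ha hb hs] at hι
    rcases Finset.mem_union.1 (Finsupp.support_add hι) with h2 | h2
    · have h3 := Finset.mem_singleton.1 (Finsupp.support_single_subset h2)
      rw [h3]
      exact zer_mk_rep hhom ha hza
    · have h3 := Finset.mem_singleton.1 (Finsupp.support_single_subset h2)
      rw [h3]
      exact zer_mk_rep hhom hb hzb
  · intro σ x
    have h1 : bc (σ : Ω →ₐ[F] Ω) (PhL (trPt F Ω t)) = PhL (trPt F Ω t) := by
      rw [bc_PhL (σ : Ω →ₐ[F] Ω) ht, hsum]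
    have h2 : bc (σ : Ω →ₐ[F] Ω) (PhL (trPt F Ω t)) (mapPt (σ : Ω →+* Ω) x) =
        PhL (trPt F Ω t) x :=
      Finsupp.mapDomain_apply (mapPt_injective (σ : Ω →+* Ω)) _ x
    rw [h1] at h2
    exact h2
  · rw [hsum, map_sum]
    have h1 : ∀ ι : M →ₐ[F] Ω, deg Ω (Ph (mapPt (ι : M →+* Ω) t)) = 2 := by
      intro ι
      obtain ⟨a, b, ha, hb, hs, -, -, hab⟩ := (ht.hom ι).roots
      rw [hab, Ph_mk ha hb hs, map_add]
      simp [deg]
    rw [Finset.sum_congr rfl fun ι _ => h1 ι, Finset.sum_const, Finset.card_univ, AlgHom.card]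
    simp only [nsmul_eq_mul]
    ring

end Ts
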