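import Pool.Agent.Lib.MP_f80667_ag.Tq.GenA

/-! A smooth pencil of quadrics has at most `n` degenerate members. -/

namespace Ts

open ZC Tq

universe u

section dets

variable {k : Type*} [Field k] {n : ℕ}

/-- The symmetric matrix of the polar form. -/
theorem nd_bv_dot (H : Matrix (Fin n) (Fin n) k) {R : Type*} [CommRing R] [Algebra k R]
    (x y : Fin n → R) :
    bv H x y = dotProduct (((H + H.transpose).map (algebraMap k R)).mulVec x) y := by
  have h1 : bv H x y = ∑ i, ∑ j, algebraMap k R (H i j) * (x i * y j) +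
      ∑ i, ∑ j, algebraMap k R (H i j) * (y i * x j) := by
    simp only [bv, ← Finset.sum_add_distrib]
    apply Finset.sum_congr rfl; intro i _
    apply Finset.sum_congr rfl; intro j _
    ring
  rw [h1, Finset.sum_comm, ← Finset.sum_add_distrib]
  simp only [dotProduct, Matrix.mulVec, Matrix.map_apply, Matrix.add_apply, Matrix.transpose_apply,
    map_add, Finset.sum_mul]
  apply Finset.sum_congr rfl; intro i _
  rw [← Finset.sum_add_distrib]
  apply Finset.sum_congr rfl; intro j _
  ring

/-- A vector of the radical of `a A + b B` is in the kernel of the matrix. -/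
theorem nd_mulVec {R : Type*} [CommRing R] [Algebra k R] {A B : Matrix (Fin n) (Fin n) k}
    {a b : R} {x : Fin n → R} (h : ∀ y : Fin n → R, a * bv A x y + b * bv B x y = 0) :
    (a • (A + A.transpose).map (algebraMap k R) +
      b • (B + B.transpose).map (algebraMap k R)).mulVec x = 0 := by
  funext i
  have h1 := h (Pi.single i 1)
  rw [nd_bv_dot, nd_bv_dot, dotProduct_single, dotProduct_single, mul_one, mul_one] at h1
  rw [Matrix.add_mulVec, Matrix.smul_mulVec, Matrix.smul_mulVec, Pi.add_apply, Pi.smul_apply,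
    Pi.smul_apply, smul_eq_mul, smul_eq_mul, h1, Pi.zero_apply]

theorem nd_of_mulVec {R : Type*} [CommRing R] [Algebra k R] {A B : Matrix (Fin n) (Fin n) k}
    {a b : R} {x : Fin n → R} (h : (a • (A + A.transpose).map (algebraMap k R) +
      b • (B + B.transpose).map (algebraMap k R)).mulVec x = 0) (y : Fin n → R) :
    a * bv A x y + b * bv B x y = 0 := by
  rw [Matrix.add_mulVec, Matrix.smul_mulVec, Matrix.smul_mulVec] at h
  have h1 : dotProduct (a • ((A + A.transpose).map (algebraMap k R)).mulVec x +
      b • ((B + B.transpose).map (algebraMap k R)).mulVec x) y = 0 := by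
    rw [h, zero_dotProduct]
  rw [add_dotProduct, smul_dotProduct, smul_dotProduct, smul_eq_mul, smul_eq_mul] at h1
  rw [nd_bv_dot, nd_bv_dot, h1]

/-- A member of the pencil whose determinant does not vanish is nondegenerate. -/
theorem nd_of_det {A B : Matrix (Fin n) (Fin n) k} {a b : k}
    (h : (a • (A + A.transpose) + b • (B + B.transpose)).det ≠ 0) (x : Fin n → k) (hx : x ≠ 0) :
    ∃ y : Fin n → k, a * bv A x y + b * bv B x y ≠ 0 := by
  by_contra hcon
  push Not at hcon
  have h1 := nd_mulVec hcon
  apply h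
  rw [← Matrix.exists_mulVec_eq_zero_iff]
  refine ⟨x, hx, ?_⟩
  have h2 : ∀ M : Matrix (Fin n) (Fin n) k, M.map (algebraMap k k) = M := fun M => by
    rw [Algebra.algebraMap_self]
    exact Matrix.map_id M
  rwa [h2, h2] at h1

/-- The determinant of the pencil. -/
noncomputable def ndP (A B : Matrix (Fin n) (Fin n) k) : Polynomial k :=
  ((Polynomial.X : Polynomial k) • (A + A.transpose).map Polynomial.C +
    (B + B.transpose).map Polynomial.C).det

theorem ndP_eval (A B : Matrix (Fin n) (Fin n) k) (t : k) :
    (ndP A B).eval t = (t • (A + A.transpose) + (1 : k) • (B + B.transpose)).det := by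
  rw [← Polynomial.coe_evalRingHom, ndP, RingHom.map_det]
  congr 1
  ext i j
  simp
  ring

/-- A division by a power of `X`. -/
theorem nd_exists_w {A B : Matrix (Fin n) (Fin n) k} (N : ℕ) : ∀ v : Fin n → Polynomial k, v ≠ 0 →
    ∑ i, (v i).natDegree ≤ N →
    (∀ y : Fin n → Polynomial k, Polynomial.X * bv A v y + 1 * bv B v y = 0) →
    ∃ w : Fin n → Polynomial k, (∃ i, (w i).eval 0 ≠ 0) ∧
      ∀ y : Fin n → Polynomial k, Polynomial.X * bv A w y + 1 * bv B w y = 0 := by
  induction N with
  | zero =>
    intro v hv hN h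
    refine ⟨v, ?_, h⟩
    obtain ⟨i, hi⟩ := Function.ne_iff.1 hv
    refine ⟨i, ?_⟩
    have h1 : (v i).natDegree = 0 := by
      have h2 : (v i).natDegree ≤ ∑ i, (v i).natDegree :=
        Finset.single_le_sum (f := fun i => (v i).natDegree) (fun _ _ => Nat.zero_le _)
          (Finset.mem_univ i)
      omega
    rw [Polynomial.natDegree_eq_zero] at h1
    obtain ⟨c, hc⟩ := h1
    rw [← hc, Polynomial.eval_C]
    rintro rfl
    apply hi
    rw [← hc, map_zero, Pi.zero_apply]
  | succ N ih =>
    intro v hv hN h
    by_cases hw : ∃ i, (v i).eval 0 ≠ 0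
    · exact ⟨v, hw, h⟩
    push Not at hw
    have h1 : ∀ i, ∃ u : Polynomial k, v i = Polynomial.X * u := fun i => by
      have h2 : Polynomial.X ∣ v i := by
        rw [Polynomial.X_dvd_iff, Polynomial.coeff_zero_eq_eval_zero]
        exact hw i
      exact h2
    choose u hu using h1
    have hvu : v = (Polynomial.X : Polynomial k) • u := by
      funext i
      rw [hu i, Pi.smul_apply, smul_eq_mul]
    have hu0 : u ≠ 0 := by
      rintro rfl
      exact hv (by rw [hvu, smul_zero])
    obtain ⟨i, hi⟩ := Function.ne_iff.1 hu0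
    have hi' : u i ≠ 0 := hi
    refine ih u hu0 ?_ ?_
    · have h3 : ∑ i, (u i).natDegree < ∑ i, (v i).natDegree := by
        apply Finset.sum_lt_sum
        · intro j _
          by_cases hj : u j = 0
          · rw [hj, Polynomial.natDegree_zero]
            exact Nat.zero_le _
          · rw [hu j, Polynomial.natDegree_X_mul hj]
            exact Nat.le_succ _
        · refine ⟨i, Finset.mem_univ i, ?_⟩
          rw [hu i, Polynomial.natDegree_X_mul hi']
          exact Nat.lt_succ_self _
      omega
    · intro y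
      have h4 := h y
      rw [hvu, bv_smul, bv_smul] at h4
      have h5 : Polynomial.X * (Polynomial.X * bv A u y + 1 * bv B u y) = 0 := by
        linear_combination h4
      exact (mul_eq_zero.1 h5).resolve_left Polynomial.X_ne_zero

/-- The derivative of the value of a quadratic form. -/
theorem nd_derivative_qv (H : Matrix (Fin n) (Fin n) k) (w : Fin n → Polynomial k) :
    Polynomial.derivative (qv H w) = bv H w (fun i => Polynomial.derivative (w i)) := by
  simp only [qv, bv, map_sum, Polynomial.derivative_mul, Polynomial.algebraMap_eq,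
    Polynomial.derivative_C]
  apply Finset.sum_congr rfl; intro i _
  apply Finset.sum_congr rfl; intro j _
  ring

end dets

variable {k : Type u} [Field k] [CharZero k] {Ω : Type u} [Field Ω] [Algebra k Ω] [IsAlgClosed Ω]
  {n : ℕ} {A B : Matrix (Fin n) (Fin n) k}

omit [IsAlgClosed Ω] in
/-- The determinant of a smooth pencil is not zero. -/
theorem ndP_ne_zero (hs : Sm Ω A B) : ndP B A ≠ 0 := by
  intro h0
  rw [ndP, ← Matrix.exists_mulVec_eq_zero_iff] at h0
  obtain ⟨v, hv, h1⟩ := h0
  have h2 : ∀ y : Fin n → Polynomial k, Polynomial.X * bv B v y + 1 * bv A v y = 0 := by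
    refine nd_of_mulVec ?_
    rw [one_smul]
    exact h1
  obtain ⟨w, ⟨i, hi⟩, h3⟩ := nd_exists_w _ v hv le_rfl h2
  have h4 : Polynomial.X * qv B w + qv A w = 0 := by
    have h5 := h3 w
    rw [bv_self, bv_self] at h5
    have h6 : 2 * (Polynomial.X * qv B w + qv A w) = 0 := by linear_combination h5
    exact (mul_eq_zero.1 h6).resolve_left two_ne_zero
  have h7 : qv B w = 0 := by
    have h8 := congrArg Polynomial.derivative h4
    rw [map_add, Polynomial.derivative_mul, Polynomial.derivative_X, nd_derivative_qv, nd_derivative_qv,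
      map_zero] at h8
    have h9 := h3 (fun i => Polynomial.derivative (w i))
    linear_combination h8 - h9
  have h8 : qv A w = 0 := by
    rw [h7, mul_zero, zero_add] at h4
    exact h4
  obtain ⟨f, hf⟩ : ∃ f : Polynomial k →ₐ[k] k, f = Polynomial.aeval (0 : k) := ⟨_, rfl⟩
  have hfe : ∀ p : Polynomial k, f p = p.eval 0 := fun p => by
    rw [hf, Polynomial.coe_aeval_eq_eval]
  obtain ⟨x, hx⟩ : ∃ x : Fin n → k, x = fun i => f (w i) := ⟨_, rfl⟩
  have hxi : x i ≠ 0 := by
    rw [hx]
    dsimp only
    rw [hfe]
    exact hi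
  have hA : qv A x = 0 := by rw [hx, qv_hom, h8, map_zero]
  have hB : qv B x = 0 := by rw [hx, qv_hom, h7, map_zero]
  have hb : ∀ y : Fin n → k, (1 : k) * bv A x y + 0 * bv B x y = 0 := by
    intro y
    have h9 := h3 (fun i => Polynomial.C (y i))
    have h10 := congrArg f h9
    rw [map_add, map_mul, map_mul, ← bv_hom, ← bv_hom, map_zero, map_one] at h10
    have h11 : (fun i => f (Polynomial.C (y i))) = y := by
      funext j
      rw [hfe, Polynomial.eval_C]
    rw [h11, ← hx, hfe, Polynomial.eval_X] at h10
    linear_combination h10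
  have h12 := rad_ext (Algebra.ofId k Ω) hb
  have hne : (fun i => Algebra.ofId k Ω (x i)) ≠ 0 := by
    intro h13
    have h14 := congrFun h13 i
    rw [Pi.zero_apply, map_eq_zero] at h14
    exact hxi h14
  obtain ⟨h13, -⟩ := hs _ hne (by rw [qv_hom, hA, map_zero]) (by rw [qv_hom, hB, map_zero])
    (Algebra.ofId k Ω 1) (Algebra.ofId k Ω 0) h12
  rw [map_one] at h13
  exact one_ne_zero h13

omit [IsAlgClosed Ω] in
/-- A value of the pencil whose determinant is not zero. -/
theorem nd_exists_det (hs : Sm Ω A B) :
    ∃ t : k, ((1 : k) • (A + A.transpose) + t • (B + B.transpose)).det ≠ 0 := by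
  by_contra hcon
  push Not at hcon
  refine ndP_ne_zero hs (Polynomial.funext fun t => ?_)
  rw [ndP_eval, add_comm, hcon, Polynomial.eval_zero]

/-- A smooth pencil has a nondegenerate member. Proof: work with `K = k(T)` (or polynomials over
`Ω`). If `A + T B` is degenerate, there is `v ∈ Ω[T]^n`, not all coordinates divisible by `T - 0`,
i.e. `v(0) ≠ 0`, with `bv A v y + T bv B v y = 0` for all `y`. For `y = v`: `qv A v + T qv B v = 0`,
the derivative: `2 (bv A v v' + T bv B v v') + qv B v = 0` up to factors, so `qv B v = 0`,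
`qv A v = 0`; at `T = 0`: `v(0) ∈ X` and `bv A v(0) y = 0` for all `y`, contradiction. -/
theorem exists_nd1 (hs : Sm Ω A B) (hn : 1 ≤ n) :
    ∃ t : k, ∀ x : Fin n → k, x ≠ 0 → ∃ y : Fin n → k, bv A x y + t * bv B x y ≠ 0 := by
  obtain ⟨t, ht⟩ := nd_exists_det hs
  refine ⟨t, fun x hx => ?_⟩
  obtain ⟨y, hy⟩ := nd_of_det ht x hx
  exact ⟨y, by rwa [one_mul] at hy⟩

/-- Among `n + 1` pairwise different members of the pencil one is nondegenerate. Proof: the
determinant of `s (A + Aᵀ) + t (B + Bᵀ)` is homogeneous of degree `n` in `(s, t)`. -/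
theorem exists_nd (hs : Sm Ω A B) (hn : 1 ≤ n) (c : Fin (n + 1) → k × k)
    (hc : ∀ i j, i ≠ j → (c i).1 * (c j).2 ≠ (c j).1 * (c i).2) :
    ∃ i, ∀ x : Fin n → k, x ≠ 0 → ∃ y : Fin n → k,
      (c i).1 * bv A x y + (c i).2 * bv B x y ≠ 0 := by
  obtain ⟨t, ht⟩ := nd_exists_det hs
  by_contra hcon
  push Not at hcon
  have hdet : ∀ i, ((c i).1 • (A + A.transpose) + (c i).2 • (B + B.transpose)).det = 0 := by
    intro i
    by_contra h1
    obtain ⟨x, hx, h2⟩ := hcon i
    obtain ⟨y, hy⟩ := nd_of_det h1 x hx
    exact hy (h2 y)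
  have hne : ∀ i, (c i).2 - (c i).1 * t ≠ 0 := by
    intro i h1
    obtain ⟨j, hj⟩ : ∃ j : Fin (n + 1), i ≠ j := by
      have : Nontrivial (Fin (n + 1)) := Fin.nontrivial_iff_two_le.2 (by omega)
      obtain ⟨j, hj⟩ := exists_ne i
      exact ⟨j, hj.symm⟩
    have h2 : (c i).1 ≠ 0 := by
      intro h3
      have h4 : (c i).2 = 0 := by
        rw [h3, zero_mul, sub_zero] at h1
        exact h1
      apply hc i j hj
      rw [h3, h4, zero_mul, mul_zero]
    have h3 : (c i).2 = (c i).1 * t := sub_eq_zero.1 h1
    have h4 := hdet i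
    have h5 : (c i).1 • (A + A.transpose) + (c i).2 • (B + B.transpose) =
        (c i).1 • ((1 : k) • (A + A.transpose) + t • (B + B.transpose)) := by
      ext a b
      simp only [Matrix.add_apply, Matrix.smul_apply, smul_eq_mul]
      rw [h3]
      ring
    rw [h5, Matrix.det_smul] at h4
    rcases mul_eq_zero.1 h4 with h6 | h6
    · exact h2 (eq_zero_of_pow_eq_zero h6)
    · exact ht h6
  obtain ⟨P, hP⟩ : ∃ P : Polynomial k, P = ((Polynomial.X : Polynomial k) •
      ((1 : k) • (A + A.transpose) + t • (B + B.transpose)).map Polynomial.C +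
      (B + B.transpose).map Polynomial.C).det := ⟨_, rfl⟩
  have hP0 : P = 0 := by
    refine Polynomial.eq_zero_of_natDegree_lt_card_of_eval_eq_zero P
      (f := fun i => (c i).1 / ((c i).2 - (c i).1 * t)) ?_ ?_ ?_
    · intro i j hij
      by_contra h1
      apply hc i j h1
      have h2 : (c i).1 * ((c j).2 - (c j).1 * t) = (c j).1 * ((c i).2 - (c i).1 * t) := by
        dsimp only at hij
        rw [div_eq_div_iff (hne i) (hne j)] at hij
        exact hij
      linear_combination h2
    · intro i
      have h1 : (c i).1 • (A + A.transpose) + (c i).2 • (B + B.transpose) =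
          ((c i).2 - (c i).1 * t) • (((c i).1 / ((c i).2 - (c i).1 * t)) •
            ((1 : k) • (A + A.transpose) + t • (B + B.transpose)) + (B + B.transpose)) := by
        have h9 := hne i
        ext a b
        simp only [Matrix.add_apply, Matrix.smul_apply, smul_eq_mul]
        field_simp
        ring
      have h2 := hdet i
      rw [h1, Matrix.det_smul] at h2
      have h3 := (mul_eq_zero.1 h2).resolve_left (pow_ne_zero _ (hne i))
      rw [hP, ← Polynomial.coe_evalRingHom, RingHom.map_det]
      rw [← h3]
      congr 1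
      ext a b
      simp
      ring
    · rw [hP, Fintype.card_fin]
      have h1 := Polynomial.natDegree_det_X_add_C_le
        ((1 : k) • (A + A.transpose) + t • (B + B.transpose)) (B + B.transpose)
      rw [Fintype.card_fin] at h1
      omega
  apply ht
  have h1 := Polynomial.coeff_det_X_add_C_card
    ((1 : k) • (A + A.transpose) + t • (B + B.transpose)) (B + B.transpose)
  rw [← h1, ← hP, hP0, Polynomial.coeff_zero]

end Ts
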