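import Pool.Agent.Lib.MP_f80667_ag.Ts.Defs
import Pool.Agent.Lib.MP_f80667_ag.Rl.Near
import Pool.Agent.Lib.MP_f80667_ag.Ts.NearA

/-! The cycle of a real line near the line through two points. -/

open scoped LinearAlgebra.Projectivization

namespace Ts

open ZC Tq

/-- The class of a point is locally constant. Proof: `Rl.rel_near`, with the topology induced by
`e`. -/
theorem pt_near {K : Type} [Field K] (Ω : Type) [Field Ω] [Algebra K Ω] [IsAlgClosure K Ω]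
    {n : ℕ} (e : K ≃+* ℝ) {A B : Matrix (Fin n) (Fin n) K} (hs : Sm Ω A B) {P : Fin n → K}
    (hP : P ≠ 0) (aP : qv A P = 0) (bP : qv B P = 0) : ∃ δ > 0, ∀ R : Fin n → K,
      (∀ i, |e (R i) - e (P i)| < δ) → qv A R = 0 → qv B R = 0 → ∀ hR : R ≠ 0,
      Ct.pc Ω P hP - Ct.pc Ω R hR ∈ ratEq Ω (Pl A B) ⊔ normCyc Ω (Pl A B) :=
  pt_near_aux Ω e hs hP aP bP

/-- The tensor does not depend on the form. -/
theorem tn_any {K : Type*} [Field K] {n : ℕ} {A B : Matrix (Fin n) (Fin n) K} {p x : Fin n → K}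
    (hL : Ln A B p x) {H H₀ : Matrix (Fin n) (Fin n) K} (hH : H = A ∨ H = B)
    (hH₀ : H₀ = A ∨ H₀ = B) : qv H₀ p • tn H p x = qv H p • tn H₀ p x := by
  have h := hL.tn
  rcases hH with rfl | rfl <;> rcases hH₀ with rfl | rfl
  · rfl
  · exact h
  · exact h.symm
  · rfl

/-- Zeros of a quadratic polynomial with coefficients near those of `Y (Y + 1)`. -/
theorem roots_near {n : ℕ} (H : Matrix (Fin n) (Fin n) ℝ) (P R : Fin n → ℝ) (hR : qv H R = 0)
    (hPR : qv H (P + R) ≠ 0) (hb : bv H (P + R) R = qv H (P + R)) {δ : ℝ} (hδ : 0 < δ) :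
    ∃ η > 0, ∀ p x : Fin n → ℝ, (∀ i, |p i - (P i + R i)| < η) → (∀ i, |x i - R i| < η) →
      qv H p ≠ 0 ∧ ∃ y₁ y₂ : ℝ, y₁ + y₂ = -(bv H p x / qv H p) ∧ y₁ * y₂ = qv H x / qv H p ∧
        (∀ i, |y₁ * p i + x i - R i| < δ) ∧ ∀ i, |-(y₂ * p i + x i) - P i| < δ := by
  have cq : Continuous fun x : Fin n → ℝ => qv H x := by
    simp only [qv, Algebra.algebraMap_self, RingHom.id_apply]
    fun_prop
  have cb : Continuous fun z : (Fin n → ℝ) × (Fin n → ℝ) => bv H z.1 z.2 := by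
    simp only [bv, Algebra.algebraMap_self, RingHom.id_apply]
    fun_prop
  set z₀ : (Fin n → ℝ) × (Fin n → ℝ) := (P + R, R) with hz₀
  set β : (Fin n → ℝ) × (Fin n → ℝ) → ℝ := fun z => bv H z.1 z.2 / qv H z.1 with hβ
  set γ : (Fin n → ℝ) × (Fin n → ℝ) → ℝ := fun z => qv H z.2 / qv H z.1 with hγ
  have cβ : ContinuousAt β z₀ :=
    cb.continuousAt.div (cq.comp continuous_fst).continuousAt hPR
  have cγ : ContinuousAt γ z₀ :=
    (cq.comp continuous_snd).continuousAt.div (cq.comp continuous_fst).continuousAt hPR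
  have hβ0 : β z₀ = 1 := by
    simp only [hβ, hz₀]
    rw [hb, div_self hPR]
  have hγ0 : γ z₀ = 0 := by
    simp only [hγ, hz₀]
    rw [hR, zero_div]
  set D : (Fin n → ℝ) × (Fin n → ℝ) → ℝ := fun z => β z ^ 2 - 4 * γ z with hD
  have cD : ContinuousAt D z₀ := (cβ.pow 2).sub (cγ.const_mul 4)
  have hD0 : D z₀ = 1 := by
    simp only [hD]
    rw [hβ0, hγ0]
    ring
  set Y₁ : (Fin n → ℝ) × (Fin n → ℝ) → ℝ := fun z => (-β z + Real.sqrt (D z)) / 2 with hY₁
  set Y₂ : (Fin n → ℝ) × (Fin n → ℝ) → ℝ := fun z => (-β z - Real.sqrt (D z)) / 2 with hY₂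
  have cY₁ : ContinuousAt Y₁ z₀ := ((cβ.neg).add cD.sqrt).div_const 2
  have cY₂ : ContinuousAt Y₂ z₀ := ((cβ.neg).sub cD.sqrt).div_const 2
  have hY₁0 : Y₁ z₀ = 0 := by
    simp only [hY₁]
    rw [hβ0, hD0, Real.sqrt_one]
    ring
  have hY₂0 : Y₂ z₀ = -1 := by
    simp only [hY₂]
    rw [hβ0, hD0, Real.sqrt_one]
    ring
  have e1 : ∀ᶠ z in nhds z₀, qv H z.1 ≠ 0 :=
    (cq.comp continuous_fst).continuousAt.eventually_ne hPR
  have e2 : ∀ᶠ z in nhds z₀, 0 < D z :=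
    cD.eventually (lt_mem_nhds (by rw [hD0]; exact one_pos))
  have e3 : ∀ᶠ z in nhds z₀, ∀ i, |Y₁ z * z.1 i + z.2 i - R i| < δ := by
    rw [Filter.eventually_all]
    intro i
    have c : ContinuousAt (fun z => |Y₁ z * z.1 i + z.2 i - R i|) z₀ := by
      have c1 : ContinuousAt (fun z : (Fin n → ℝ) × (Fin n → ℝ) => z.1 i) z₀ :=
        ((continuous_apply i).comp continuous_fst).continuousAt
      have c2 : ContinuousAt (fun z : (Fin n → ℝ) × (Fin n → ℝ) => z.2 i) z₀ :=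
        ((continuous_apply i).comp continuous_snd).continuousAt
      exact (((cY₁.mul c1).add c2).sub continuousAt_const).abs
    refine c.eventually (gt_mem_nhds ?_)
    change |Y₁ z₀ * z₀.1 i + z₀.2 i - R i| < δ
    rw [hY₁0]
    have h0 : 0 * z₀.1 i + z₀.2 i - R i = 0 := by
      simp only [hz₀]
      ring
    rw [h0, abs_zero]
    exact hδ
  have e4 : ∀ᶠ z in nhds z₀, ∀ i, |-(Y₂ z * z.1 i + z.2 i) - P i| < δ := by
    rw [Filter.eventually_all]
    intro i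
    have c : ContinuousAt (fun z => |-(Y₂ z * z.1 i + z.2 i) - P i|) z₀ := by
      have c1 : ContinuousAt (fun z : (Fin n → ℝ) × (Fin n → ℝ) => z.1 i) z₀ :=
        ((continuous_apply i).comp continuous_fst).continuousAt
      have c2 : ContinuousAt (fun z : (Fin n → ℝ) × (Fin n → ℝ) => z.2 i) z₀ :=
        ((continuous_apply i).comp continuous_snd).continuousAt
      exact ((((cY₂.mul c1).add c2).neg).sub continuousAt_const).abs
    refine c.eventually (gt_mem_nhds ?_)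
    change |-(Y₂ z₀ * z₀.1 i + z₀.2 i) - P i| < δ
    rw [hY₂0]
    have h0 : -(-1 * z₀.1 i + z₀.2 i) - P i = 0 := by
      simp only [hz₀, Pi.add_apply]
      ring
    rw [h0, abs_zero]
    exact hδ
  obtain ⟨η, hη, hball⟩ := Metric.eventually_nhds_iff.1 (e1.and (e2.and (e3.and e4)))
  refine ⟨η, hη, fun p x hp hx => ?_⟩
  have hd : dist ((p, x) : (Fin n → ℝ) × (Fin n → ℝ)) z₀ < η := by
    rw [Prod.dist_eq, max_lt_iff]
    refine ⟨(dist_pi_lt_iff hη).2 fun i => ?_, (dist_pi_lt_iff hη).2 fun i => ?_⟩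
    · rw [Real.dist_eq]
      exact hp i
    · rw [Real.dist_eq]
      exact hx i
  obtain ⟨h1, h2, h3, h4⟩ := hball hd
  refine ⟨h1, Y₁ (p, x), Y₂ (p, x), ?_, ?_, h3, h4⟩
  · change (-β (p, x) + Real.sqrt (D (p, x))) / 2 + (-β (p, x) - Real.sqrt (D (p, x))) / 2 =
      -β (p, x)
    ring
  · change (-β (p, x) + Real.sqrt (D (p, x))) / 2 * ((-β (p, x) - Real.sqrt (D (p, x))) / 2) =
      γ (p, x)
    have hsq := Real.mul_self_sqrt h2.le
    have hDe : D (p, x) = β (p, x) ^ 2 - 4 * γ (p, x) := rfl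
    rw [hDe] at hsq ⊢
    linear_combination (-1 / 4 : ℝ) * hsq

/-- Proof (with the topology on `K` induced by `e`): for `(p, x)` near `(P + R, R)`, on the line
through `p` and `x` the form `H` is `α² qv H p + α β bv H p x + β² qv H x`; take `H₀ = A` or `B` with
`bv H₀ P R ≠ 0`, then the coefficients are near `b, b, 0`, `b = bv H₀ P R`, so there are zeros
`T = x + ε p` near `R` and `T' = p - x + ...` near `P` (intermediate values), both on `X` by
`Ln.tn`; `sq T T'` is proportional to `tn H p x`, `Ph_mk`; `Rl.rel_near` (or `Ct`) at `P` and `R`. -/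
theorem cyc_near {K : Type} [Field K] (Ω : Type) [Field Ω] [Algebra K Ω] [IsAlgClosure K Ω]
    {n : ℕ} (e : K ≃+* ℝ) {A B : Matrix (Fin n) (Fin n) K} (hs : Sm Ω A B) {P R : Fin n → K}
    (hP : P ≠ 0) (hR : R ≠ 0) (h : Gd A B P R) : ∃ δ > 0, ∀ p x : Fin n → K,
      (∀ i, |e (p i) - (e (P i) + e (R i))| < δ) → (∀ i, |e (x i) - e (R i)| < δ) →
      Ln A B p x → ∀ H, (H = A ∨ H = B) → qv H p ≠ 0 → ∀ h0 : tn H p x ≠ 0,
      Ph (mapPt (algebraMap K Ω) (Projectivization.mk K (tn H p x) h0)) -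
        (Ct.pc Ω P hP + Ct.pc Ω R hR) ∈ ratEq Ω (Pl A B) ⊔ normCyc Ω (Pl A B) := by
  have hch : CharZero K := charZero_of_injective_ringHom (f := e.symm.toRingHom) e.symm.injective
  have hchΩ : CharZero Ω := charZero_of_injective_algebraMap (algebraMap K Ω).injective
  obtain ⟨H₀, hH₀, hb₀, hq₀, hq₁⟩ : ∃ H₀, (H₀ = A ∨ H₀ = B) ∧ bv H₀ P R ≠ 0 ∧
      qv H₀ (P + R) = bv H₀ P R ∧ qv H₀ R = 0 := by
    rcases h.ne with h1 | h1
    · exact ⟨A, Or.inl rfl, h1, h.qA, h.aR⟩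
    · exact ⟨B, Or.inr rfl, h1, h.qB, h.bR⟩
  obtain ⟨δ₁, hδ₁, hn₁⟩ := pt_near Ω e hs hP h.aP h.bP
  obtain ⟨δ₂, hδ₂, hn₂⟩ := pt_near Ω e hs hR h.aR h.bR
  set φ : K →+* ℝ := (e : K →+* ℝ) with hφ
  have hinj : Function.Injective φ := e.injective
  have hb₁ : bv H₀ (P + R) R = qv H₀ (P + R) := by
    rw [bv_add, bv_self, hq₁, hq₀]
    ring
  have hsum : (fun i => φ ((P + R) i)) = (fun i => φ (P i)) + fun i => φ (R i) := by
    funext i
    simp only [Pi.add_apply, map_add]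
  obtain ⟨η, hη, hroots⟩ := roots_near (H₀.map φ) (fun i => φ (P i)) (fun i => φ (R i))
    (by rw [mqv, hq₁, map_zero])
    (by rw [← hsum, mqv, hq₀]; exact (map_ne_zero_iff φ hinj).2 hb₀)
    (by rw [← hsum, mbv, mqv, hb₁]) (lt_min hδ₁ hδ₂)
  refine ⟨η, hη, fun p x hp hx hL H hH hHp h0 => ?_⟩
  obtain ⟨hq, y₁, y₂, hy₁, hy₂, hc₁, hc₂⟩ := hroots (fun i => φ (p i)) (fun i => φ (x i)) hp hx
  rw [mqv] at hq
  rw [mbv, mqv, ← map_div₀, ← map_neg] at hy₁
  rw [mqv, mqv, ← map_div₀] at hy₂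
  have hqp : qv H₀ p ≠ 0 := (map_ne_zero_iff φ hinj).1 hq
  obtain ⟨z₁, rfl⟩ := e.surjective y₁
  obtain ⟨z₂, rfl⟩ := e.surjective y₂
  have hz₁ : z₁ + z₂ = -(bv H₀ p x / qv H₀ p) := by
    apply e.injective
    rw [map_add]
    exact hy₁
  have hz₂ : z₁ * z₂ = qv H₀ x / qv H₀ p := by
    apply e.injective
    rw [map_mul]
    exact hy₂
  obtain ⟨ha, hza, hsq⟩ := hL.pair hH₀ hqp hz₁ hz₂
  obtain ⟨hb, hzb, -⟩ := hL.pair hH₀ hqp (y₁ := z₂) (y₂ := z₁) (by rw [add_comm]; exact hz₁)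
    (by rw [mul_comm]; exact hz₂)
  set a : Fin n → K := z₁ • p + (1 : K) • x with hadef
  set b : Fin n → K := z₂ • p + (1 : K) • x with hbdef
  have hza' := (zer_iff A B).1 hza
  have hzb' := (zer_iff A B).1 hzb
  -- the two points
  have hb' : (-1 : K) • b ≠ 0 := smul_ne_zero (neg_ne_zero.2 one_ne_zero) hb
  have k₁ := hn₂ a (fun i => by
    have h1 := hc₁ i
    simp only [hadef, Pi.add_apply, Pi.smul_apply, smul_eq_mul, one_mul, map_add, map_mul]
    exact h1.trans_le (min_le_right _ _)) hza'.1 hza'.2 ha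
  have k₂ := hn₁ ((-1 : K) • b) (fun i => by
    have h1 := hc₂ i
    simp only [hbdef, Pi.add_apply, Pi.smul_apply, smul_eq_mul, one_mul, map_add, map_mul, map_neg,
      neg_mul]
    exact h1.trans_le (min_le_left _ _)) (by rw [qv_smul, hzb'.1, mul_zero])
    (by rw [qv_smul, hzb'.2, mul_zero]) hb'
  rw [Ct.pc_smul Ω b hb] at k₂
  -- the tensor
  have hs0 : sq a b ≠ 0 := sq_ne_zero ha hb
  have hmk : Projectivization.mk K (tn H p x) h0 = Projectivization.mk K (sq a b) hs0 := by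
    rw [Projectivization.mk_eq_mk_iff']
    have h1 := tn_any hL hH hH₀
    refine ⟨qv H p, ?_⟩
    rw [← hsq, smul_comm] at h1
    have h2 := smul_right_injective _ hqp h1
    exact h2.symm
  have hsΩ : sq (fun i => algebraMap K Ω (a i)) (fun i => algebraMap K Ω (b i)) ≠ 0 :=
    sq_ne_zero (comp_ne _ ha) (comp_ne _ hb)
  have hPh : Ph (mapPt (algebraMap K Ω) (Projectivization.mk K (tn H p x) h0)) =
      Ct.pc Ω a ha + Ct.pc Ω b hb := by
    rw [hmk, mapPt_mk]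
    have h1 : Projectivization.mk Ω (fun i => algebraMap K Ω (sq a b i)) (comp_ne _ hs0) =
        Projectivization.mk Ω (sq (fun i => algebraMap K Ω (a i))
          (fun i => algebraMap K Ω (b i))) hsΩ := by
      congr 1
      exact sq_map _ _ _
    rw [h1, Ph_mk (comp_ne _ ha) (comp_ne _ hb), Ct.pc, Ct.pc, mapPt_mk, mapPt_mk]
  rw [hPh]
  have h3 : Ct.pc Ω a ha + Ct.pc Ω b hb - (Ct.pc Ω P hP + Ct.pc Ω R hR) =
      -(Ct.pc Ω P hP - Ct.pc Ω b hb) - (Ct.pc Ω R hR - Ct.pc Ω a ha) := by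
    abel
  rw [h3]
  exact sub_mem (neg_mem k₂) k₁

end Ts
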