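import Pool.Agent.Lib.MP_f80667_ag.Ts.ConcA
import Pool.Agent.Lib.MP_f80667_ag.Ts.Near

/-! The class of the cycle of a line over an extension at a real place. -/

open scoped LinearAlgebra.Projectivization

namespace Ts

open ZC Tq

theorem exists_min_pos {ι : Type*} [Finite ι] (δ : ι → ℝ) (h : ∀ i, 0 < δ i) :
    ∃ ε > 0, ∀ i, ε ≤ δ i := by
  cases isEmpty_or_nonempty ι with
  | inl h0 => exact ⟨1, one_pos, fun i => (h0.false i).elim⟩
  | inr h0 =>
    obtain ⟨i, hi⟩ := Finite.exists_min δ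
    exact ⟨δ i, h i, hi⟩

variable {F K M Ω : Type} [Field F] [Field K] [Algebra F K] [Field Ω] [Algebra K Ω]
  [IsAlgClosure K Ω] [Field M] [Algebra F M] [FiniteDimensional F M] {n : ℕ}
  {A B : Matrix (Fin n) (Fin n) F}

theorem class_real (e : K ≃+* ℝ)
    (hs : Sm Ω (A.map (algebraMap F K)) (B.map (algebraMap F K)))
    (P R : (M →ₐ[F] K) → Fin n → K) (hP : ∀ τ, P τ ≠ 0) (hR : ∀ τ, R τ ≠ 0)
    (hG : ∀ τ, Gd (A.map (algebraMap F K)) (B.map (algebraMap F K)) (P τ) (R τ)) :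
    ∃ δ > 0, ∀ p x : Fin n → M, (∀ τ i, |e (τ (p i)) - (e (P τ i) + e (R τ i))| < δ) →
      (∀ τ i, |e (τ (x i)) - e (R τ i)| < δ) → Ln A B p x →
      ∀ H, (H = A ∨ H = B) → qv H p ≠ 0 → ∀ h0 : tn H p x ≠ 0,
      ∑ τ : M →ₐ[F] K, Ph (mapPt (algebraMap K Ω)
          (mapPt (τ : M →+* K) (Projectivization.mk M (tn H p x) h0))) -
        ∑ τ : M →ₐ[F] K, (Ct.pc Ω (P τ) (hP τ) + Ct.pc Ω (R τ) (hR τ)) ∈
        ratEq Ω (Pl (A.map (algebraMap F K)) (B.map (algebraMap F K))) ⊔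
          normCyc Ω (Pl (A.map (algebraMap F K)) (B.map (algebraMap F K))) := by
  choose δ hδ h using fun τ => cyc_near Ω e hs (hP τ) (hR τ) (hG τ)
  obtain ⟨ε, hε, hle⟩ := exists_min_pos δ hδ
  refine ⟨ε, hε, fun p x hp hx hL H hH hq h0 => ?_⟩
  rw [← Finset.sum_sub_distrib]
  refine sum_mem fun τ _ => ?_
  have e1 : mapPt (τ : M →+* K) (Projectivization.mk M (tn H p x) h0) =
      Projectivization.mk K (fun c => (τ : M →+* K) (tn H p x c)) (comp_ne _ h0) :=
    ZC.mapPt_mk _ _ _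
  have e2 : (fun c => (τ : M →+* K) (tn H p x c)) =
      tn (H.map (algebraMap F K)) (fun i => τ (p i)) (fun i => τ (x i)) := by
    rw [tn_mat, tn_hom]
    rfl
  have h0' : tn (H.map (algebraMap F K)) (fun i => τ (p i)) (fun i => τ (x i)) ≠ 0 := by
    rw [← e2]
    exact comp_ne _ h0
  have h1 := h τ (fun i => τ (p i)) (fun i => τ (x i)) (fun i => (hp τ i).trans_le (hle τ))
    (fun i => (hx τ i).trans_le (hle τ)) (Ln_mat.2 (hL.hom τ)) (H.map (algebraMap F K))
    (by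
      rcases hH with rfl | rfl
      · exact Or.inl rfl
      · exact Or.inr rfl)
    (by
      rw [finb_qv, qv_hom]
      exact (map_ne_zero τ).2 hq) h0'
  have e3 : mapPt (τ : M →+* K) (Projectivization.mk M (tn H p x) h0) =
      Projectivization.mk K (tn (H.map (algebraMap F K)) (fun i => τ (p i)) (fun i => τ (x i)))
        h0' := by
    rw [e1]
    congr 1
  rw [e3]
  exact h1

end Ts
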