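import Pool.Agent.Lib.MP_f80667_ag.Ts.BcP
import Pool.Agent.Lib.MP_f80667_ag.Ct.Nrm
import Pool.Agent.Lib.MP_f80667_ag.ZC.Arch

/-! The embeddings of a quadratic extension in the algebraic closure of a real completion. -/

open scoped LinearAlgebra.Projectivization

namespace Ts

open ZC Tq

variable {F K M Ω : Type} [Field F] [CharZero F] [Field K] [Algebra F K] [Field Ω] [Algebra K Ω]
  [Algebra F Ω] [IsScalarTower F K Ω] [IsAlgClosure K Ω] [Field M] [Algebra F M]
  [FiniteDimensional F M] {a : F} {α : M} {n : ℕ} {A B : Matrix (Fin n) (Fin n) F}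
  {p : Fin n → M} {t : ℙ M (Fin (n * n) → M)}

omit [CharZero F] [IsAlgClosure K Ω] [FiniteDimensional F M] in
/-- An embedding which maps the generator into `K` is an embedding into `K`. -/
theorem emb_factor (hM : IntermediateField.adjoin F {α} = ⊤) (σ : M →ₐ[F] Ω) {β : K}
    (hβ : algebraMap K Ω β = σ α) :
    ∃ τ : M →ₐ[F] K, (IsScalarTower.toAlgHom F K Ω).comp τ = σ := by
  set ι : K →ₐ[F] Ω := IsScalarTower.toAlgHom F K Ω with hι
  have h1 : (⊤ : IntermediateField F M) ≤ ι.fieldRange.comap σ := by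
    rw [← hM, IntermediateField.adjoin_le_iff, Set.singleton_subset_iff]
    change σ α ∈ ι.fieldRange
    exact ⟨β, hβ⟩
  have h2 : ∀ x : M, ∃ y : K, ι y = σ x := fun x => h1 (IntermediateField.mem_top (x := x))
  have h3 : ∀ x : M, σ x ∈ ι.range := h2
  refine ⟨((AlgEquiv.ofInjectiveField ι).symm : ι.range →ₐ[F] K).comp (σ.codRestrict ι.range h3), ?_⟩
  ext x
  obtain ⟨y, hy⟩ := h2 x
  have h4 : σ.codRestrict ι.range h3 x = AlgEquiv.ofInjectiveField ι y := by
    apply Subtype.ext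
    exact hy.symm
  change ι ((AlgEquiv.ofInjectiveField ι).symm (σ.codRestrict ι.range h3 x)) = σ x
  rw [h4, AlgEquiv.symm_apply_apply, hy]

/-- At a place where `a` is positive all embeddings of `M = F(√a)` are real. -/
theorem emb_real (e : K ≃+* ℝ) (hα : α ^ 2 = algebraMap F M a)
    (hM : IntermediateField.adjoin F {α} = ⊤) (ha : 0 < e (algebraMap F K a)) :
    ∑ σ : M →ₐ[F] Ω, Ph (mapPt (σ : M →+* Ω) t) =
      ∑ τ : M →ₐ[F] K, Ph (mapPt (algebraMap K Ω) (mapPt (τ : M →+* K) t)) := by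
  obtain ⟨β, hβ⟩ : ∃ β : K, β ^ 2 = algebraMap F K a := by
    refine ⟨e.symm (√(e (algebraMap F K a))), ?_⟩
    rw [← map_pow, Real.sq_sqrt ha.le, RingEquiv.symm_apply_apply]
  symm
  refine Fintype.sum_bijective
    (fun τ : M →ₐ[F] K => (IsScalarTower.toAlgHom F K Ω).comp τ) ⟨?_, ?_⟩ _ _ ?_
  · intro τ τ' h
    ext x
    have h1 := congrArg (fun f : M →ₐ[F] Ω => f x) h
    exact (algebraMap K Ω).injective h1
  · intro σ
    have h1 : (σ α - algebraMap K Ω β) * (σ α + algebraMap K Ω β) = 0 := by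
      have h2 : σ α ^ 2 = algebraMap F Ω a := by rw [← map_pow, hα, AlgHom.commutes]
      have h3 : algebraMap K Ω β ^ 2 = algebraMap F Ω a := by
        rw [← map_pow, hβ, ← IsScalarTower.algebraMap_apply]
      linear_combination h2 - h3
    rcases mul_eq_zero.1 h1 with h2 | h2
    · exact emb_factor hM σ (sub_eq_zero.1 h2).symm
    · refine emb_factor hM σ (β := -β) ?_
      rw [map_neg]
      exact (eq_neg_of_add_eq_zero_left h2).symm
  · intro τ
    rw [ZCTr.mapPt_comp]
    rfl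

/-- At a place where `a` is negative the cycle is a norm. Proof: there are two embeddings, `σ` and
`s ∘ σ`, where `s` is the nontrivial automorphism of `Ω` over `K` (`exists_conj`, `norm_eq`). -/
theorem emb_norm (e : K ≃+* ℝ) (h2 : Module.finrank F M = 2) (hα : α ^ 2 = algebraMap F M a)
    (ha : e (algebraMap F K a) < 0) (ht : IsT A B p t) :
    ∑ σ : M →ₐ[F] Ω, Ph (mapPt (σ : M →+* Ω) t) ∈
      normCyc Ω (Pl (A.map (algebraMap F K)) (B.map (algebraMap F K))) := by
  classical
  have hK0 : CharZero K := charZero_of_injective_algebraMap (algebraMap F K).injective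
  have hΩ0 : CharZero Ω := charZero_of_injective_algebraMap (algebraMap K Ω).injective
  have hac : IsAlgClosed Ω := IsAlgClosure.isAlgClosed K
  have hf2 : Module.finrank K Ω = 2 := finrank_two K Ω e
  obtain ⟨s, hs, hs'⟩ := Ct.exists_conj (k := K) (Ω := Ω) hf2
  have hcard : Fintype.card (M →ₐ[F] Ω) = 2 := by rw [AlgHom.card, h2]
  obtain ⟨σ⟩ : Nonempty (M →ₐ[F] Ω) := Fintype.card_pos_iff.1 (by omega)
  -- the conjugate embedding
  set σ' : M →ₐ[F] Ω := ((s.restrictScalars F : Ω ≃ₐ[F] Ω) : Ω →ₐ[F] Ω).comp σ with hσ'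
  have hfix : s (σ α) ≠ σ α := by
    intro h
    have hfd : FiniteDimensional K Ω := Module.finite_of_finrank_pos (by omega)
    have hgal := Ct.isGalois (k := K) (Ω := Ω) hf2
    have h4 : σ α ∈ (⊥ : IntermediateField K Ω) := by
      rw [IsGalois.mem_bot_iff_fixed]
      intro τ
      rcases hs' τ with h5 | h5
      · rw [h5]
        rfl
      · rw [h5]
        exact h
    obtain ⟨β, hβ⟩ := IntermediateField.mem_bot.1 h4
    have h5 : algebraMap K Ω (β ^ 2) = algebraMap K Ω (algebraMap F K a) := by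
      rw [map_pow, hβ, ← map_pow, hα, AlgHom.commutes, IsScalarTower.algebraMap_apply F K Ω]
    have h6 : β ^ 2 = algebraMap F K a := (algebraMap K Ω).injective h5
    rw [← h6, map_pow] at ha
    exact absurd ha (not_lt.2 (sq_nonneg _))
  have hne : σ ≠ σ' := by
    intro h
    apply hfix
    have h4 := congrArg (fun f : M →ₐ[F] Ω => f α) h
    exact h4.symm
  have huniv : (Finset.univ : Finset (M →ₐ[F] Ω)) = {σ, σ'} := by
    symm
    rw [← Finset.card_eq_iff_eq_univ, Finset.card_pair hne, hcard]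
  have hmap : mapPt (σ' : M →+* Ω) t = mapPt (s : Ω →+* Ω) (mapPt (σ : M →+* Ω) t) := by
    rw [ZCTr.mapPt_comp]
    rfl
  rw [huniv, Finset.sum_pair hne, hmap]
  obtain ⟨x, y, hx, hy, hxy, hzx, hzy, hmk⟩ := (ht.hom σ).roots
  have hne' : ∀ z : Fin n → Ω, z ≠ 0 → (fun i => s (z i)) ≠ 0 :=
    fun z hz => comp_ne (s : Ω →+* Ω) hz
  have hsxy : sq (fun i => s (x i)) (fun i => s (y i)) ≠ 0 :=
    sq_ne_zero (hne' x hx) (hne' y hy)
  have hmk' : mapPt (s : Ω →+* Ω) (mapPt (σ : M →+* Ω) t) =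
      Projectivization.mk Ω (sq (fun i => s (x i)) (fun i => s (y i))) hsxy := by
    rw [hmk, ZCTr.mapPt_mk]
    congr 1
    exact sq_map (s : Ω →+* Ω) x y
  rw [hmk', hmk, Ph_mk hx hy hxy, Ph_mk (hne' x hx) (hne' y hy) hsxy]
  have key : ∀ (z : Fin n → Ω) (hz : z ≠ 0), Zer (Pl A B) Ω z →
      Finsupp.single (Projectivization.mk Ω z hz) (1 : ℤ) +
        Finsupp.single (Projectivization.mk Ω (fun i => s (z i)) (hne' z hz)) 1 ∈
        normCyc Ω (Pl (A.map (algebraMap F K)) (B.map (algebraMap F K))) := by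
    intro z hz hzz
    refine AddSubgroup.subset_closure ⟨Projectivization.mk Ω z hz, ?_, ?_⟩
    · obtain ⟨c, hc⟩ := Projectivization.exists_smul_eq_mk_rep Ω z hz
      rw [← hc, Units.smul_def, zer_iff]
      have hq : ∀ H : Matrix (Fin n) (Fin n) F, qv (H.map (algebraMap F K)) z = qv H z := by
        intro H
        simp only [qv, Matrix.map_apply, ← IsScalarTower.algebraMap_apply]
      rw [zer_iff] at hzz
      rw [qv_smul, qv_smul, hq, hq, hzz.1, hzz.2, mul_zero]
      exact ⟨rfl, rfl⟩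
    · rw [Ct.norm_eq hf2 hs hs', ZCTr.mapPt_mk]
      rfl
  have h5 := add_mem (key x hx hzx) (key y hy hzy)
  refine cast ?_ h5
  congr 1
  abel

end Ts
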