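import Pool.Agent.Lib.MP_f80667_ag.Ts.GoodA
import Pool.Agent.Lib.MP_f80667_ag.Ts.ND

/-! Good pairs of real points. -/

namespace Ts

open ZC Tq

variable {n : ℕ} {A B : Matrix (Fin n) (Fin n) ℝ}

/-- Smoothness at a real point. -/
theorem gb_sm (hs : Sm ℂ A B) {P : Fin n → ℝ} (hP : P ≠ 0) (aP : qv A P = 0) (bP : qv B P = 0)
    (a b : ℝ) (h : ∀ y : Fin n → ℝ, a * bv A P y + b * bv B P y = 0) : a = 0 ∧ b = 0 := by
  have h1 := rad_ext (Ω := ℂ) (Algebra.ofId ℝ ℂ) h
  have h0 : (fun i => (Algebra.ofId ℝ ℂ) (P i)) ≠ 0 := by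
    intro h2
    apply hP
    funext i
    have h3 := congrFun h2 i
    exact (map_eq_zero_iff _ (Algebra.ofId ℝ ℂ).toRingHom.injective).1 h3
  have h2 := hs _ h0 (by rw [qv_hom, aP, map_zero]) (by rw [qv_hom, bP, map_zero])
    ((Algebra.ofId ℝ ℂ) a) ((Algebra.ofId ℝ ℂ) b) h1
  exact ⟨(map_eq_zero_iff _ (Algebra.ofId ℝ ℂ).toRingHom.injective).1 h2.1,
    (map_eq_zero_iff _ (Algebra.ofId ℝ ℂ).toRingHom.injective).1 h2.2⟩

/-- Independent linear forms are jointly surjective. -/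
theorem gb_surj {f g : (Fin n → ℝ) →ₗ[ℝ] ℝ}
    (h : ∀ a b : ℝ, (∀ y, a * f y + b * g y = 0) → a = 0 ∧ b = 0) (a b : ℝ) :
    ∃ y, f y = a ∧ g y = b := by
  have h1 : LinearMap.range (f.prod g) = ⊤ := by
    by_contra hcon
    obtain ⟨φ, hφ, hle⟩ := Submodule.exists_le_ker_of_lt_top _ (lt_top_iff_ne_top.2 hcon)
    have h2 := h (φ (1, 0)) (φ (0, 1)) (fun y => by
      have h3 : φ (f y, g y) = 0 := hle ⟨y, rfl⟩
      have h4 : ((f y, g y) : ℝ × ℝ) = f y • ((1, 0) : ℝ × ℝ) + g y • ((0, 1) : ℝ × ℝ) := by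
        simp
      rw [h4, map_add, map_smul, map_smul, smul_eq_mul, smul_eq_mul] at h3
      linarith)
    apply hφ
    refine LinearMap.ext fun z => ?_
    have h4 : z = z.1 • ((1, 0) : ℝ × ℝ) + z.2 • ((0, 1) : ℝ × ℝ) := by
      ext <;> simp
    rw [h4, map_add, map_smul, map_smul, h2.1, h2.2]
    simp
  have h2 : ((a, b) : ℝ × ℝ) ∈ LinearMap.range (f.prod g) := by
    rw [h1]
    exact Submodule.mem_top
  obtain ⟨y, hy⟩ := h2
  exact ⟨y, congrArg Prod.fst hy, congrArg Prod.snd hy⟩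

/-- Infinitely many points near a real point. Proof: `exists_pt` with `L = (h₁, h₂)`, `h₁ P = 1`,
`h₂ P = 0`, `bv A P`, `bv B P`, `h₁`, `h₂` independent; `L R = (1, s)` for small `s`. -/
theorem exists_many (hn : 4 ≤ n) (hs : Sm ℂ A B) {P : Fin n → ℝ} (hP : P ≠ 0) (aP : qv A P = 0)
    (bP : qv B P = 0) {δ : ℝ} (hδ : 0 < δ) (N : ℕ) : ∃ R : Fin N → Fin n → ℝ,
      (∀ a i, |R a i - P i| < δ) ∧ (∀ a, qv A (R a) = 0 ∧ qv B (R a) = 0) ∧
      ∀ a b, a ≠ b → ∀ c : ℝ, R a ≠ c • R b := by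
  have hsm := gb_sm hs hP aP bP
  let f : (Fin n → ℝ) →ₗ[ℝ] ℝ := bvl A P
  let g : (Fin n → ℝ) →ₗ[ℝ] ℝ := bvl B P
  have hfg : ∀ a b : ℝ, ∃ y, f y = a ∧ g y = b := gb_surj hsm
  have hfP : f P = 0 := by
    change bv A P P = 0
    rw [bv_self, aP, mul_zero]
  have hgP : g P = 0 := by
    change bv B P P = 0
    rw [bv_self, bP, mul_zero]
  -- a second vector in the tangent space
  obtain ⟨Q, hQf, hQg, hQ⟩ : ∃ Q, f Q = 0 ∧ g Q = 0 ∧ ∀ a : ℝ, a • P ≠ Q := by
    have h1 := LinearMap.finrank_range_add_finrank_ker (f.prod g)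
    have h2 : Module.finrank ℝ (LinearMap.range (f.prod g)) ≤ 2 := by
      refine (Submodule.finrank_le _).trans ?_
      simp
    rw [Module.finrank_fintype_fun_eq_card, Fintype.card_fin] at h1
    have h3 : ¬ LinearMap.ker (f.prod g) ≤ Submodule.span ℝ {P} := by
      intro h4
      have h5 := Submodule.finrank_mono h4
      rw [finrank_span_singleton hP] at h5
      omega
    obtain ⟨Q, hQ, hQ2⟩ := Set.not_subset.1 h3
    have h4 : (f.prod g) Q = 0 := hQ
    refine ⟨Q, congrArg Prod.fst h4, congrArg Prod.snd h4, fun a ha => hQ2 ?_⟩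
    exact Submodule.mem_span_singleton.2 ⟨a, ha⟩
  have hind : LinearIndependent ℝ ![P, Q] := (LinearIndependent.pair_iff' hP).2 hQ
  let e : (Fin 2 → ℝ) →ₗ[ℝ] (Fin n → ℝ) := Fintype.linearCombination ℝ ![P, Q]
  have he : LinearMap.ker e = ⊥ := by
    rw [LinearMap.ker_eq_bot]
    exact linearIndependent_iff_injective_fintypeLinearCombination.1 hind
  obtain ⟨L, hL⟩ := e.exists_leftInverse_of_injective he
  have hLe : ∀ c, L (e c) = c := fun c => LinearMap.congr_fun hL c
  have hec : ∀ c : Fin 2 → ℝ, e c = c 0 • P + c 1 • Q := by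
    intro c
    simp only [e, Fintype.linearCombination_apply, Fin.sum_univ_two, Matrix.cons_val_zero,
      Matrix.cons_val_one]
  have hLP : L P = ![1, 0] := by
    rw [← hLe ![1, 0], hec]
    simp
  obtain ⟨δ', hδ', hpt⟩ := exists_pt aP bP L (fun a b c => by
    obtain ⟨y, h1, h2⟩ := hfg a b
    refine ⟨y + e (c - L y), ?_, ?_, ?_⟩
    · change f (y + e (c - L y)) = a
      rw [map_add, h1, hec, map_add, map_smul, map_smul, hfP, hQf]
      simp
    · change g (y + e (c - L y)) = b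
      rw [map_add, h2, hec, map_add, map_smul, map_smul, hgP, hQg]
      simp
    · rw [map_add, hLe]
      abel) hδ
  have hN : (0 : ℝ) < (N : ℝ) + 1 := by positivity
  have hs0 : ∀ a : Fin N, |δ' * ((a : ℝ) + 1) / ((N : ℝ) + 1)| < δ' := by
    intro a
    have h1 : (a : ℝ) < N := by exact_mod_cast a.2
    have h2 : (0 : ℝ) ≤ a := by positivity
    rw [abs_of_pos (by positivity), div_lt_iff₀ hN]
    nlinarith
  have hR := fun a : Fin N => hpt ![1, δ' * ((a : ℝ) + 1) / ((N : ℝ) + 1)] (by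
    intro i
    rw [hLP]
    fin_cases i
    · simpa using hδ'
    · simpa using hs0 a)
  choose R hR1 hR2 hR3 hR4 using hR
  refine ⟨R, hR1, fun a => ⟨hR2 a, hR3 a⟩, ?_⟩
  intro a b hab c hc
  have h1 : L (R a) = c • L (R b) := by rw [← map_smul, ← hc]
  rw [hR4, hR4] at h1
  have h2 := congrFun h1 0
  have h3 := congrFun h1 1
  simp only [Matrix.cons_val_zero, Matrix.cons_val_one, Pi.smul_apply, smul_eq_mul, mul_one]
    at h2 h3
  rw [← h2, one_mul, div_left_inj' hN.ne', mul_right_inj' hδ'.ne'] at h3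
  apply hab
  apply Fin.ext
  have h4 : (a : ℝ) = b := by linarith
  exact_mod_cast h4

/-- The radical of the member through a bad pair. -/
theorem gb_bad (hs : Sm ℂ A B) {P R : Fin n → ℝ} (hP : P ≠ 0) (aP : qv A P = 0) (bP : qv B P = 0)
    (aR : qv A R = 0) (bR : qv B R = 0) (hne : bv A P R ≠ 0 ∨ bv B P R ≠ 0)
    (hbad : ¬ Gd A B P R) : ∃ a b : ℝ, a ≠ 0 ∧ b ≠ 0 ∧ a • P + b • R ≠ 0 ∧
      ∀ y : Fin n → ℝ, bv B P R * bv A (a • P + b • R) y +
        (- bv A P R) * bv B (a • P + b • R) y = 0 := by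
  have qA : qv A (P + R) = bv A P R := by
    rw [qv_add, aP, aR]
    ring
  have qB : qv B (P + R) = bv B P R := by
    rw [qv_add, bP, bR]
    ring
  have hR0 : R ≠ 0 := by
    rintro rfl
    have h2 : ∀ H : Matrix (Fin n) (Fin n) ℝ, bv H P (0 : Fin n → ℝ) = 0 := by
      intro H
      have h3 := bv_smul_right H (0 : ℝ) P (0 : Fin n → ℝ)
      rwa [zero_smul, zero_mul] at h3
    rw [h2, h2] at hne
    exact hne.elim (fun h => h rfl) (fun h => h rfl)
  have h1 : ¬ ∀ a b : ℝ, (∀ y : Fin n → ℝ, a * Bp A B (P + R) P y + b * Bp A B (P + R) R y = 0) →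
      a = 0 ∧ b = 0 := fun h => hbad ⟨aP, bP, aR, bR, h⟩
  push Not at h1
  obtain ⟨a, b, hab, hab0⟩ := h1
  have hrad : ∀ y : Fin n → ℝ, bv B P R * bv A (a • P + b • R) y +
      (- bv A P R) * bv B (a • P + b • R) y = 0 := by
    intro y
    have h2 := hab y
    rw [Bp, Bp, qA, qB] at h2
    rw [bv_add, bv_add, bv_smul, bv_smul, bv_smul, bv_smul]
    linear_combination h2
  have hc0 : ¬ (bv B P R = 0 ∧ - bv A P R = 0) := by
    rintro ⟨h2, h3⟩
    rcases hne with h | h
    · exact h (neg_eq_zero.1 h3)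
    · exact h h2
  have hb0 : b ≠ 0 := by
    rintro rfl
    have ha : a ≠ 0 := fun h => hab0 h rfl
    apply hc0
    refine gb_sm hs hP aP bP _ _ fun y => ?_
    have h2 := hrad y
    rw [zero_smul, add_zero, bv_smul, bv_smul] at h2
    have h3 : a * (bv B P R * bv A P y + -bv A P R * bv B P y) = 0 := by linear_combination h2
    exact (mul_eq_zero.1 h3).resolve_left ha
  have ha0 : a ≠ 0 := by
    rintro rfl
    apply hc0
    refine gb_sm hs hR0 aR bR _ _ fun y => ?_
    have h2 := hrad y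
    rw [zero_smul, zero_add, bv_smul, bv_smul] at h2
    have h3 : b * (bv B P R * bv A R y + -bv A P R * bv B R y) = 0 := by linear_combination h2
    exact (mul_eq_zero.1 h3).resolve_left hb0
  refine ⟨a, b, ha0, hb0, ?_, hrad⟩
  intro h0
  have hR : R = (-(a / b)) • P := by
    funext i
    have h2 := congrFun h0 i
    simp only [Pi.add_apply, Pi.smul_apply, smul_eq_mul, Pi.zero_apply] at h2
    rw [Pi.smul_apply, smul_eq_mul]
    field_simp
    linear_combination h2
  have h3 : ∀ H : Matrix (Fin n) (Fin n) ℝ, qv H P = 0 → bv H P R = 0 := by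
    intro H hH
    rw [hR, bv_smul_right, bv_self, hH]
    ring
  exact hne.elim (fun h => h (h3 A aP)) (fun h => h (h3 B bP))

/-- Proof: `R₁` from `exists_ne`, then `n + 1` points `R a` near `R₁` (`exists_many`), so
`bv A P (R a) ≠ 0` or `bv B P (R a) ≠ 0`. If `(P, R a)` is not good, then there is
`V = α P + β R a ≠ 0` in the radical of `Qp A B (P + R a)`, `α, β ≠ 0` (smoothness at `P`, `R a`). If
this is so for all `a`, then by `exists_nd` two of the members, for `a` and `b`, are proportional, and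
`V_a`, `V_b` are proportional by `rad_le`; `R b = a' P + b' R a`, and `qv A`, `qv B` of it are
`a' b' bv A P (R a)`, `a' b' bv B P (R a)`, so `a' b' = 0`: contradiction. -/
theorem exists_good (hn : 6 ≤ n) (hs : Sm ℂ A B) {P P' : Fin n → ℝ} (hP : P ≠ 0) (hP' : P' ≠ 0)
    (aP : qv A P = 0) (bP : qv B P = 0) (aP' : qv A P' = 0) (bP' : qv B P' = 0) {δ : ℝ}
    (hδ : 0 < δ) : ∃ R : Fin n → ℝ, (∀ i, |R i - P' i| < δ) ∧ Gd A B P R := by
  obtain ⟨R₁, hR₁, aR₁, bR₁, hne⟩ := exists_ne hn hs hP hP' aP bP aP' bP' (half_pos hδ)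
  have hR₁0 : R₁ ≠ 0 := by
    rintro rfl
    have h2 : ∀ H : Matrix (Fin n) (Fin n) ℝ, bv H P (0 : Fin n → ℝ) = 0 := by
      intro H
      have h3 := bv_smul_right H (0 : ℝ) P (0 : Fin n → ℝ)
      rwa [zero_smul, zero_mul] at h3
    rw [h2, h2] at hne
    exact hne.elim (fun h => h rfl) (fun h => h rfl)
  -- near `R₁` the condition remains
  obtain ⟨ρ, hρ, hρne⟩ : ∃ ρ > 0, ∀ R : Fin n → ℝ, (∀ i, |R i - R₁ i| < ρ) →
      bv A P R ≠ 0 ∨ bv B P R ≠ 0 := by
    have hopen : IsOpen {R : Fin n → ℝ | bv A P R ≠ 0 ∨ bv B P R ≠ 0} := by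
      have h1 : {R : Fin n → ℝ | bv A P R ≠ 0 ∨ bv B P R ≠ 0} =
          {R : Fin n → ℝ | bvL A P R ≠ 0} ∪ {R : Fin n → ℝ | bvL B P R ≠ 0} := by
        ext R
        simp only [Set.mem_ofPred_eq, Set.mem_union, bvL_apply]
      rw [h1]
      exact (isOpen_ne_fun (bvL A P).continuous continuous_const).union
        (isOpen_ne_fun (bvL B P).continuous continuous_const)
    obtain ⟨ρ, hρ, hb⟩ := Metric.isOpen_iff.1 hopen R₁ hne
    refine ⟨ρ, hρ, fun R hR => hb ?_⟩
    rw [Metric.mem_ball, dist_pi_lt_iff hρ]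
    exact hR
  obtain ⟨R, hR1, hR2, hR3⟩ := exists_many (by omega) hs hR₁0 aR₁ bR₁
    (lt_min hρ (half_pos hδ)) (n + 1)
  have hRne : ∀ a, bv A P (R a) ≠ 0 ∨ bv B P (R a) ≠ 0 := fun a =>
    hρne _ (fun i => (hR1 a i).trans_le (min_le_left _ _))
  by_contra hcon
  push Not at hcon
  have hbad : ∀ a, ¬ Gd A B P (R a) := fun a => hcon (R a) (fun i => by
    have h1 := (hR1 a i).trans_le (min_le_right _ _)
    have h2 := hR₁ i
    have h3 : R a i - P' i = (R a i - R₁ i) + (R₁ i - P' i) := by ring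
    rw [h3]
    exact lt_of_le_of_lt (abs_add_le _ _) (by linarith))
  have hV := fun a => gb_bad hs hP aP bP (hR2 a).1 (hR2 a).2 (hRne a) (hbad a)
  choose α β hα hβ hV0 hVr using hV
  -- two proportional members
  obtain ⟨i, j, hij, hprop⟩ : ∃ i j, i ≠ j ∧
      bv B P (R i) * (- bv A P (R j)) = bv B P (R j) * (- bv A P (R i)) := by
    by_contra hcon2
    push Not at hcon2
    obtain ⟨i, hi⟩ := exists_nd hs (by omega) (fun i => (bv B P (R i), - bv A P (R i)))
      (fun i j hij => hcon2 i j hij)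
    obtain ⟨y, hy⟩ := hi _ (hV0 i)
    exact hy (hVr i y)
  -- the second radical vector is in the radical of the first member
  have hc0 : bv B P (R i) ≠ 0 ∨ - bv A P (R i) ≠ 0 := by
    rcases hRne i with h | h
    · exact Or.inr (neg_ne_zero.2 h)
    · exact Or.inl h
  have hVj : ∀ y : Fin n → ℝ, bv B P (R i) * bv A (α j • P + β j • R j) y +
      (- bv A P (R i)) * bv B (α j • P + β j • R j) y = 0 := by
    intro y
    have h1 := hVr j y
    rcases hRne j with h | h
    · have h2 : (- bv A P (R j)) * (bv B P (R i) * bv A (α j • P + β j • R j) y +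
          (- bv A P (R i)) * bv B (α j • P + β j • R j) y) = 0 := by
        linear_combination (bv A (α j • P + β j • R j) y) * hprop + (- bv A P (R i)) * h1
      exact (mul_eq_zero.1 h2).resolve_left (neg_ne_zero.2 h)
    · have h2 : (bv B P (R j)) * (bv B P (R i) * bv A (α j • P + β j • R j) y +
          (- bv A P (R i)) * bv B (α j • P + β j • R j) y) = 0 := by
        linear_combination (-(bv B (α j • P + β j • R j) y)) * hprop + (bv B P (R i)) * h1
      exact (mul_eq_zero.1 h2).resolve_left h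
  have hdep : ¬ LinearIndependent ℝ ![α i • P + β i • R i, α j • P + β j • R j] := fun h =>
    rad_le hs (Algebra.ofId ℝ ℂ) hc0 h (hVr i) hVj
  rw [LinearIndependent.pair_iff' (hV0 i)] at hdep
  push Not at hdep
  obtain ⟨μ, hμ⟩ := hdep
  have hμ0 : μ ≠ 0 := by
    rintro rfl
    rw [zero_smul] at hμ
    exact hV0 j hμ.symm
  -- `R j = a' P + b' R i`
  have hRj : R j = ((μ * α i - α j) / β j) • P + (μ * β i / β j) • R i := by
    funext l
    have h2 := congrFun hμ l
    simp only [Pi.add_apply, Pi.smul_apply, smul_eq_mul] at h2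
    simp only [Pi.add_apply, Pi.smul_apply, smul_eq_mul]
    have h3 := hβ j
    field_simp
    linear_combination -h2
  have hprod : ∀ H : Matrix (Fin n) (Fin n) ℝ, qv H P = 0 → qv H (R i) = 0 → qv H (R j) = 0 →
      bv H P (R i) ≠ 0 → ((μ * α i - α j) / β j) = 0 := by
    intro H h1 h2 h3 h4
    rw [hRj, qv_lin, h1, h2] at h3
    have h5 : ((μ * α i - α j) / β j) * ((μ * β i / β j) * bv H P (R i)) = 0 := by
      linear_combination h3
    exact (mul_eq_zero.1 h5).resolve_right (mul_ne_zero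
      (div_ne_zero (mul_ne_zero hμ0 (hβ i)) (hβ j)) h4)
  have h0 : ((μ * α i - α j) / β j) = 0 := by
    rcases hRne i with h | h
    · exact hprod A aP (hR2 i).1 (hR2 j).1 h
    · exact hprod B bP (hR2 i).2 (hR2 j).2 h
  rw [h0, zero_smul, zero_add] at hRj
  exact hR3 j i hij.symm _ hRj

end Ts
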