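import Pool.Agent.Lib.MP_f80667_ag.Ts.Line
import Pool.Agent.Lib.MP_f80667_ag.Ts.GoodB
import Pool.Agent.Lib.MP_f80667_ag.Ts.ConcB
import Pool.Agent.Lib.MP_f80667_ag.Ts.Emb
import Pool.Agent.Lib.MP_f80667_ag.Ts.QuadM
import Pool.Agent.Lib.MP_f80667_ag.Ts.Plc
import Pool.Agent.Lib.MP_f80667_ag.Bx.Fin

/-! Zero-cycles over a number field with prescribed class at one real place. -/

open scoped LinearAlgebra.Projectivization
open NumberField IsDedekindDomain

namespace Ts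

open ZC Tq

section line

variable {F : Type} [Field F] [NumberField F] {n : ℕ} {A B : Matrix (Fin n) (Fin n) F}

/-- A line over `M` near given real lines, and the corresponding tensor. -/
theorem exists_ten (hn : 7 ≤ n)
    (hs : ∀ x : Fin n → AlgebraicClosure F, x ≠ 0 → Zer (Pl A B) (AlgebraicClosure F) x →
      LinearIndependent (AlgebraicClosure F) fun (i : Fin 2) (j : Fin n) =>
        MvPolynomial.aeval x (MvPolynomial.pderiv j (Pl A B i)))
    {M : Type} [Field M] [Algebra F M] [FiniteDimensional F M] (hne : Nonempty (M →+* ℝ))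
    (φ₀ : F →+* ℝ) (hψ : ∀ ψ : M →+* ℝ, ψ.comp (algebraMap F M) = φ₀)
    (P R : (M →+* ℝ) → Fin n → ℝ) (hG : ∀ ψ, Gd (A.map φ₀) (B.map φ₀) (P ψ) (R ψ))
    {δ : ℝ} (hδ : 0 < δ) : ∃ (p x : Fin n → M) (H : Matrix (Fin n) (Fin n) F)
      (h0 : tn H p x ≠ 0), Ln A B p x ∧ (H = A ∨ H = B) ∧ qv H p ≠ 0 ∧
      IsT A B p (Projectivization.mk M (tn H p x) h0) ∧
      (∀ ψ : M →+* ℝ, ∀ i, |ψ (p i) - (P ψ i + R ψ i)| < δ) ∧
      ∀ ψ : M →+* ℝ, ∀ i, |ψ (x i) - R ψ i| < δ := by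
  have : NumberField M := NumberField.of_module_finite F M
  have hmap : ∀ (H : Matrix (Fin n) (Fin n) F) (ψ : M →+* ℝ),
      (H.map (algebraMap F M)).map ψ = H.map φ₀ := by
    intro H ψ
    rw [Matrix.map_map, ← hψ ψ]
    rfl
  obtain ⟨p, x, hL, hz, hc⟩ := exists_line hne hn
    (sm_ext A B hs M (AlgebraicClosure M) (algebraMap F M)) P R
    (fun ψ => by rw [hmap, hmap]; exact hG ψ) hδ
  have hL' : Ln A B p x := Ln_mat.1 hL
  have hz' : ¬ (qv A p = 0 ∧ qv B p = 0) := by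
    rw [← zer_iff, ← zer_mat (K := M)]
    exact hz
  have hH : ∃ H : Matrix (Fin n) (Fin n) F, (H = A ∨ H = B) ∧ qv H p ≠ 0 := by
    by_contra hcon
    push Not at hcon
    exact hz' ⟨hcon A (Or.inl rfl), hcon B (Or.inr rfl)⟩
  obtain ⟨H, hH, hq⟩ := hH
  have h0 : tn H p x ≠ 0 := tn_ne_zero hL'.ind hq
  exact ⟨p, x, H, h0, hL', hH, hq, ⟨x, hL', H, hH, hq, h0, rfl⟩, fun ψ i => (hc ψ i).1,
    fun ψ i => (hc ψ i).2⟩

end line

section cyc

variable {F : Type} [Field F] [NumberField F] {n : ℕ} {A B : Matrix (Fin n) (Fin n) F}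
  {M : Type} [Field M] [Algebra F M] [FiniteDimensional F M]

/-- The difference of the cycles of two tensors. -/
theorem exists_cyc (hh : ∀ j, ∃ d, (Pl A B j).IsHomogeneous d) {p p' : Fin n → M}
    {t t' : ℙ M (Fin (n * n) → M)} (ht : IsT A B p t) (ht' : IsT A B p' t') :
    ∃ c : Z1 F (Pl A B), ∀ (E : Type) [Field E] [Algebra F E],
      (bcZ E hh c).1 = ∑ σ : M →ₐ[F] AlgebraicClosure E, Ph (mapPt (σ : M →+* _) t) -
        ∑ σ : M →ₐ[F] AlgebraicClosure E, Ph (mapPt (σ : M →+* _) t') := by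
  have h1 := PhL_mem (Ω := AlgebraicClosure F) ht
  have h2 := PhL_mem (Ω := AlgebraicClosure F) ht'
  have h3 : PhL (trPt F (AlgebraicClosure F) t) - PhL (trPt F (AlgebraicClosure F) t') ∈
      D0 F (Pl A B) := by
    refine AddSubgroup.mem_inf.2 ⟨sub_mem h1.1 h2.1, ?_⟩
    rw [AddMonoidHom.mem_ker, map_sub, h1.2, h2.2, sub_self]
  refine ⟨⟨_, h3⟩, fun E _ _ => ?_⟩
  have h4 := bc_PhL (emb' F E) ht
  have h5 := bc_PhL (emb' F E) ht'
  have h6 := map_sub (bc (N := n) (emb' F E)) (PhL (trPt F (AlgebraicClosure F) t))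
    (PhL (trPt F (AlgebraicClosure F) t'))
  rw [h4, h5] at h6
  exact h6

end cyc

section loc

variable {F : Type} [Field F] [NumberField F] {n : ℕ} {A B : Matrix (Fin n) (Fin n) F}

theorem pc_congr {K Ω : Type} [Field K] [Field Ω] [Algebra K Ω] {X Y : Fin n → K} (hX : X ≠ 0)
    (hY : Y ≠ 0) (h : X = Y) : Ct.pc Ω X hX = Ct.pc Ω Y hY := by
  subst h
  rfl

/-- Proof. `M`, `a`, `α` from `exists_M`; all real embeddings of `M` are over `φ₀`. Good pairs
`(P, R)` and `(P', R')` with `R`, `R'` near `P'` (`exists_good`). A fixed `τ₁ : M →ₐ[F] K`. Lines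
`(p, x)`, `(p', x')` over `M` from `exists_line`, the first near `(P + R, R)` at all embeddings, the
second near `(P' + R', R')` at `τ₁` and near `(P + R, R)` at the other ones. -/
theorem exists_pair (hn : 7 ≤ n)
    (hs : ∀ x : Fin n → AlgebraicClosure F, x ≠ 0 → Zer (Pl A B) (AlgebraicClosure F) x →
      LinearIndependent (AlgebraicClosure F) fun (i : Fin 2) (j : Fin n) =>
        MvPolynomial.aeval x (MvPolynomial.pderiv j (Pl A B i)))
    {K : Type} [Field K] [Algebra F K] (Ω : Type) [Field Ω] [Algebra K Ω] [Algebra F Ω]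
    [IsScalarTower F K Ω] [IsAlgClosure K Ω] (e : K ≃+* ℝ) {P P' : Fin n → K} (hP : P ≠ 0)
    (hP' : P' ≠ 0) (zP : Zer (Pl (A.map (algebraMap F K)) (B.map (algebraMap F K))) K P)
    (zP' : Zer (Pl (A.map (algebraMap F K)) (B.map (algebraMap F K))) K P') :
    ∃ (M : Type) (_ : Field M) (_ : Algebra F M) (_ : FiniteDimensional F M) (a : F) (α : M)
      (p p' : Fin n → M) (t t' : ℙ M (Fin (n * n) → M)), Module.finrank F M = 2 ∧
      α ^ 2 = algebraMap F M a ∧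
      (∀ φ : F →+* ℝ, φ ≠ (e : K →+* ℝ).comp (algebraMap F K) → φ a < 0) ∧
      IsT A B p t ∧ IsT A B p' t' ∧
      ∑ σ : M →ₐ[F] Ω, Ph (mapPt (σ : M →+* Ω) t) - ∑ σ : M →ₐ[F] Ω, Ph (mapPt (σ : M →+* Ω) t') -
        (Ct.pc Ω P hP - Ct.pc Ω P' hP') ∈
        ratEq Ω (Pl (A.map (algebraMap F K)) (B.map (algebraMap F K))) ⊔
          normCyc Ω (Pl (A.map (algebraMap F K)) (B.map (algebraMap F K))) := by
  classical
  let φ₀ : F →+* ℝ := (e : K →+* ℝ).comp (algebraMap F K)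
  obtain ⟨M, _, _, _, a, α, h2, hα, hM, ha0, haneg⟩ := exists_M F φ₀
  have hψ : ∀ ψ : M →+* ℝ, ψ.comp (algebraMap F M) = φ₀ := by
    intro ψ
    by_contra hne
    have h1 := haneg _ hne
    have h3 : ψ (algebraMap F M a) = ψ α ^ 2 := by rw [← hα, map_pow]
    have h4 : (ψ.comp (algebraMap F M)) a = ψ α ^ 2 := h3
    rw [h4] at h1
    exact absurd h1 (not_lt.2 (sq_nonneg _))
  -- smoothness
  have hcK : CharZero K := charZero_of_injective_algebraMap (algebraMap F K).injective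
  have hac : IsAlgClosed Ω := IsAlgClosure.isAlgClosed K
  have hsK : Sm Ω (A.map (algebraMap F K)) (B.map (algebraMap F K)) :=
    sm_ext A B hs K Ω (algebraMap F K)
  have hsR : Sm ℂ (A.map φ₀) (B.map φ₀) := sm_ext A B hs ℝ ℂ φ₀
  have hmapK : ∀ H : Matrix (Fin n) (Fin n) F,
      (H.map (algebraMap F K)).map (e : K →+* ℝ) = H.map φ₀ := fun H => Matrix.map_map ..
  have zq : ∀ {X : Fin n → K},
      Zer (Pl (A.map (algebraMap F K)) (B.map (algebraMap F K))) K X →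
      qv (A.map φ₀) (fun i => e (X i)) = 0 ∧ qv (B.map φ₀) (fun i => e (X i)) = 0 := by
    intro X hX
    rw [zer_iff] at hX
    have h5 := mqv (e : K →+* ℝ) (A.map (algebraMap F K)) X
    have h6 := mqv (e : K →+* ℝ) (B.map (algebraMap F K)) X
    rw [hmapK, hX.1, map_zero] at h5
    rw [hmapK, hX.2, map_zero] at h6
    exact ⟨h5, h6⟩
  have hne0 : ∀ {X : Fin n → K}, X ≠ 0 → (fun i => e (X i)) ≠ 0 := fun hX =>
    comp_ne (e : K →+* ℝ) hX
  -- good pairs
  have zP1 := (zer_iff _ _).1 zP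
  have zP'1 := (zer_iff _ _).1 zP'
  obtain ⟨δ₁, hδ₁, hnear⟩ := pt_near Ω e hsK hP' zP'1.1 zP'1.2
  obtain ⟨R, hR1, hR2⟩ := exists_good (by omega : 6 ≤ n) hsR (hne0 hP) (hne0 hP') (zq zP).1
    (zq zP).2 (zq zP').1 (zq zP').2 hδ₁
  obtain ⟨R', hR'1, hR'2⟩ := exists_good (by omega : 6 ≤ n) hsR (hne0 hP') (hne0 hP') (zq zP').1
    (zq zP').2 (zq zP').1 (zq zP').2 hδ₁
  set RK : Fin n → K := fun i => e.symm (R i) with hRK
  set RK' : Fin n → K := fun i => e.symm (R' i) with hRK'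
  have eR : (fun i => e (RK i)) = R := by
    funext i
    exact e.apply_symm_apply _
  have eR' : (fun i => e (RK' i)) = R' := by
    funext i
    exact e.apply_symm_apply _
  have hG : Gd (A.map (algebraMap F K)) (B.map (algebraMap F K)) P RK := by
    apply Gd.of_equiv e
    rw [hmapK, hmapK, eR]
    exact hR2
  have hG' : Gd (A.map (algebraMap F K)) (B.map (algebraMap F K)) P' RK' := by
    apply Gd.of_equiv e
    rw [hmapK, hmapK, eR']
    exact hR'2
  have c1 := hnear RK (fun i => by rw [congrFun eR i]; exact hR1 i) hG.aR hG.bR hG.ne_R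
  have c2 := hnear RK' (fun i => by rw [congrFun eR' i]; exact hR'1 i) hG'.aR hG'.bR hG'.ne_R
  -- an embedding of `M`
  have hroot : ∃ s : K, s ^ 2 = algebraMap F K a := by
    refine ⟨e.symm (Real.sqrt (φ₀ a)), e.injective ?_⟩
    rw [map_pow, e.apply_symm_apply, Real.sq_sqrt ha0.le]
    rfl
  obtain ⟨s, hs2⟩ := hroot
  obtain ⟨τ₁, -⟩ := exists_tau (Ω := Ω) hα hM hs2 (IsAlgClosed.lift : M →ₐ[F] Ω)
  set Ψ : (M →ₐ[F] K) → (M →+* ℝ) := fun τ => (e : K →+* ℝ).comp (τ : M →+* K) with hΨ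
  have hΨinj : Function.Injective Ψ := by
    intro τ τ' h
    ext x
    exact e.injective (congrArg (fun f : M →+* ℝ => f x) h)
  -- the two families of real lines
  set Pf : (M →ₐ[F] K) → Fin n → K := fun τ => if τ = τ₁ then P' else P with hPf
  set Rf : (M →ₐ[F] K) → Fin n → K := fun τ => if τ = τ₁ then RK' else RK with hRf
  have hPf0 : ∀ τ, Pf τ ≠ 0 := by
    intro τ
    rw [hPf]
    beta_reduce
    split_ifs
    · exact hP'
    · exact hP
  have hRf0 : ∀ τ, Rf τ ≠ 0 := by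
    intro τ
    rw [hRf]
    beta_reduce
    split_ifs
    · exact hG'.ne_R
    · exact hG.ne_R
  have hGf : ∀ τ, Gd (A.map (algebraMap F K)) (B.map (algebraMap F K)) (Pf τ) (Rf τ) := by
    intro τ
    rw [hPf, hRf]
    beta_reduce
    split_ifs
    · exact hG'
    · exact hG
  obtain ⟨δ₂, hδ₂, hcl⟩ := class_real (M := M) e hsK (fun _ => P) (fun _ => RK) (fun _ => hP)
    (fun _ => hG.ne_R) (fun _ => hG)
  obtain ⟨δ₃, hδ₃, hcl'⟩ := class_real (M := M) e hsK Pf Rf hPf0 hRf0 hGf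
  obtain ⟨p, x, H, h0, hL, hH, hq, hT, hpn, hxn⟩ := exists_ten hn hs ⟨Ψ τ₁⟩ φ₀ hψ
    (fun _ i => e (P i)) (fun _ => R) (fun _ => hR2) hδ₂
  obtain ⟨p', x', H', h0', hL', hH', hq', hT', hpn', hxn'⟩ := exists_ten hn hs ⟨Ψ τ₁⟩ φ₀ hψ
    (fun ψ => if ψ = Ψ τ₁ then fun i => e (P' i) else fun i => e (P i))
    (fun ψ => if ψ = Ψ τ₁ then R' else R)
    (fun ψ => by
      split_ifs
      · exact hR'2
      · exact hR2) hδ₃
  refine ⟨M, inferInstance, inferInstance, inferInstance, a, α, p, p', _, _, h2, hα, haneg, hT,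
    hT', ?_⟩
  rw [emb_real e hα hM ha0, emb_real e hα hM ha0]
  have d1 := hcl p x
    (fun τ i => by
      rw [congrFun eR i]
      exact hpn (Ψ τ) i)
    (fun τ i => by
      rw [congrFun eR i]
      exact hxn (Ψ τ) i) hL H hH hq h0
  have d2 := hcl' p' x'
    (fun τ i => by
      have h7 := hpn' (Ψ τ) i
      rw [hPf, hRf]
      beta_reduce
      by_cases hτ : τ = τ₁
      · rw [if_pos hτ, if_pos hτ]
        rw [if_pos (by rw [hτ]), if_pos (by rw [hτ])] at h7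
        rw [congrFun eR' i]
        exact h7
      · have h8 : ¬ Ψ τ = Ψ τ₁ := fun h => hτ (hΨinj h)
        rw [if_neg hτ, if_neg hτ]
        rw [if_neg h8, if_neg h8] at h7
        rw [congrFun eR i]
        exact h7)
    (fun τ i => by
      have h7 := hxn' (Ψ τ) i
      rw [hRf]
      beta_reduce
      by_cases hτ : τ = τ₁
      · rw [if_pos hτ]
        rw [if_pos (by rw [hτ])] at h7
        rw [congrFun eR' i]
        exact h7
      · have h8 : ¬ Ψ τ = Ψ τ₁ := fun h => hτ (hΨinj h)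
        rw [if_neg hτ]
        rw [if_neg h8] at h7
        rw [congrFun eR i]
        exact h7) hL' H' hH' hq' h0'
  have d3 : ∑ τ : M →ₐ[F] K, (Ct.pc Ω P hP + Ct.pc Ω RK hG.ne_R) -
      ∑ τ : M →ₐ[F] K, (Ct.pc Ω (Pf τ) (hPf0 τ) + Ct.pc Ω (Rf τ) (hRf0 τ)) =
      (Ct.pc Ω P hP + Ct.pc Ω RK hG.ne_R) - (Ct.pc Ω P' hP' + Ct.pc Ω RK' hG'.ne_R) := by
    rw [← Finset.sum_sub_distrib, Finset.sum_eq_single τ₁]
    · rw [pc_congr (hPf0 τ₁) hP' (if_pos rfl), pc_congr (hRf0 τ₁) hG'.ne_R (if_pos rfl)]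
    · intro τ _ hτ
      rw [pc_congr (hPf0 τ) hP (if_neg hτ), pc_congr (hRf0 τ) hG.ne_R (if_neg hτ), sub_self]
    · exact fun h => absurd (Finset.mem_univ _) h
  have d5 := add_mem (sub_mem (sub_mem d1 d2) c1) c2
  refine (congrArg (· ∈ _) ?_).mp d5
  rw [← sub_eq_zero, ← neg_eq_zero] at d3
  rw [← sub_eq_zero, ← d3]
  abel

end loc

variable {F : Type} [Field F] [NumberField F] {n : ℕ} {A B : Matrix (Fin n) (Fin n) F}

theorem exists_conc (hn : 7 ≤ n)
    (hs : ∀ x : Fin n → AlgebraicClosure F, x ≠ 0 → Zer (Pl A B) (AlgebraicClosure F) x →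
      LinearIndependent (AlgebraicClosure F) fun (i : Fin 2) (j : Fin n) =>
        MvPolynomial.aeval x (MvPolynomial.pderiv j (Pl A B i)))
    (hh : ∀ j, ∃ d, (Pl A B j).IsHomogeneous d) (v : InfinitePlace F) (hv : v.IsReal)
    {P P' : Fin n → IK F v} (hP : P ≠ 0) (hP' : P' ≠ 0)
    (zP : Zer (hE (IK F v) (Pl A B)) (IK F v) P) (zP' : Zer (hE (IK F v) (Pl A B)) (IK F v) P') :
    ∃ c : Z1 F (Pl A B),
      (bcZ (IK F v) hh c).1 - (Ct.pc (AlgebraicClosure (IK F v)) P hP -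
          Ct.pc (AlgebraicClosure (IK F v)) P' hP') ∈
        ratEq (AlgebraicClosure (IK F v)) (hE (IK F v) (Pl A B)) ⊔
          normCyc (AlgebraicClosure (IK F v)) (hE (IK F v) (Pl A B)) ∧
      ∀ w : InfinitePlace F, w ≠ v → (bcZ (IK F w) hh c).1 ∈
        ratEq (AlgebraicClosure (IK F w)) (hE (IK F w) (Pl A B)) ⊔
          normCyc (AlgebraicClosure (IK F w)) (hE (IK F w) (Pl A B)) := by
  obtain ⟨e, he⟩ := exists_e v hv
  rw [hE_Pl] at zP zP'
  obtain ⟨M, _, _, _, a, α, p, p', t, t', h2, hα, haneg, hT, hT', hcls⟩ :=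
    exists_pair hn hs (AlgebraicClosure (IK F v)) e hP hP' zP zP'
  obtain ⟨c, hc⟩ := exists_cyc hh hT hT'
  refine ⟨c, ?_, fun w hw => ?_⟩
  · rw [hc, hE_Pl]
    exact hcls
  · rcases w.isReal_or_isComplex with hr | hcx
    · obtain ⟨e', he'⟩ := exists_e w hr
      have hne : (e' : IK F w →+* ℝ).comp (algebraMap F (IK F w)) ≠
          (e : IK F v →+* ℝ).comp (algebraMap F (IK F v)) := by
        intro h
        exact hw ((emb_eq w v _ _ he' he).1 h)
      have hneg : e' (algebraMap F (IK F w) a) < 0 := haneg _ hne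
      rw [hc, hE_Pl]
      exact AddSubgroup.mem_sup_right (sub_mem (emb_norm e' h2 hα hneg hT)
        (emb_norm e' h2 hα hneg hT'))
    · have h9 := (sub_G1b (A := (Fin.elim0 : Fin 0 → Matrix (Fin 0) (Fin 0) _)) hh w
        (Or.inl hcx)).1
      have h10 : G1b.cls (bcZ (IK F w) hh c) = 0 := Subsingleton.elim _ _
      have h11 := (QuotientAddGroup.eq_zero_iff _).1 h10
      exact h11

end Ts
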