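import Pool.Agent.Lib.MP_f80667_ag.Tq.GenA
import Pool.Agent.Lib.MP_f80667_ag.Tq.LinA

/-!
Smooth intersections of two quadrics at the real places. `Gd A B P R`: `P` and `R` are points of `X`,
the line through them is on exactly one member of the pencil and does not meet the vertices of this
member.
-/

open scoped LinearAlgebra.Projectivization

namespace Ts

open ZC Tq

/-- The line through the points `P`, `R` of `X` is on exactly one member of the pencil and does not
meet its vertices. -/
structure Gd {k : Type*} [Field k] {n : ℕ} (A B : Matrix (Fin n) (Fin n) k) (P R : Fin n → k) :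
    Prop where
  aP : qv A P = 0
  bP : qv B P = 0
  aR : qv A R = 0
  bR : qv B R = 0
  ind : ∀ a b : k, (∀ y : Fin n → k, a * Bp A B (P + R) P y + b * Bp A B (P + R) R y = 0) →
    a = 0 ∧ b = 0

section map

variable {k R : Type*} [Field k] [Field R] {n : ℕ}

theorem mqv (φ : k →+* R) (H : Matrix (Fin n) (Fin n) k) (x : Fin n → k) :
    qv (H.map φ) (fun i => φ (x i)) = φ (qv H x) := by
  simp only [qv, map_sum, map_mul, Matrix.map_apply, Algebra.algebraMap_self, RingHom.id_apply]

theorem mbv (φ : k →+* R) (H : Matrix (Fin n) (Fin n) k) (x y : Fin n → k) :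
    bv (H.map φ) (fun i => φ (x i)) (fun i => φ (y i)) = φ (bv H x y) := by
  simp only [bv, map_sum, map_mul, map_add, Matrix.map_apply, Algebra.algebraMap_self,
    RingHom.id_apply]

theorem mQp (φ : k →+* R) (A B : Matrix (Fin n) (Fin n) k) (p x : Fin n → k) :
    Qp (A.map φ) (B.map φ) (fun i => φ (p i)) (fun i => φ (x i)) = φ (Qp A B p x) := by
  simp only [Qp, mqv, map_sub, map_mul]

theorem mBp (φ : k →+* R) (A B : Matrix (Fin n) (Fin n) k) (p x y : Fin n → k) :
    Bp (A.map φ) (B.map φ) (fun i => φ (p i)) (fun i => φ (x i)) (fun i => φ (y i)) =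
      φ (Bp A B p x y) := by
  simp only [Bp, mqv, mbv, map_sub, map_mul]

end map

section gd

variable {k : Type*} [Field k] {n : ℕ} {A B : Matrix (Fin n) (Fin n) k} {P R : Fin n → k}

theorem Gd.qA (h : Gd A B P R) : qv A (P + R) = bv A P R := by
  rw [qv_add, h.aP, h.aR]
  ring

theorem Gd.qB (h : Gd A B P R) : qv B (P + R) = bv B P R := by
  rw [qv_add, h.bP, h.bR]
  ring

/-- `P + R` is not a point of `X`. -/
theorem Gd.ne (h : Gd A B P R) : bv A P R ≠ 0 ∨ bv B P R ≠ 0 := by
  by_contra hcon
  push Not at hcon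
  have h1 := h.ind 1 0 (fun y => by
    rw [Bp, Bp, h.qA, h.qB, hcon.1, hcon.2]
    ring)
  exact one_ne_zero h1.1

theorem Gd.ne_P (h : Gd A B P R) : P ≠ 0 := by
  rintro rfl
  have h1 := h.ne
  have h2 : ∀ H : Matrix (Fin n) (Fin n) k, bv H (0 : Fin n → k) R = 0 := by
    intro H
    have h3 := bv_smul H (0 : k) (0 : Fin n → k) R
    rwa [zero_smul, zero_mul] at h3
  rw [h2, h2] at h1
  exact h1.elim (fun h => h rfl) (fun h => h rfl)

theorem Gd.ne_R (h : Gd A B P R) : R ≠ 0 := by
  rintro rfl
  have h1 := h.ne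
  have h2 : ∀ H : Matrix (Fin n) (Fin n) k, bv H P (0 : Fin n → k) = 0 := by
    intro H
    have h3 := bv_smul_right H (0 : k) P (0 : Fin n → k)
    rwa [zero_smul, zero_mul] at h3
  rw [h2, h2] at h1
  exact h1.elim (fun h => h rfl) (fun h => h rfl)

end gd

end Ts
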