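import Pool.Agent.Lib.MP_f80667_ag.Hm.WA

/-! Weak approximation for vectors over a number field at the real places. -/

open NumberField IsDedekindDomain

namespace Ts

/-- Weak approximation at the real places. -/
theorem wap {K : Type} [Field K] [NumberField K] {n : ℕ} (r : (K →+* ℝ) → Fin n → ℝ) {δ : ℝ}
    (hδ : 0 < δ) : ∃ p : Fin n → K, ∀ φ i, |φ (p i) - r φ i| < δ := by
  have h : ∀ i : Fin n, ∃ x : K, ∀ φ : K →+* ℝ, |φ x - r φ i| < δ := by
    intro i
    obtain ⟨x, -, hx⟩ := Hm.wapr (K := K) ∅ (fun _ => 0) (fun φ => r φ i) (fun _ => 1)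
      (fun _ => one_ne_zero) δ hδ
    exact ⟨x, hx⟩
  choose p hp using h
  exact ⟨p, fun φ i => hp i φ⟩

/-- A nonzero polynomial does not vanish at all approximations. Proof: for every `i` the set of the
`x : K` with `|φ x - r φ i| < δ` for all `φ` is infinite; `MvPolynomial.funext_set`. -/
theorem wap_ne {K : Type} [Field K] [NumberField K] {n : ℕ} (h : MvPolynomial (Fin n) K)
    (hh : h ≠ 0) (r : (K →+* ℝ) → Fin n → ℝ) {δ : ℝ} (hδ : 0 < δ) :
    ∃ p : Fin n → K, MvPolynomial.eval p h ≠ 0 ∧ ∀ φ i, |φ (p i) - r φ i| < δ := by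
  obtain ⟨p, hp⟩ := wap r (half_pos hδ)
  let s : Fin n → Set K := fun i => {x | ∀ φ : K →+* ℝ, |φ x - r φ i| < δ}
  have hs : ∀ i, (s i).Infinite := by
    intro i
    obtain ⟨N, hN⟩ := exists_nat_gt (2 / δ)
    have hNpos : (0 : ℝ) < N := lt_trans (div_pos two_pos hδ) hN
    let g : ℕ → K := fun m => p i + ((N + m : ℕ) : K)⁻¹
    have hg : Function.Injective g := by
      intro a b hab
      have h1 : (((N + a : ℕ) : K))⁻¹ = ((N + b : ℕ) : K)⁻¹ := add_left_cancel hab
      have h2 : N + a = N + b := by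
        exact_mod_cast inv_injective h1
      omega
    refine Set.infinite_of_injective_forall_mem hg fun m φ => ?_
    have h1 : φ (g m) = φ (p i) + ((N + m : ℕ) : ℝ)⁻¹ := by
      simp only [g, map_add, map_inv₀, map_natCast]
    have h2 : (0 : ℝ) < ((N + m : ℕ) : ℝ) := by
      push_cast
      have : (0 : ℝ) ≤ m := Nat.cast_nonneg m
      linarith
    have h3 : ((N + m : ℕ) : ℝ)⁻¹ < δ / 2 := by
      have h4 : 2 / δ < ((N + m : ℕ) : ℝ) := by
        push_cast
        have : (0 : ℝ) ≤ m := Nat.cast_nonneg m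
        linarith
      have h5 : (2 / δ)⁻¹ = δ / 2 := inv_div 2 δ
      rw [← h5]
      exact inv_strictAnti₀ (div_pos two_pos hδ) h4
    rw [h1]
    calc |φ (p i) + ((N + m : ℕ) : ℝ)⁻¹ - r φ i|
        = |(φ (p i) - r φ i) + ((N + m : ℕ) : ℝ)⁻¹| := by ring_nf
      _ ≤ |φ (p i) - r φ i| + |((N + m : ℕ) : ℝ)⁻¹| := abs_add_le _ _
      _ < δ / 2 + δ / 2 := add_lt_add (hp φ i) (by rw [abs_of_pos (inv_pos.2 h2)]; exact h3)
      _ = δ := by ring
  by_contra hcon
  push Not at hcon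
  apply hh
  refine MvPolynomial.funext_set s hs fun x hx => ?_
  rw [map_zero]
  by_contra hne
  obtain ⟨φ, i, hi⟩ := hcon x hne
  exact absurd (hx i (Set.mem_univ i) φ) (not_lt.2 hi)

end Ts
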