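import Pool.Agent.Lib.MP_f80667_ag.Hm.Frm5
import Pool.Agent.Lib.MP_f80667_ag.Ts.Zar
import Pool.Agent.Lib.MP_f80667_ag.Ts.Defs

/-! Zeros of a quadratic form over a number field near given real zeros. -/

namespace Ts

open ZC Tq

section aux

variable {k : Type*} [Field k] {m : ℕ} {A : Matrix (Fin m) (Fin m) k}

open Matrix in
theorem dn_dot (x y : Fin m → k) : bv A x y = x ⬝ᵥ ((A + Aᵀ) *ᵥ y) := by
  simp only [bv, dotProduct, mulVec, Matrix.add_apply, Matrix.transpose_apply,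
    Algebra.algebraMap_self, RingHom.id_apply, Finset.mul_sum, add_mul, mul_add,
    Finset.sum_add_distrib]
  congr 1
  · refine Finset.sum_congr rfl fun i _ => Finset.sum_congr rfl fun j _ => ?_
    ring
  · rw [Finset.sum_comm]
    refine Finset.sum_congr rfl fun i _ => Finset.sum_congr rfl fun j _ => ?_
    ring

open Matrix in
theorem dn_iff : (∀ y : Fin m → k, y ≠ 0 → ∃ y' : Fin m → k, bv A y y' ≠ 0) ↔
    (A + Aᵀ).det ≠ 0 := by
  constructor
  · intro h h0
    obtain ⟨v, hv, hv0⟩ := Matrix.exists_vecMul_eq_zero_iff.2 h0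
    obtain ⟨w, hw⟩ := h v hv
    apply hw
    rw [dn_dot, Matrix.dotProduct_mulVec, hv0, zero_dotProduct]
  · intro h y hy
    by_contra hcon
    push Not at hcon
    apply h
    refine Matrix.exists_vecMul_eq_zero_iff.1 ⟨y, hy, ?_⟩
    funext j
    have h1 := hcon (Pi.single j 1)
    rwa [dn_dot, Matrix.dotProduct_mulVec, dotProduct_single, mul_one] at h1

theorem dn_map {R : Type*} [Field R] (φ : k →+* R)
    (h : ∀ y : Fin m → k, y ≠ 0 → ∃ y' : Fin m → k, bv A y y' ≠ 0) :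
    ∀ y : Fin m → R, y ≠ 0 → ∃ y' : Fin m → R, bv (A.map φ) y y' ≠ 0 := by
  rw [dn_iff] at h ⊢
  have h1 : A.map φ + (A.map φ).transpose = (A + A.transpose).map φ := by
    ext i j
    simp only [Matrix.add_apply, Matrix.map_apply, Matrix.transpose_apply, map_add]
  rw [h1]
  have h2 : ((A + A.transpose).map φ).det = φ (A + A.transpose).det := (RingHom.map_det φ _).symm
  rw [h2]
  exact (map_ne_zero φ).2 h

/-- The polar form as a linear form. -/
def dnL (A : Matrix (Fin m) (Fin m) k) (x : Fin m → k) : (Fin m → k) →ₗ[k] k where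
  toFun := bv A x
  map_add' := bv_add_right A x
  map_smul' c y := by
    rw [RingHom.id_apply, smul_eq_mul]
    exact bv_smul_right A c x y

theorem dn_real (hm : 2 < m) (hA : ∀ y : Fin m → k, y ≠ 0 → ∃ y' : Fin m → k, bv A y y' ≠ 0)
    {y₀ r : Fin m → k} (hy : y₀ ≠ 0) (hr : r ≠ 0) :
    ∃ u : Fin m → k, qv A u * bv A y₀ r - bv A y₀ u * bv A u r ≠ 0 := by
  by_contra hcon
  push Not at hcon
  by_cases hc : bv A y₀ r = 0
  · obtain ⟨v, hv⟩ := hA y₀ hy
    obtain ⟨w, hw⟩ := hA r hr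
    rw [bv_comm] at hw
    have h1 : ∀ u, bv A y₀ u * bv A u r = 0 := by
      intro u
      have := hcon u
      rw [hc] at this
      linear_combination -this
    have h2 : bv A v r = 0 := (mul_eq_zero.1 (h1 v)).resolve_left hv
    have h3 : bv A y₀ w = 0 := (mul_eq_zero.1 (h1 w)).resolve_right hw
    have h4 := h1 (v + w)
    rw [bv_add_right, bv_add, h2, h3, add_zero, zero_add] at h4
    exact (mul_ne_zero hv hw) h4
  · have hker : LinearMap.ker ((dnL A y₀).prod (dnL A r)) ≠ ⊥ :=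
      LinearMap.ker_ne_bot_of_finrank_lt (by
        rw [Module.finrank_prod, Module.finrank_self, Module.finrank_fin_fun]
        omega)
    obtain ⟨u, hu, hu0⟩ := Submodule.exists_mem_ne_zero_of_ne_bot hker
    rw [LinearMap.mem_ker] at hu
    have hu1 : bv A y₀ u = 0 := congrArg Prod.fst hu
    have hu2 : bv A r u = 0 := congrArg Prod.snd hu
    have hu3 : bv A u r = 0 := by rw [bv_comm]; exact hu2
    obtain ⟨v, hv⟩ := hA u hu0
    have h1 := hcon u
    have h2 := hcon v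
    have h3 := hcon (u + v)
    rw [hu1, zero_mul, sub_zero] at h1
    rw [qv_add, bv_add_right, bv_add, hu1, hu3] at h3
    have h4 : bv A u v * bv A y₀ r = 0 := by linear_combination h3 - h1 - h2
    exact (mul_ne_zero hv hc) h4

end aux

theorem dn_pos {ι : Type*} [Finite ι] (ε : ι → ℝ) (h : ∀ i, 0 < ε i) :
    ∃ δ : ℝ, 0 < δ ∧ ∀ i, δ ≤ ε i := by
  rcases isEmpty_or_nonempty ι with h0 | h0
  · exact ⟨1, one_pos, fun i => (h0.false i).elim⟩
  · obtain ⟨i, hi⟩ := Finite.exists_min ε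
    exact ⟨ε i, h i, hi⟩

theorem dn_qc {m : ℕ} (A : Matrix (Fin m) (Fin m) ℝ) :
    Continuous fun u : Fin m → ℝ => qv A u := by
  simp only [qv]
  fun_prop

theorem dn_bc {m : ℕ} (A : Matrix (Fin m) (Fin m) ℝ) (x : Fin m → ℝ) :
    Continuous fun u : Fin m → ℝ => bv A x u := by
  simp only [bv]
  fun_prop

/-- A zero which is not orthogonal to given real zeros. Proof: `y₀` from `Hm.isoM`;
`y₁ = qv G u • y₀ - bv G y₀ u • u` is a zero for every `u`, with `b(y₁, r) = q(u) b(y₀, r) -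
b(y₀, u) b(u, r)` at every real place; there is a real `u` with this nonzero (if `b(y₀, r) ≠ 0`,
`u` orthogonal to `r` with `q(u) ≠ 0`; if `b(y₀, r) = 0`, `u` with `b(y₀, u), b(u, r) ≠ 0`), then `u`
over `K` by `wap` and continuity. -/
theorem dens1 {K : Type} [Field K] [NumberField K] {m : ℕ} (hm : 4 < m)
    (G : Matrix (Fin m) (Fin m) K) (hG : ∀ y : Fin m → K, y ≠ 0 → ∃ y' : Fin m → K, bv G y y' ≠ 0)
    (r : (K →+* ℝ) → Fin m → ℝ) (hr : ∀ φ, r φ ≠ 0) (hz : ∀ φ : K →+* ℝ, qv (G.map φ) (r φ) = 0) :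
    ∃ y : Fin m → K, qv G y = 0 ∧ ∀ φ : K →+* ℝ, bv (G.map φ) (fun i => φ (y i)) (r φ) ≠ 0 := by
  obtain ⟨y₀, hy₀, hq₀⟩ := Hm.isoM hm G (fun φ => ⟨r φ, hr φ, by
    have h1 := hz φ
    rw [qv_eq_dot] at h1
    exact h1⟩)
  have hq : qv G y₀ = 0 := by
    rw [qv_eq_dot]
    exact hq₀
  have hy : ∀ φ : K →+* ℝ, (fun i => φ (y₀ i)) ≠ 0 := by
    intro φ h
    apply hy₀
    funext i
    exact (map_eq_zero φ).1 (congrFun h i)
  have h1 : ∀ φ : K →+* ℝ, ∃ u : Fin m → ℝ, ∃ ε : ℝ, 0 < ε ∧ ∀ v : Fin m → ℝ,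
      (∀ i, |v i - u i| < ε) → qv (G.map φ) v * bv (G.map φ) (fun i => φ (y₀ i)) (r φ) -
        bv (G.map φ) (fun i => φ (y₀ i)) v * bv (G.map φ) v (r φ) ≠ 0 := by
    intro φ
    obtain ⟨u, hu⟩ := dn_real (by omega) (dn_map φ hG) (hy φ) (hr φ)
    have hcont : Continuous fun v : Fin m → ℝ => qv (G.map φ) v *
        bv (G.map φ) (fun i => φ (y₀ i)) (r φ) -
        bv (G.map φ) (fun i => φ (y₀ i)) v * bv (G.map φ) v (r φ) := by
      have hc : Continuous fun v : Fin m → ℝ => bv (G.map φ) v (r φ) := by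
        have := dn_bc (G.map φ) (r φ)
        refine this.congr fun v => ?_
        rw [bv_comm]
      exact ((dn_qc _).mul continuous_const).sub ((dn_bc _ _).mul hc)
    obtain ⟨ε, hε, hball⟩ := Metric.isOpen_iff.1 (isOpen_ne_fun hcont continuous_const) u hu
    refine ⟨u, ε, hε, fun v hv => ?_⟩
    have hv' : v ∈ Metric.ball u ε := by
      rw [Metric.mem_ball, dist_pi_lt_iff hε]
      intro i
      rw [Real.dist_eq]
      exact hv i
    exact hball hv'
  choose u ε hε hu using h1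
  obtain ⟨δ, hδ, hle⟩ := dn_pos ε hε
  obtain ⟨p, hp⟩ := wap u hδ
  refine ⟨qv G p • y₀ + (-bv G y₀ p) • p, ?_, ?_⟩
  · rw [qv_lin, hq]
    ring
  · intro φ
    have h2 := hu φ (fun i => φ (p i)) (fun i => lt_of_lt_of_le (hp φ i) (hle φ))
    have h3 : (fun i => φ ((qv G p • y₀ + (-bv G y₀ p) • p) i)) =
        φ (qv G p) • (fun i => φ (y₀ i)) + (-φ (bv G y₀ p)) • (fun i => φ (p i)) := by
      funext i
      simp only [Pi.add_apply, Pi.smul_apply, smul_eq_mul, map_add, map_mul, map_neg]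
    rw [h3, bv_add, bv_smul, bv_smul]
    rw [mqv, mbv] at h2
    intro h4
    apply h2
    linear_combination h4

/-- The zeros are dense in the product of the real zeros. Proof: `y₁` from `dens1`,
`y = u - (q(u) / b(y₁, u)) y₁`, `u` near the `r φ`. -/
theorem dens {K : Type} [Field K] [NumberField K] {m : ℕ} (hm : 4 < m)
    (G : Matrix (Fin m) (Fin m) K) (hG : ∀ y : Fin m → K, y ≠ 0 → ∃ y' : Fin m → K, bv G y y' ≠ 0)
    (r : (K →+* ℝ) → Fin m → ℝ) (hr : ∀ φ, r φ ≠ 0) (hz : ∀ φ : K →+* ℝ, qv (G.map φ) (r φ) = 0) {δ : ℝ}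
    (hδ : 0 < δ) : ∃ y : Fin m → K, qv G y = 0 ∧ ∀ φ i, |φ (y i) - r φ i| < δ := by
  obtain ⟨y₁, hq, hb⟩ := dens1 hm G hG r hr hz
  rcases isEmpty_or_nonempty (K →+* ℝ) with h0 | ⟨⟨φ₀⟩⟩
  · exact ⟨y₁, hq, fun φ => (h0.false φ).elim⟩
  have h1 : ∀ φ : K →+* ℝ, ∃ ε : ℝ, 0 < ε ∧ ∀ v : Fin m → ℝ, (∀ i, |v i - r φ i| < ε) →
      bv (G.map φ) (fun i => φ (y₁ i)) v ≠ 0 ∧ ∀ i, |v i -
        qv (G.map φ) v / bv (G.map φ) (fun i => φ (y₁ i)) v * φ (y₁ i) - r φ i| < δ := by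
    intro φ
    have hc1 : ContinuousAt (fun v : Fin m → ℝ => bv (G.map φ) (fun i => φ (y₁ i)) v) (r φ) :=
      (dn_bc _ _).continuousAt
    have hc2 : ContinuousAt (fun v : Fin m → ℝ => fun i : Fin m => v i -
        qv (G.map φ) v / bv (G.map φ) (fun i => φ (y₁ i)) v * φ (y₁ i)) (r φ) := by
      rw [continuousAt_pi]
      intro i
      exact ((continuous_apply i).continuousAt).sub
        (((dn_qc _).continuousAt.div hc1 (hb φ)).mul continuousAt_const)
    have hv : (fun i : Fin m => r φ i -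
        qv (G.map φ) (r φ) / bv (G.map φ) (fun i => φ (y₁ i)) (r φ) * φ (y₁ i)) = r φ := by
      funext i
      rw [hz φ, zero_div, zero_mul, sub_zero]
    have he1 := hc1.eventually_ne (hb φ)
    have he2 := hc2.eventually (Metric.ball_mem_nhds _ hδ)
    obtain ⟨ε, hε, hball⟩ := Metric.eventually_nhds_iff.1 (he1.and he2)
    refine ⟨ε, hε, fun v hv' => ?_⟩
    have hd : dist v (r φ) < ε := by
      rw [dist_pi_lt_iff hε]
      intro i
      rw [Real.dist_eq]
      exact hv' i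
    obtain ⟨h2, h3⟩ := hball hd
    refine ⟨h2, fun i => ?_⟩
    have h3' : dist (fun i : Fin m => v i -
        qv (G.map φ) v / bv (G.map φ) (fun i => φ (y₁ i)) v * φ (y₁ i)) (r φ) < δ := by
      have h5 : dist (fun i : Fin m => v i -
          qv (G.map φ) v / bv (G.map φ) (fun i => φ (y₁ i)) v * φ (y₁ i)) (fun i : Fin m => r φ i -
          qv (G.map φ) (r φ) / bv (G.map φ) (fun i => φ (y₁ i)) (r φ) * φ (y₁ i)) < δ := h3
      rwa [hv] at h5
    rw [dist_pi_lt_iff hδ] at h3'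
    have h4 := h3' i
    rwa [Real.dist_eq] at h4
  choose ε hε hu using h1
  obtain ⟨δ', hδ', hle⟩ := dn_pos ε hε
  obtain ⟨p, hp⟩ := wap r hδ'
  have h2 := fun φ => hu φ (fun i => φ (p i)) (fun i => lt_of_lt_of_le (hp φ i) (hle φ))
  have hb0 : bv G y₁ p ≠ 0 := by
    intro h
    have h3 := (h2 φ₀).1
    rw [mbv, h, map_zero] at h3
    exact h3 rfl
  refine ⟨(1 : K) • p + (-(qv G p / bv G y₁ p)) • y₁, ?_, ?_⟩
  · rw [qv_lin, hq, bv_comm G p y₁]
    field_simp
    ring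
  · intro φ i
    have h3 := (h2 φ).2 i
    rw [mqv, mbv] at h3
    have h4 : φ (((1 : K) • p + (-(qv G p / bv G y₁ p)) • y₁) i) =
        φ (p i) - φ (qv G p) / φ (bv G y₁ p) * φ (y₁ i) := by
      simp only [Pi.add_apply, Pi.smul_apply, smul_eq_mul, map_add, map_mul, map_neg, map_one,
        map_div₀]
      ring
    rw [h4]
    exact h3

end Ts
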