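import Pool.Agent.Lib.MP_f80667_ag.Ct.Main

/-! Zero-cycles of degree `0` over a real field are generated by differences of real points, modulo
norms. -/

open scoped LinearAlgebra.Projectivization

namespace Ts

open ZC

/-- Proof: `Ct.real_part`, `Ct.two_norm` (as in the end of `Ct.F1bar_ct`). -/
theorem gen_real {K : Type} [Field K] (Ω : Type) [Field Ω] [Algebra K Ω] [IsAlgClosure K Ω] {n : ℕ}
    {κ : Type} (e : K ≃+* ℝ) {g : κ → MvPolynomial (Fin n) K}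
    (hg : ∀ i, ∃ d, (g i).IsHomogeneous d) :
    cyc0 Ω g ≤ AddSubgroup.closure {z | ∃ (P P' : Fin n → K) (hP : P ≠ 0) (hP' : P' ≠ 0),
      Zer g K P ∧ Zer g K P' ∧ z = Ct.pc Ω P hP - Ct.pc Ω P' hP'} ⊔ normCyc Ω g := by
  classical
  have h2 : Module.finrank K Ω = 2 := finrank_two K Ω e
  have hch : CharZero K := charZero_of_injective_ringHom (f := e.symm.toRingHom) e.symm.injective
  intro z hz
  obtain ⟨hzc, hz0⟩ := AddSubgroup.mem_inf.1 hz
  rw [AddMonoidHom.mem_ker] at hz0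
  obtain ⟨S, hS1, hS2, hS3, hS4⟩ := Ct.real_part hg h2 hzc
  rw [hz0, zero_sub, even_neg] at hS4
  have hpcS : ∀ x : ℙ K (Fin n → K), Ct.pc Ω x.rep x.rep_nonzero =
      Finsupp.single (mapPt (algebraMap K Ω) x) 1 := by
    intro x
    rw [Ct.pc, Projectivization.mk_rep]
  rcases S.eq_empty_or_nonempty with hSe | ⟨p, hp⟩
  · rw [hSe, Finset.sum_empty, sub_zero] at hS3
    exact AddSubgroup.mem_sup_right hS3
  have h3 : ∀ x ∈ S, Finsupp.single (mapPt (algebraMap K Ω) x) (z (mapPt (algebraMap K Ω) x)) -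
      Finsupp.single (mapPt (algebraMap K Ω) p) (z (mapPt (algebraMap K Ω) x)) ∈
        AddSubgroup.closure {z | ∃ (P P' : Fin n → K) (hP : P ≠ 0) (hP' : P' ≠ 0),
          Zer g K P ∧ Zer g K P' ∧ z = Ct.pc Ω P hP - Ct.pc Ω P' hP'} ⊔ normCyc Ω g := by
    intro x hx
    have h4 : Ct.pc Ω x.rep x.rep_nonzero - Ct.pc Ω p.rep p.rep_nonzero ∈
        AddSubgroup.closure {z | ∃ (P P' : Fin n → K) (hP : P ≠ 0) (hP' : P' ≠ 0),
          Zer g K P ∧ Zer g K P' ∧ z = Ct.pc Ω P hP - Ct.pc Ω P' hP'} ⊔ normCyc Ω g :=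
      AddSubgroup.mem_sup_left (AddSubgroup.subset_closure
        ⟨x.rep, p.rep, x.rep_nonzero, p.rep_nonzero, hS2 x hx, hS2 p hp, rfl⟩)
    rw [hpcS, hpcS] at h4
    have h5 := zsmul_mem h4 (z (mapPt (algebraMap K Ω) x))
    rw [smul_sub, Finsupp.smul_single, Finsupp.smul_single, smul_eq_mul, mul_one] at h5
    exact h5
  have h4 := sum_mem h3
  have h7 : ∑ x ∈ S, Finsupp.single (mapPt (algebraMap K Ω) p) (z (mapPt (algebraMap K Ω) x)) =
      (Finsupp.single (mapPt (algebraMap K Ω) p) (∑ x ∈ S, z (mapPt (algebraMap K Ω) x)) :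
        ℙ Ω (Fin n → Ω) →₀ ℤ) :=
    (map_sum (Finsupp.singleAddHom (mapPt (algebraMap K Ω) p)) _ _).symm
  rw [Finset.sum_sub_distrib, h7] at h4
  obtain ⟨m, hm⟩ := hS4
  have h5 : Finsupp.single (mapPt (algebraMap K Ω) p) (∑ x ∈ S, z (mapPt (algebraMap K Ω) x)) ∈
      normCyc Ω g := by
    have h6 := zsmul_mem (Ct.two_norm hg h2 p (hS2 p hp)) m
    rw [Finsupp.smul_single, smul_eq_mul] at h6
    rw [hm]
    convert h6 using 2
    ring
  have h6 := add_mem (add_mem (AddSubgroup.mem_sup_right hS3 : _ ∈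
    AddSubgroup.closure {z | ∃ (P P' : Fin n → K) (hP : P ≠ 0) (hP' : P' ≠ 0),
      Zer g K P ∧ Zer g K P' ∧ z = Ct.pc Ω P hP - Ct.pc Ω P' hP'} ⊔ normCyc Ω g) h4)
    (AddSubgroup.mem_sup_right h5)
  convert h6 using 1
  abel

end Ts
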