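import Pool.Agent.Lib.MP_f80667_ag.Ts.SubA
import Pool.Agent.Lib.MP_f80667_ag.Tq.GenB

/-! Real points of `X` near `P'` which are not in the tangent space at `P`. -/

namespace Ts

open ZC Tq

variable {n : ℕ} {A B : Matrix (Fin n) (Fin n) ℝ}

/-- Smoothness at the real points. -/
theorem sm_real (hs : Sm ℂ A B) {x : Fin n → ℝ} (hx : x ≠ 0) (ha : qv A x = 0) (hb : qv B x = 0)
    {a b : ℝ} (h : ∀ y : Fin n → ℝ, a * bv A x y + b * bv B x y = 0) : a = 0 ∧ b = 0 := by
  have h1 := rad_ext (Algebra.ofId ℝ ℂ) h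
  have h2 := hs (fun i => Algebra.ofId ℝ ℂ (x i)) (comp_ne (Algebra.ofId ℝ ℂ : ℝ →+* ℂ) hx)
    (by rw [qv_hom, ha, map_zero]) (by rw [qv_hom, hb, map_zero]) _ _ h1
  exact ⟨(map_eq_zero_iff _ (Algebra.ofId ℝ ℂ : ℝ →+* ℂ).injective).1 h2.1,
    (map_eq_zero_iff _ (Algebra.ofId ℝ ℂ : ℝ →+* ℂ).injective).1 h2.2⟩

/-- The differentials of the two forms at a smooth point. -/
noncomputable def dd (A B : Matrix (Fin n) (Fin n) ℝ) (P : Fin n → ℝ) :
    (Fin n → ℝ) →ₗ[ℝ] ℝ × ℝ := (bvl A P).prod (bvl B P)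

theorem dd_apply (P y : Fin n → ℝ) : dd A B P y = (bv A P y, bv B P y) := rfl

theorem dd_surj {P : Fin n → ℝ}
    (h : ∀ a b : ℝ, (∀ y : Fin n → ℝ, a * bv A P y + b * bv B P y = 0) → a = 0 ∧ b = 0) :
    LinearMap.range (dd A B P) = ⊤ := by
  by_contra hcon
  obtain ⟨g, hg, hle⟩ := Submodule.exists_le_ker_of_lt_top _ (lt_top_iff_ne_top.2 hcon)
  have h1 : ∀ x y : ℝ, g (x, y) = x * g (1, 0) + y * g (0, 1) := by
    intro x y
    have e : ((x, y) : ℝ × ℝ) = x • (1, 0) + y • (0, 1) := by simp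
    rw [e, map_add, map_smul, map_smul, smul_eq_mul, smul_eq_mul]
  have h2 := h (g (1, 0)) (g (0, 1)) (fun y => by
    have h3 : g (dd A B P y) = 0 := hle (LinearMap.mem_range_self _ y)
    rw [dd_apply, h1] at h3
    linear_combination h3)
  apply hg
  ext
  · simpa using h2.1
  · simpa using h2.2

theorem dd_rank {P : Fin n → ℝ}
    (h : ∀ a b : ℝ, (∀ y : Fin n → ℝ, a * bv A P y + b * bv B P y = 0) → a = 0 ∧ b = 0) :
    Module.finrank ℝ (LinearMap.ker (dd A B P)) + 2 = n := by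
  have h1 := LinearMap.finrank_range_add_finrank_ker (dd A B P)
  rw [dd_surj h, finrank_top, Module.finrank_prod, Module.finrank_self, Module.finrank_fin_fun] at h1
  omega

/-- A linear form which vanishes at the points of `X` near `P'` vanishes on the tangent space. -/
theorem van_T {P' : Fin n → ℝ} (aP' : qv A P' = 0) (bP' : qv B P' = 0)
    (hi : ∀ a b : ℝ, (∀ y : Fin n → ℝ, a * bv A P' y + b * bv B P' y = 0) → a = 0 ∧ b = 0)
    {δ : ℝ} (hδ : 0 < δ) (g : (Fin n → ℝ) →ₗ[ℝ] ℝ)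
    (hg : ∀ R : Fin n → ℝ, (∀ i, |R i - P' i| < δ) → qv A R = 0 → qv B R = 0 → g R = 0) :
    LinearMap.ker (dd A B P') ≤ LinearMap.ker g := by
  intro t ht
  rw [LinearMap.mem_ker] at ht ⊢
  by_contra hgt
  rw [dd_apply, Prod.mk_eq_zero] at ht
  let L : (Fin n → ℝ) →ₗ[ℝ] (Fin 1 → ℝ) := LinearMap.pi fun _ => g
  have hL : ∀ (a b : ℝ) (c : Fin 1 → ℝ), ∃ y : Fin n → ℝ, bv A P' y = a ∧ bv B P' y = b ∧
      L y = c := by
    intro a b c
    have h1 : ((a, b) : ℝ × ℝ) ∈ LinearMap.range (dd A B P') := by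
      rw [dd_surj hi]
      trivial
    obtain ⟨y0, hy0⟩ := h1
    rw [dd_apply, Prod.mk.injEq] at hy0
    refine ⟨y0 + ((c 0 - g y0) / g t) • t, ?_, ?_, ?_⟩
    · rw [bv_add_right, bv_smul_right, ht.1, hy0.1]
      ring
    · rw [bv_add_right, bv_smul_right, ht.2, hy0.2]
      ring
    · funext i
      have : i = 0 := Subsingleton.elim _ _
      subst this
      show g (y0 + ((c 0 - g y0) / g t) • t) = c 0
      rw [map_add, map_smul, smul_eq_mul, div_mul_cancel₀ _ hgt]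
      ring
  obtain ⟨δ', hδ', hpt⟩ := exists_pt aP' bP' L hL hδ
  obtain ⟨R, hR1, hR2, hR3, hR4⟩ := hpt (fun i => L P' i + δ' / 2) (fun i => by
    rw [add_sub_cancel_left, abs_of_pos (half_pos hδ')]
    exact half_lt_self hδ')
  have h2 := congrFun hR4 0
  have h3 : L R 0 = g R := rfl
  have h4 : L P' 0 = g P' := rfl
  rw [h3, h4, hg R hR1 hR2 hR3, hg P' (fun i => by rw [sub_self, abs_zero]; exact hδ) aP' bP'] at h2
  linarith

/-- Proof. Suppose `bv A P R = bv B P R = 0` for all `R` of `X` near `P'`. (1) `bv A P` and `bv B P`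
are combinations of `bv A P'` and `bv B P'`: otherwise `exists_pt` at `P'` with `L = bv A P` (or
`bv B P`) gives `R` near `P'` with `bv A P R ≠ 0`. Both pairs are independent (smoothness), so they
span the same plane and have the same kernel `T` of dimension `n - 2`. (2) Let `L` be a linear map to
`ℝ^(n-2)` which is injective on `T`; `exists_pt`: for `t ∈ T` near `P'` there is `R` on `X` near `P'`
with `L R = L t`, and `R ∈ T`, so `R = t`. (3) So `A = B = 0` on `T` near `P'`, hence on `T`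
(`P' ∈ T`), against `Tq.no_sub`, or the rank of `A` by `rad_le`. -/
theorem exists_ne (hn : 6 ≤ n) (hs : Sm ℂ A B) {P P' : Fin n → ℝ} (hP : P ≠ 0) (hP' : P' ≠ 0)
    (aP : qv A P = 0) (bP : qv B P = 0) (aP' : qv A P' = 0) (bP' : qv B P' = 0) {δ : ℝ}
    (hδ : 0 < δ) : ∃ R : Fin n → ℝ, (∀ i, |R i - P' i| < δ) ∧ qv A R = 0 ∧ qv B R = 0 ∧
      (bv A P R ≠ 0 ∨ bv B P R ≠ 0) := by
  by_contra hcon
  push Not at hcon
  have hi : ∀ a b : ℝ, (∀ y : Fin n → ℝ, a * bv A P y + b * bv B P y = 0) → a = 0 ∧ b = 0 :=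
    fun a b h => sm_real hs hP aP bP h
  have hi' : ∀ a b : ℝ, (∀ y : Fin n → ℝ, a * bv A P' y + b * bv B P' y = 0) → a = 0 ∧ b = 0 :=
    fun a b h => sm_real hs hP' aP' bP' h
  have h1 : LinearMap.ker (dd A B P') ≤ LinearMap.ker (bvl A P) :=
    van_T aP' bP' hi' hδ _ fun R hR1 hR2 hR3 => (hcon R hR1 hR2 hR3).1
  have h2 : LinearMap.ker (dd A B P') ≤ LinearMap.ker (bvl B P) :=
    van_T aP' bP' hi' hδ _ fun R hR1 hR2 hR3 => (hcon R hR1 hR2 hR3).2
  have h3 : LinearMap.ker (dd A B P') ≤ LinearMap.ker (dd A B P) := by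
    intro t ht
    rw [LinearMap.mem_ker, dd_apply, Prod.mk_eq_zero]
    exact ⟨h1 ht, h2 ht⟩
  have h4 : LinearMap.ker (dd A B P') = LinearMap.ker (dd A B P) := by
    refine Submodule.eq_of_le_of_finrank_eq h3 ?_
    have e1 := dd_rank hi
    have e2 := dd_rank hi'
    omega
  -- a linear map which is injective on the tangent space
  obtain ⟨pr, hpr⟩ := LinearMap.exists_leftInverse_of_injective
    (LinearMap.ker (dd A B P')).subtype (Submodule.ker_subtype _)
  let e : LinearMap.ker (dd A B P') ≃ₗ[ℝ]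
      (Fin (Module.finrank ℝ (LinearMap.ker (dd A B P'))) → ℝ) :=
    (Module.finBasis ℝ (LinearMap.ker (dd A B P'))).equivFun
  let L : (Fin n → ℝ) →ₗ[ℝ] (Fin (Module.finrank ℝ (LinearMap.ker (dd A B P'))) → ℝ) :=
    (e : LinearMap.ker (dd A B P') →ₗ[ℝ] _) ∘ₗ pr
  have hLT : ∀ t : LinearMap.ker (dd A B P'), L (t : Fin n → ℝ) = e t := by
    intro t
    have : pr (t : Fin n → ℝ) = t := LinearMap.congr_fun hpr t
    show e (pr (t : Fin n → ℝ)) = e t
    rw [this]
  have hL : ∀ (a b : ℝ) (c : Fin (Module.finrank ℝ (LinearMap.ker (dd A B P'))) → ℝ),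
      ∃ y : Fin n → ℝ, bv A P' y = a ∧ bv B P' y = b ∧ L y = c := by
    intro a b c
    have h1 : ((a, b) : ℝ × ℝ) ∈ LinearMap.range (dd A B P') := by
      rw [dd_surj hi']
      trivial
    obtain ⟨y0, hy0⟩ := h1
    rw [dd_apply, Prod.mk.injEq] at hy0
    obtain ⟨t, ht⟩ := e.surjective (c - L y0)
    have htk : dd A B P' (t : Fin n → ℝ) = 0 := t.2
    rw [dd_apply, Prod.mk_eq_zero] at htk
    refine ⟨y0 + t, ?_, ?_, ?_⟩
    · rw [bv_add_right, htk.1, hy0.1, add_zero]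
    · rw [bv_add_right, htk.2, hy0.2, add_zero]
    · rw [map_add, hLT, ht]
      abel
  obtain ⟨δ', hδ', hpt⟩ := exists_pt aP' bP' L hL hδ
  -- the forms vanish on the tangent space
  have hvan : ∀ t ∈ LinearMap.ker (dd A B P'), qv A t = 0 := by
    intro t ht
    have htk : dd A B P' t = 0 := ht
    rw [dd_apply, Prod.mk_eq_zero] at htk
    have hPk : P' ∈ LinearMap.ker (dd A B P') := by
      rw [LinearMap.mem_ker, dd_apply, bv_self, bv_self, aP', bP', mul_zero]
      rfl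
    obtain ⟨M, hM⟩ : ∃ M : ℝ, ∀ i, |L t i| ≤ M :=
      ⟨∑ i, |L t i|, fun i => Finset.single_le_sum (f := fun i => |L t i|)
        (fun i _ => abs_nonneg _) (Finset.mem_univ i)⟩
    have hM' : 0 < |M| + 1 := by positivity
    let ε : ℝ := δ' / (|M| + 1)
    have hε : 0 < ε := div_pos hδ' hM'
    obtain ⟨R, hR1, hR2, hR3, hR4⟩ := hpt (L (P' + ε • t)) (fun i => by
      rw [map_add, map_smul, Pi.add_apply, add_sub_cancel_left, Pi.smul_apply, smul_eq_mul, abs_mul,
        abs_of_pos hε]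
      calc ε * |L t i| ≤ ε * |M| := by
            exact mul_le_mul_of_nonneg_left ((hM i).trans (le_abs_self M)) hε.le
        _ < ε * (|M| + 1) := by
            exact mul_lt_mul_of_pos_left (lt_add_one _) hε
        _ = δ' := div_mul_cancel₀ _ hM'.ne')
    have hRk : R ∈ LinearMap.ker (dd A B P') := by
      rw [h4, LinearMap.mem_ker, dd_apply, Prod.mk_eq_zero]
      exact hcon R hR1 hR2 hR3
    have hQk : P' + ε • t ∈ LinearMap.ker (dd A B P') :=
      Submodule.add_mem _ hPk (Submodule.smul_mem _ _ ht)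
    have h5 : R = P' + ε • t := by
      have e1 := hLT ⟨R, hRk⟩
      have e2 := hLT ⟨P' + ε • t, hQk⟩
      have e3 : e ⟨R, hRk⟩ = e ⟨P' + ε • t, hQk⟩ := by
        rw [← e1, ← e2]
        exact hR4
      exact congrArg Subtype.val (e.injective e3)
    rw [h5, qv_add, qv_smul, bv_smul_right, aP', htk.1] at hR2
    have h6 : ε ^ 2 * qv A t = 0 := by linear_combination hR2
    exact (mul_eq_zero.1 h6).resolve_left (pow_ne_zero 2 hε.ne')
  obtain ⟨y, hy, hne⟩ := no_sub hs (Algebra.ofId ℝ ℂ) hn (LinearMap.ker (dd A B P'))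
    (dd_rank hi').ge (a := (1 : ℝ)) (b := 0) (Or.inl one_ne_zero)
  apply hne
  rw [hvan y hy]
  ring

end Ts
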