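import Pool.Agent.Lib.MP_f80667_ag.Tq.Norm
import Pool.Agent.Lib.MP_f80667_ag.Ts.Dens

/-! Lines through a given point on a member of the pencil, near given real lines. -/

namespace Ts

open ZC Tq

/-- `p`, `z` and the columns of `C` span the space. -/
theorem decomp {F : Type*} [Field F] {n : ℕ} (hn : 2 ≤ n) {C : Matrix (Fin n) (Fin (n - 2)) F}
    {g p : Fin n → F} {G : Matrix (Fin (n - 2)) (Fin n) F} (ℓ : (Fin n → F) →ₗ[F] F)
    (hC : ∀ j, ℓ (fun i => C i j) = 0) (hp : ℓ p = 0) (hgp : ∑ i, g i * p i = 1)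
    (hgC : ∀ j, ∑ i, g i * C i j = 0) (hGp : ∀ a, ∑ i, G a i * p i = 0)
    (hGC : ∀ a j, ∑ i, G a i * C i j = if a = j then 1 else 0) {z : Fin n → F} (hz : ℓ z ≠ 0)
    (x : Fin n → F) : ∃ (a b : F) (y : Fin (n - 2) → F),
      x = a • p + b • z + (fun i => ∑ j, C i j * y j) ∧ b * ℓ z = ℓ x := by
  have hcol : ∀ y : Fin (n - 2) → F, (fun i => ∑ j, C i j * y j) = ∑ j, y j • (fun i => C i j) := by
    intro y
    funext i
    rw [Finset.sum_apply]
    exact Finset.sum_congr rfl fun j _ => by rw [Pi.smul_apply, smul_eq_mul, mul_comm]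
  have hℓC : ∀ y : Fin (n - 2) → F, ℓ (fun i => ∑ j, C i j * y j) = 0 := by
    intro y
    rw [hcol, map_sum]
    exact Finset.sum_eq_zero fun j _ => by rw [map_smul, hC, smul_zero]
  let L : (F × F × (Fin (n - 2) → F)) →ₗ[F] (Fin n → F) :=
    { toFun := fun w => w.1 • p + w.2.1 • z + (fun i => ∑ j, C i j * w.2.2 j)
      map_add' := by
        intro w w'
        funext i
        simp only [Prod.fst_add, Prod.snd_add, Pi.add_apply, Pi.smul_apply, smul_eq_mul, mul_add,
          Finset.sum_add_distrib]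
        ring
      map_smul' := by
        intro c w
        funext i
        simp only [Prod.smul_fst, Prod.smul_snd, Pi.add_apply, Pi.smul_apply, smul_eq_mul,
          RingHom.id_apply, mul_add, Finset.mul_sum]
        congr 1
        · ring
        · exact Finset.sum_congr rfl fun j _ => by ring }
  have hL : ∀ w, L w = w.1 • p + w.2.1 • z + (fun i => ∑ j, C i j * w.2.2 j) := fun _ => rfl
  have hℓL : ∀ w, ℓ (L w) = w.2.1 * ℓ z := by
    intro w
    rw [hL, map_add, map_add, map_smul, map_smul, hp, hℓC, smul_zero, zero_add, add_zero,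
      smul_eq_mul]
  have hinj : Function.Injective L := by
    rw [injective_iff_map_eq_zero]
    rintro ⟨a, b, y⟩ hw
    have h1 : b * ℓ z = 0 := by
      rw [← hℓL (a, b, y), hw, map_zero]
    have hb : b = 0 := (mul_eq_zero.1 h1).resolve_right hz
    subst hb
    have h2 : ∀ i, a * p i + ∑ j, C i j * y j = 0 := by
      intro i
      have := congrFun hw i
      rw [hL] at this
      simpa using this
    have h3 : ∀ γ : Fin n → F, a * (∑ i, γ i * p i) + ∑ j, (∑ i, γ i * C i j) * y j = 0 := by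
      intro γ
      have h4 : ∑ i, γ i * (a * p i + ∑ j, C i j * y j) = 0 :=
        Finset.sum_eq_zero fun i _ => by rw [h2, mul_zero]
      rw [← h4]
      simp only [mul_add, Finset.sum_add_distrib, Finset.mul_sum, Finset.sum_mul]
      congr 1
      · exact Finset.sum_congr rfl fun i _ => by ring
      · rw [Finset.sum_comm]
        exact Finset.sum_congr rfl fun i _ => Finset.sum_congr rfl fun j _ => by ring
    have ha : a = 0 := by
      have h4 := h3 g
      simpa [hgp, hgC] using h4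
    have hy : y = 0 := by
      funext c
      have h4 := h3 (fun i => G c i)
      rw [ha, zero_mul, zero_add] at h4
      simpa [hGC] using h4
    rw [ha, hy]
    rfl
  have hfr : Module.finrank F (F × F × (Fin (n - 2) → F)) = Module.finrank F (Fin n → F) := by
    simp
    omega
  have hsurj := (LinearMap.injective_iff_surjective_of_finrank_eq_finrank hfr).1 hinj
  obtain ⟨⟨a, b, y⟩, hw⟩ := hsurj x
  refine ⟨a, b, y, hw.symm, ?_⟩
  rw [← hℓL (a, b, y), hw]

theorem Qp_conj {F : Type*} [Field F] {n m : ℕ} (A B : Matrix (Fin n) (Fin n) F)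
    (C : Matrix (Fin n) (Fin m) F) (p : Fin n → F) (y : Fin m → F) :
    qv (qv B p • (C.transpose * A * C) - qv A p • (C.transpose * B * C)) y =
      Qp A B p (fun i => ∑ j, C i j * y j) := by
  have hx : (fun i => ∑ j, C i j * y j) = C.mulVec y := rfl
  have hmap : ∀ {a b : ℕ} (M : Matrix (Fin a) (Fin b) F), M.map (algebraMap F F) = M := by
    intro a b M
    ext i j
    rfl
  rw [hx, Qp, qv_eq_dot, qv_eq_dot A (C.mulVec y), qv_eq_dot B (C.mulVec y), hmap, hmap, hmap,
    dot_conj, dot_conj, Matrix.sub_mulVec, Matrix.smul_mulVec, Matrix.smul_mulVec, dotProduct_sub,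
    dotProduct_smul, dotProduct_smul, smul_eq_mul, smul_eq_mul]

theorem Bp_of_Qp {F : Type*} [Field F] {n : ℕ} (A B : Matrix (Fin n) (Fin n) F)
    (p x y : Fin n → F) : Bp A B p x y = Qp A B p (x + y) - Qp A B p x - Qp A B p y := by
  rw [Qp, Qp, Qp, Bp, qv_add, qv_add]
  ring

theorem Bp_conj {F : Type*} [Field F] {n m : ℕ} (A B : Matrix (Fin n) (Fin n) F)
    (C : Matrix (Fin n) (Fin m) F) (p : Fin n → F) (y y' : Fin m → F) :
    bv (qv B p • (C.transpose * A * C) - qv A p • (C.transpose * B * C)) y y' =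
      Bp A B p (fun i => ∑ j, C i j * y j) (fun i => ∑ j, C i j * y' j) := by
  have h1 := qv_add (qv B p • (C.transpose * A * C) - qv A p • (C.transpose * B * C)) y y'
  rw [Qp_conj, Qp_conj, Qp_conj] at h1
  have h2 : (fun i => ∑ j, C i j * (y + y') j) =
      (fun i => ∑ j, C i j * y j) + (fun i => ∑ j, C i j * y' j) := by
    funext i
    simp only [Pi.add_apply, mul_add, Finset.sum_add_distrib]
  rw [h2] at h1
  rw [Bp_of_Qp, h1]
  ring

/-- Proof: `p ^ ⊥ = K p ⊕ C (K^(n-2))` for a matrix `C`; the form `y ↦ Qp A B p (C y)` in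
`n - 2 ≥ 5` variables is nondegenerate; the real vector `x φ` is `a φ • p + C (y φ)` with
`y φ ≠ 0`; `dens`. -/
theorem exists_x {K : Type} [Field K] [NumberField K] {n : ℕ} (hn : 7 ≤ n)
    {A B : Matrix (Fin n) (Fin n) K} {p : Fin n → K} (hp0 : p ≠ 0)
    (hp : ∀ x : Fin n → K, x ≠ 0 → ∃ y : Fin n → K, Bp A B p x y ≠ 0)
    (x : (K →+* ℝ) → Fin n → ℝ) (hx : ∀ φ : K →+* ℝ, LinearIndependent ℝ ![fun i => φ (p i), x φ])
    (hq : ∀ φ : K →+* ℝ, Qp (A.map φ) (B.map φ) (fun i => φ (p i)) (x φ) = 0)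
    (hb : ∀ φ : K →+* ℝ,
      Bp (A.map φ) (B.map φ) (fun i => φ (p i)) (fun i => φ (p i)) (x φ) = 0)
    {δ : ℝ} (hδ : 0 < δ) :
    ∃ y : Fin n → K, Qp A B p y = 0 ∧ Bp A B p p y = 0 ∧ ∀ φ i, |φ (y i) - x φ i| < δ := by
  classical
  have hfin : Finite (K →+* ℝ) := by
    refine Finite.of_injective (fun φ : K →+* ℝ => (Complex.ofRealHom.comp φ : K →+* ℂ)) ?_
    intro φ ψ h
    ext a
    have := congrArg (fun f : K →+* ℂ => (f a).re) h
    simpa using this
  let ℓ : (Fin n → K) →ₗ[K] K :=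
    { toFun := fun x => Bp A B p p x
      map_add' := fun x y => Bp_add p p x y
      map_smul' := fun c x => Bp_smul p p x c }
  have hℓ : ∀ x, ℓ x = Bp A B p p x := fun _ => rfl
  have hℓp : ℓ p = 0 := by
    rw [hℓ, Bp_self, Qp_self, mul_zero]
  obtain ⟨C, g, G, hC, hgp, hgC, hGp, hGC⟩ := frame_mat (by omega : 2 ≤ n) hp0 ℓ hℓp
  obtain ⟨z, hz⟩ := hp p hp0
  have hdec := decomp (by omega : 2 ≤ n) ℓ hC hℓp hgp hgC hGp hGC (z := z) hz
  set Φ : Matrix (Fin (n - 2)) (Fin (n - 2)) K :=
    qv B p • (C.transpose * A * C) - qv A p • (C.transpose * B * C) with hΦ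
  have hcol : ∀ y : Fin (n - 2) → K, ℓ (fun i => ∑ j, C i j * y j) = 0 := by
    intro y
    have h1 : (fun i => ∑ j, C i j * y j) = ∑ j, y j • (fun i => C i j) := by
      funext i
      rw [Finset.sum_apply]
      exact Finset.sum_congr rfl fun j _ => by rw [Pi.smul_apply, smul_eq_mul, mul_comm]
    rw [h1, map_sum]
    exact Finset.sum_eq_zero fun j _ => by rw [map_smul, hC, smul_zero]
  -- the form is nondegenerate
  have hnd : ∀ y : Fin (n - 2) → K, y ≠ 0 → ∃ y' : Fin (n - 2) → K, bv Φ y y' ≠ 0 := by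
    intro y hy
    by_contra hcon
    push Not at hcon
    set v : Fin n → K := fun i => ∑ j, C i j * y j with hv
    have hpz : Bp A B p p z ≠ 0 := hz
    have hpv : Bp A B p p v = 0 := hcol y
    set c : K := Bp A B p v z / Bp A B p p z with hc
    have hv' : ∀ w : Fin n → K, Bp A B p (v + (-c) • p) w = Bp A B p v w - c * Bp A B p p w := by
      intro w
      rw [Bp_comm, Bp_add, Bp_smul, Bp_comm p w v, Bp_comm p w p]
      ring
    have hall : ∀ w : Fin n → K, Bp A B p (v + (-c) • p) w = 0 := by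
      intro w
      obtain ⟨a, b, y', hw, -⟩ := hdec w
      rw [hw, Bp_add, Bp_add, Bp_smul, Bp_smul, hv' p, hv' z, hv' _, Bp_comm p v p, hpv]
      have h1 : Bp A B p p p = 0 := hℓp
      have h2 : Bp A B p p (fun i => ∑ j, C i j * y' j) = 0 := hcol y'
      have h3 : Bp A B p v (fun i => ∑ j, C i j * y' j) = 0 := by
        rw [hv, ← Bp_conj, ← hΦ]
        exact hcon y'
      rw [h1, h2, h3, hc, div_mul_cancel₀ _ hpz]
      ring
    have h0 : v + (-c) • p = 0 := by
      by_contra hne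
      obtain ⟨w, hw⟩ := hp _ hne
      exact hw (hall w)
    apply hy
    funext a
    have h1 : ∑ i, G a i * (v + (-c) • p) i = 0 := by
      rw [h0]
      simp
    have h2 : ∑ i, G a i * (v + (-c) • p) i = ∑ i, G a i * v i + (-c) * ∑ i, G a i * p i := by
      rw [Finset.mul_sum, ← Finset.sum_add_distrib]
      exact Finset.sum_congr rfl fun i _ => by
        rw [Pi.add_apply, Pi.smul_apply, smul_eq_mul]
        ring
    have h3 : ∑ i, G a i * v i = y a := by
      simp only [hv, Finset.mul_sum]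
      rw [Finset.sum_comm]
      have : ∀ j, ∑ i, G a i * (C i j * y j) = (if a = j then 1 else 0) * y j := by
        intro j
        rw [← hGC, Finset.sum_mul]
        exact Finset.sum_congr rfl fun i _ => by ring
      simp only [this]
      simp
    rw [h2, h3, hGp, mul_zero, add_zero] at h1
    exact h1
  -- the real points
  have hreal : ∀ φ : K →+* ℝ, ∃ (a : ℝ) (r : Fin (n - 2) → ℝ),
      x φ = a • (fun i => φ (p i)) + (fun i => ∑ j, φ (C i j) * r j) := by
    intro φ
    let ℓφ : (Fin n → ℝ) →ₗ[ℝ] ℝ :=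
      { toFun := fun x => Bp (A.map φ) (B.map φ) (fun i => φ (p i)) (fun i => φ (p i)) x
        map_add' := fun x y => Bp_add _ _ x y
        map_smul' := fun c x => Bp_smul _ _ x c }
    have hℓφ : ∀ w : Fin n → K, ℓφ (fun i => φ (w i)) = φ (ℓ w) := fun w => mBp φ A B p p w
    obtain ⟨a, b, r, hr, hbz⟩ := decomp (by omega : 2 ≤ n) (C := C.map φ)
      (g := fun i => φ (g i)) (p := fun i => φ (p i)) (G := G.map φ) ℓφ
      (by
        intro j
        have h1 := hℓφ (fun i => C i j)
        rw [hC, map_zero] at h1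
        exact h1)
      (by rw [hℓφ, hℓp, map_zero])
      (by
        have h1 := congrArg φ hgp
        simpa [map_sum, map_mul] using h1)
      (by
        intro j
        have h1 := congrArg φ (hgC j)
        simpa [map_sum, map_mul] using h1)
      (by
        intro a
        have h1 := congrArg φ (hGp a)
        simpa [map_sum, map_mul] using h1)
      (by
        intro a j
        have h1 := congrArg φ (hGC a j)
        rw [map_sum] at h1
        simp only [map_mul] at h1
        simp only [Matrix.map_apply]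
        rw [h1]
        split_ifs <;> simp)
      (z := fun i => φ (z i))
      (by
        rw [hℓφ]
        intro h
        exact hz ((map_eq_zero φ).1 h)) (x φ)
    have hb0 : b = 0 := by
      have h1 : ℓφ (x φ) = 0 := hb φ
      rw [h1] at hbz
      refine (mul_eq_zero.1 hbz).resolve_right ?_
      rw [hℓφ]
      intro h
      exact hz ((map_eq_zero φ).1 h)
    refine ⟨a, r, ?_⟩
    rw [hb0, zero_smul, add_zero] at hr
    exact hr
  choose a r har using hreal
  have hr0 : ∀ φ, r φ ≠ 0 := by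
    intro φ h0
    have h1 := hx φ
    rw [LinearIndependent.pair_iff] at h1
    have h2 := h1 (a φ) (-1) (by
      rw [har φ, h0]
      funext i
      simp)
    exact (neg_ne_zero.2 one_ne_zero) h2.2
  have hrz : ∀ φ : K →+* ℝ, qv (Φ.map φ) (r φ) = 0 := by
    intro φ
    have h1 : Φ.map φ = qv (B.map φ) (fun i => φ (p i)) • ((C.map φ).transpose * (A.map φ) *
        (C.map φ)) - qv (A.map φ) (fun i => φ (p i)) •
        ((C.map φ).transpose * (B.map φ) * (C.map φ)) := by
      rw [hΦ, Matrix.map_sub _ (map_sub φ), ← Matrix.transpose_map, ← Matrix.map_mul,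
        ← Matrix.map_mul, ← Matrix.map_mul, ← Matrix.map_mul, mqv, mqv]
      congr 1 <;>
      · ext i j
        simp only [Matrix.map_apply, Matrix.smul_apply, smul_eq_mul, map_mul]
    rw [h1, Qp_conj]
    have h2 : (fun i => ∑ j, (C.map φ) i j * r φ j) = (-(a φ)) • (fun i => φ (p i)) +
        (1 : ℝ) • x φ := by
      rw [har φ]
      funext i
      simp only [Pi.add_apply, Pi.smul_apply, smul_eq_mul, Matrix.map_apply]
      ring
    rw [h2, Qp_lin, Qp_self, hq φ, hb φ]
    ring
  -- a bound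
  obtain ⟨M, hM0, hM⟩ : ∃ M : ℝ, 0 < M ∧ ∀ (φ : K →+* ℝ) (i : Fin n),
      |φ (p i)| + ∑ j, |φ (C i j)| < M := by
    have : Fintype (K →+* ℝ) := Fintype.ofFinite _
    refine ⟨∑ φ : K →+* ℝ, ∑ i, (|φ (p i)| + ∑ j, |φ (C i j)|) + 1, ?_, ?_⟩
    · have : 0 ≤ ∑ φ : K →+* ℝ, ∑ i, (|φ (p i)| + ∑ j, |φ (C i j)|) :=
        Finset.sum_nonneg fun φ _ => Finset.sum_nonneg fun i _ =>
          add_nonneg (abs_nonneg _) (Finset.sum_nonneg fun j _ => abs_nonneg _)
      linarith
    · intro φ i
      have hnn : ∀ (φ : K →+* ℝ) (i : Fin n), 0 ≤ |φ (p i)| + ∑ j, |φ (C i j)| := fun φ i =>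
        add_nonneg (abs_nonneg _) (Finset.sum_nonneg fun j _ => abs_nonneg _)
      have h1 : |φ (p i)| + ∑ j, |φ (C i j)| ≤ ∑ i, (|φ (p i)| + ∑ j, |φ (C i j)|) :=
        Finset.single_le_sum (f := fun i => |φ (p i)| + ∑ j, |φ (C i j)|)
          (fun i _ => hnn φ i) (Finset.mem_univ i)
      have h2 : ∑ i, (|φ (p i)| + ∑ j, |φ (C i j)|) ≤
          ∑ φ : K →+* ℝ, ∑ i, (|φ (p i)| + ∑ j, |φ (C i j)|) :=
        Finset.single_le_sum (f := fun φ : K →+* ℝ => ∑ i, (|φ (p i)| + ∑ j, |φ (C i j)|))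
          (fun φ _ => Finset.sum_nonneg fun i _ => hnn φ i) (Finset.mem_univ φ)
      linarith
  have hε : 0 < δ / M := div_pos hδ hM0
  obtain ⟨y, hy0, hy⟩ := dens (by omega : 4 < n - 2) Φ hnd r hr0 hrz hε
  obtain ⟨α, hα⟩ := wap (n := 1) (fun φ _ => a φ) hε
  refine ⟨α 0 • p + (1 : K) • (fun i => ∑ j, C i j * y j), ?_, ?_, ?_⟩
  · rw [Qp_lin, Qp_self, ← Qp_conj, ← hΦ, hy0]
    have h1 : Bp A B p p (fun i => ∑ j, C i j * y j) = 0 := hcol y
    rw [h1]
    ring
  · rw [Bp_add, Bp_smul, Bp_smul]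
    have h1 : Bp A B p p (fun i => ∑ j, C i j * y j) = 0 := hcol y
    have h2 : Bp A B p p p = 0 := hℓp
    rw [h1, h2]
    ring
  · intro φ i
    have h1 : φ ((α 0 • p + (1 : K) • (fun i => ∑ j, C i j * y j)) i) - x φ i =
        (φ (α 0) - a φ) * φ (p i) + ∑ j, φ (C i j) * (φ (y j) - r φ j) := by
      rw [har φ]
      simp only [Pi.add_apply, Pi.smul_apply, smul_eq_mul, map_add, map_mul, map_sum, one_mul,
        mul_sub, Finset.sum_sub_distrib, map_one]
      ring
    rw [h1]
    have h2 : |(φ (α 0) - a φ) * φ (p i) + ∑ j, φ (C i j) * (φ (y j) - r φ j)| ≤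
        δ / M * |φ (p i)| + ∑ j, |φ (C i j)| * (δ / M) := by
      refine (abs_add_le _ _).trans (add_le_add ?_ ?_)
      · rw [abs_mul]
        exact mul_le_mul_of_nonneg_right (hα φ 0).le (abs_nonneg _)
      · refine (Finset.abs_sum_le_sum_abs _ _).trans (Finset.sum_le_sum fun j _ => ?_)
        rw [abs_mul]
        exact mul_le_mul_of_nonneg_left (hy φ j).le (abs_nonneg _)
    refine lt_of_le_of_lt h2 ?_
    rw [← Finset.sum_mul]
    have h3 : δ / M * |φ (p i)| + (∑ j, |φ (C i j)|) * (δ / M) =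
        (δ / M) * (|φ (p i)| + ∑ j, |φ (C i j)|) := by ring
    rw [h3]
    calc (δ / M) * (|φ (p i)| + ∑ j, |φ (C i j)|) < (δ / M) * M :=
          mul_lt_mul_of_pos_left (hM φ i) hε
      _ = δ := div_mul_cancel₀ δ hM0.ne'

end Ts
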