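import Pool.Agent.Lib.MP_f80667_ag.Ts.Defs

/-! The lines on the members of a real pencil of quadrics: openness near a good pair of points. -/

namespace Ts

open ZC Tq

/-- The map of which the openness is used. -/
private noncomputable def Fop {n : ℕ} (A B : Matrix (Fin n) (Fin n) ℝ)
    (q : (Fin n → ℝ) × (Fin n → ℝ)) : (Fin n → ℝ) × (ℝ × ℝ) :=
  (q.1, Qp A B q.1 q.2, Bp A B q.1 q.1 q.2)

private theorem Fop_smooth {n : ℕ} (A B : Matrix (Fin n) (Fin n) ℝ) :
    ContDiff ℝ 1 (Fop A B) := by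
  unfold Fop Qp Bp qv bv
  fun_prop

/-- Two independent functionals take arbitrary values. -/
private theorem two_vals {V : Type*} (f g : V → ℝ) (smul : ℝ → V → V) (add : V → V → V)
    (fs : ∀ c y, f (smul c y) = c * f y) (gs : ∀ c y, g (smul c y) = c * g y)
    (fa : ∀ x y, f (add x y) = f x + f y) (ga : ∀ x y, g (add x y) = g x + g y)
    (ind : ∀ a b : ℝ, (∀ y, a * f y + b * g y = 0) → a = 0 ∧ b = 0) (s t : ℝ) :
    ∃ y, f y = s ∧ g y = t := by
  have h1 : ∃ y, g y ≠ 0 := by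
    by_contra hcon
    push Not at hcon
    have := (ind 0 1 fun y => by rw [hcon y]; ring).2
    exact one_ne_zero this
  obtain ⟨y₂, h2⟩ := h1
  have h3 : ∃ y, f y - f y₂ / g y₂ * g y ≠ 0 := by
    by_contra hcon
    push Not at hcon
    have := (ind 1 (-(f y₂ / g y₂)) fun y => by linear_combination hcon y).1
    exact one_ne_zero this
  obtain ⟨y₁, h4⟩ := h3
  set D := f y₁ - f y₂ / g y₂ * g y₁ with hD
  -- `y = a y₁ + b y₂`
  set a := (s - f y₂ / g y₂ * t) / D with ha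
  set b := (t - a * g y₁) / g y₂ with hb
  refine ⟨add (smul a y₁) (smul b y₂), ?_, ?_⟩
  · rw [fa, fs, fs]
    have e1 : a * D = s - f y₂ / g y₂ * t := by rw [ha]; field_simp
    have e2 : b * g y₂ = t - a * g y₁ := by rw [hb]; field_simp
    have e3 : b * f y₂ = f y₂ / g y₂ * (b * g y₂) := by field_simp
    rw [e3, e2]
    rw [hD] at e1
    linear_combination e1
  · rw [ga, gs, gs]
    have e2 : b * g y₂ = t - a * g y₁ := by rw [hb]; field_simp
    linear_combination e2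

/-- Proof: the derivative of `(p, x) ↦ (p, Qp A B p x, Bp A B p p x)` at `(P + R, R)` is onto since
`y ↦ Bp A B (P + R) R y` and `y ↦ Bp A B (P + R) (P + R) y` are independent;
`HasStrictFDerivAt.map_nhds_eq_of_surj`. -/
theorem open_line {n : ℕ} {A B : Matrix (Fin n) (Fin n) ℝ} {P R : Fin n → ℝ} (h : Gd A B P R)
    {δ : ℝ} (hδ : 0 < δ) : ∃ δ' > 0, ∀ p : Fin n → ℝ, (∀ i, |p i - (P i + R i)| < δ') →
      ∃ x : Fin n → ℝ, (∀ i, |x i - R i| < δ) ∧ Qp A B p x = 0 ∧ Bp A B p p x = 0 := by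
  set p₀ := P + R with hp0
  have hs : HasStrictFDerivAt (Fop A B) (fderiv ℝ (Fop A B) (p₀, R)) (p₀, R) :=
    (Fop_smooth A B).contDiffAt.hasStrictFDerivAt one_ne_zero
  set F' := fderiv ℝ (Fop A B) (p₀, R) with hF'
  -- the values at the point
  have hR0 : Qp A B p₀ R = 0 := by
    rw [Qp, h.aR, h.bR]
    ring
  have hPR : Bp A B p₀ P R = 0 := by
    rw [Bp, hp0, h.qA, h.qB]
    ring
  have hRR : Bp A B p₀ R R = 0 := by rw [Bp_self, hR0, mul_zero]
  have hadd : ∀ y, Bp A B p₀ p₀ y = Bp A B p₀ P y + Bp A B p₀ R y := by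
    intro y
    rw [Bp_comm p₀ p₀ y, hp0, Bp_add, Bp_comm _ y P, Bp_comm _ y R]
  have hF0 : Fop A B (p₀, R) = (p₀, 0, 0) := by
    unfold Fop
    simp only [hR0, hadd, hPR, hRR, add_zero]
  -- the derivative in the second direction
  have hd2 : ∀ y, F' (0, y) = (0, Bp A B p₀ R y, Bp A B p₀ p₀ y) := by
    intro y
    have h1 := hs.hasFDerivAt.hasLineDerivAt (0, y)
    have h2 : HasDerivAt (fun t : ℝ => Fop A B ((p₀, R) + t • (0, y)))
        (0, Bp A B p₀ R y, Bp A B p₀ p₀ y) 0 := by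
      have e : (fun t : ℝ => Fop A B ((p₀, R) + t • (0, y))) = fun t =>
          (p₀, t * Bp A B p₀ R y + t ^ 2 * Qp A B p₀ y, t * Bp A B p₀ p₀ y) := by
        funext t
        have e1 : (p₀, R) + t • ((0 : Fin n → ℝ), y) = (p₀, (1 : ℝ) • R + t • y) := by
          simp
        rw [e1, Fop]
        simp only
        rw [Qp_lin, Bp_add, Bp_smul, Bp_smul, hR0]
        have e2 : Bp A B p₀ p₀ R = 0 := by rw [hadd, hPR, hRR, add_zero]
        rw [e2]
        simp
      rw [e]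
      refine (hasDerivAt_const _ _).prodMk (HasDerivAt.prodMk ?_ ?_)
      · have := ((hasDerivAt_id (0 : ℝ)).mul_const (Bp A B p₀ R y)).fun_add
          (((hasDerivAt_id (0 : ℝ)).pow 2).mul_const (Qp A B p₀ y))
        simpa using this
      · have := (hasDerivAt_id (0 : ℝ)).mul_const (Bp A B p₀ p₀ y)
        simpa using this
    exact HasDerivAt.unique h1 h2
  have hd1 : ∀ v : (Fin n → ℝ) × (Fin n → ℝ), (F' v).1 = v.1 := by
    intro v
    have h1 : HasFDerivAt (fun q : (Fin n → ℝ) × (Fin n → ℝ) => q.1)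
        ((ContinuousLinearMap.fst ℝ (Fin n → ℝ) (ℝ × ℝ)).comp F') (p₀, R) :=
      hs.hasFDerivAt.fst
    have h2 := h1.unique hasFDerivAt_fst
    exact congrArg (fun L => L v) h2
  -- it is onto
  have hsurj : F'.range = ⊤ := by
    rw [LinearMap.range_eq_top]
    rintro ⟨u, s, t⟩
    obtain ⟨y, hy1, hy2⟩ := two_vals (fun y => Bp A B p₀ R y) (fun y => Bp A B p₀ p₀ y)
      (fun c y => c • y) (fun x y => x + y) (fun c y => Bp_smul _ _ _ c)
      (fun c y => Bp_smul _ _ _ c) (fun x y => Bp_add _ _ _ _) (fun x y => Bp_add _ _ _ _)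
      (fun a b hab => by
        have h1 := h.ind b (a + b) (fun y => by
          have := hab y
          simp only [hadd] at this
          linear_combination this)
        exact ⟨by linarith [h1.1, h1.2], h1.1⟩) (s - (F' (u, 0)).2.1) (t - (F' (u, 0)).2.2)
    refine ⟨(u, y), ?_⟩
    have e : (u, y) = (u, 0) + (0, y) := by simp
    change F' (u, y) = _
    rw [e, map_add, hd2, hy1, hy2]
    refine Prod.ext ?_ (Prod.ext ?_ ?_)
    · simp [hd1]
    · simp
    · simp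
  have hmap := hs.map_nhds_eq_of_surj hsurj
  rw [hF0] at hmap
  -- the neighbourhood
  have hU : {q : (Fin n → ℝ) × (Fin n → ℝ) | ∀ i, |q.2 i - R i| < δ} ∈ nhds (p₀, R) := by
    rw [Metric.mem_nhds_iff]
    refine ⟨δ, hδ, fun q hq i => ?_⟩
    rw [Metric.mem_ball, Prod.dist_eq, max_lt_iff, dist_pi_lt_iff hδ] at hq
    have := (dist_pi_lt_iff hδ).1 hq.2 i
    rwa [Real.dist_eq] at this
  have hV : Fop A B '' {q : (Fin n → ℝ) × (Fin n → ℝ) | ∀ i, |q.2 i - R i| < δ} ∈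
      nhds (p₀, (0 : ℝ), (0 : ℝ)) := by
    rw [← hmap]
    exact Filter.image_mem_map hU
  obtain ⟨ε, hε, hball⟩ := Metric.mem_nhds_iff.1 hV
  refine ⟨ε, hε, fun p hp => ?_⟩
  have hmem : ((p, (0 : ℝ), (0 : ℝ)) : (Fin n → ℝ) × (ℝ × ℝ)) ∈
      Metric.ball (p₀, (0 : ℝ), (0 : ℝ)) ε := by
    rw [Metric.mem_ball, Prod.dist_eq, max_lt_iff]
    refine ⟨(dist_pi_lt_iff hε).2 fun i => ?_, by simpa using hε⟩
    rw [Real.dist_eq]
    exact hp i
  obtain ⟨⟨p', x⟩, hx, hFx⟩ := hball hmem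
  rw [Fop, Prod.mk.injEq, Prod.mk.injEq] at hFx
  obtain ⟨h1, h2, h3⟩ := hFx
  simp only at h1 h2 h3
  subst h1
  exact ⟨x, hx, h2, h3⟩

end Ts
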