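import Pool.Agent.Lib.MP_f80667_ag.Ts.PNd
import Pool.Agent.Lib.MP_f80667_ag.Ts.LineA
import Pool.Agent.Lib.MP_f80667_ag.Ts.Op

/-! Lines over a number field on members of the pencil, near given real lines. -/

namespace Ts

open ZC Tq

/-- The points of a good pair are independent. -/
theorem Gd.indep {k : Type*} [Field k] {n : ℕ} {A B : Matrix (Fin n) (Fin n) k} {P R : Fin n → k}
    (h : Gd A B P R) : LinearIndependent k ![P + R, R] := by
  have hPR : ∀ c : k, P ≠ c • R := by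
    intro c hc
    have h1 : ∀ H : Matrix (Fin n) (Fin n) k, qv H R = 0 → bv H P R = 0 := by
      intro H hH
      rw [hc, bv_smul, bv_self, hH]
      ring
    exact h.ne.elim (fun h2 => h2 (h1 A h.aR)) (fun h2 => h2 (h1 B h.bR))
  rw [LinearIndependent.pair_iff]
  intro s t hst
  have hs : s = 0 := by
    by_contra hs
    apply hPR (s⁻¹ * -(s + t))
    have h2 : s • P = (-(s + t)) • R := by
      have h3 : s • P + (s + t) • R = 0 := by
        rw [← hst]
        module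
      rw [neg_smul]
      exact eq_neg_of_add_eq_zero_left h3
    rw [mul_smul, ← h2, smul_smul, inv_mul_cancel₀ hs, one_smul]
  refine ⟨hs, ?_⟩
  rw [hs, zero_smul, zero_add] at hst
  exact (smul_eq_zero.1 hst).resolve_right h.ne_R

/-- Two vectors with a minor which does not vanish are independent. -/
theorem indep_of_minor {k : Type*} [Field k] {n : ℕ} {p x : Fin n → k} {i j : Fin n}
    (h : p i * x j - p j * x i ≠ 0) : LinearIndependent k ![p, x] := by
  rw [LinearIndependent.pair_iff]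
  intro s t hst
  have h1 : s * p i + t * x i = 0 := by
    have h2 := congrFun hst i
    simpa only [Pi.add_apply, Pi.smul_apply, smul_eq_mul, Pi.zero_apply] using h2
  have h2 : s * p j + t * x j = 0 := by
    have h3 := congrFun hst j
    simpa only [Pi.add_apply, Pi.smul_apply, smul_eq_mul, Pi.zero_apply] using h3
  constructor
  · have h3 : s * (p i * x j - p j * x i) = 0 := by
      linear_combination x j * h1 - x i * h2
    exact (mul_eq_zero.1 h3).resolve_right h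
  · have h3 : t * (p i * x j - p j * x i) = 0 := by
      linear_combination p i * h2 - p j * h1
    exact (mul_eq_zero.1 h3).resolve_right h

/-- Independence of two real vectors is an open condition, seen on a minor. -/
theorem minor_near {n : ℕ} {p₀ x₀ : Fin n → ℝ} (h : LinearIndependent ℝ ![p₀, x₀]) :
    ∃ δ > 0, ∃ i j : Fin n, ∀ p x : Fin n → ℝ, (∀ i, |p i - p₀ i| < δ) →
      (∀ i, |x i - x₀ i| < δ) → p i * x j - p j * x i ≠ 0 := by
  obtain ⟨i, j, hij⟩ := exists_minor h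
  have hc : Continuous fun z : (Fin n → ℝ) × (Fin n → ℝ) =>
      z.1 i * z.2 j - z.1 j * z.2 i := by
    fun_prop
  have ho : IsOpen {z : (Fin n → ℝ) × (Fin n → ℝ) | z.1 i * z.2 j - z.1 j * z.2 i ≠ 0} :=
    isOpen_ne_fun hc continuous_const
  obtain ⟨δ, hδ, hball⟩ := Metric.isOpen_iff.1 ho (p₀, x₀) (sub_ne_zero.2 hij)
  refine ⟨δ, hδ, i, j, ?_⟩
  intro p x hp hx
  have hmem : (p, x) ∈ Metric.ball (p₀, x₀) δ := by
    rw [Metric.mem_ball, Prod.dist_eq, max_lt_iff]
    constructor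
    · rw [dist_pi_lt_iff hδ]
      intro l
      rw [Real.dist_eq]
      exact hp l
    · rw [dist_pi_lt_iff hδ]
      intro l
      rw [Real.dist_eq]
      exact hx l
  exact hball hmem

/-- There are finitely many real embeddings of a number field. -/
theorem finite_real (M : Type) [Field M] [NumberField M] : Finite (M →+* ℝ) := by
  refine Finite.of_injective (fun φ : M →+* ℝ => Complex.ofRealHom.comp φ) ?_
  intro φ ψ h
  ext z
  have h1 := RingHom.congr_fun h z
  have h2 : ((φ z : ℝ) : ℂ) = ((ψ z : ℝ) : ℂ) := h1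
  exact_mod_cast h2

/-- A positive lower bound of finitely many positive numbers. -/
theorem exists_lb {ι : Type*} [Finite ι] (f : ι → ℝ) (hf : ∀ i, 0 < f i) :
    ∃ δ > 0, ∀ i, δ ≤ f i := by
  classical
  rcases isEmpty_or_nonempty ι with h | h
  · exact ⟨1, one_pos, fun i => (h.false i).elim⟩
  · obtain ⟨i, hi⟩ := Finite.exists_min f
    exact ⟨f i, hf i, hi⟩

theorem exists_line {M : Type} [Field M] [NumberField M] (hne : Nonempty (M →+* ℝ)) {n : ℕ}
    (hn : 7 ≤ n) {A B : Matrix (Fin n) (Fin n) M} (hs : Sm (AlgebraicClosure M) A B)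
    (P R : (M →+* ℝ) → Fin n → ℝ) (hG : ∀ φ : M →+* ℝ, Gd (A.map φ) (B.map φ) (P φ) (R φ))
    {δ : ℝ} (hδ : 0 < δ) : ∃ p x : Fin n → M, Ln A B p x ∧ ¬ Zer (Pl A B) M p ∧
      ∀ φ i, |φ (p i) - (P φ i + R φ i)| < δ ∧ |φ (x i) - R φ i| < δ := by
  have := finite_real M
  -- independence near the given lines
  have h1 : ∀ φ : M →+* ℝ, ∃ δ₁ > 0, ∃ i j : Fin n, ∀ p x : Fin n → ℝ,
      (∀ i, |p i - (P φ + R φ) i| < δ₁) → (∀ i, |x i - R φ i| < δ₁) →
        p i * x j - p j * x i ≠ 0 := fun φ => minor_near (hG φ).indep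
  choose f1 hf1 ci cj hm using h1
  obtain ⟨δ₁, hδ₁, hle1⟩ := exists_lb f1 hf1
  set ε := min δ δ₁ with hε
  have hε0 : 0 < ε := lt_min hδ hδ₁
  have hεδ : ε ≤ δ := min_le_left _ _
  have hεδ₁ : ε ≤ δ₁ := min_le_right _ _
  -- openness
  have h2 : ∀ φ : M →+* ℝ, ∃ δ' > 0, ∀ p : Fin n → ℝ, (∀ i, |p i - (P φ i + R φ i)| < δ') →
      ∃ x : Fin n → ℝ, (∀ i, |x i - R φ i| < ε / 2) ∧ Qp (A.map φ) (B.map φ) p x = 0 ∧
        Bp (A.map φ) (B.map φ) p p x = 0 := fun φ => open_line (hG φ) (half_pos hε0)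
  choose f2 hf2 hop using h2
  obtain ⟨δ₂, hδ₂, hle2⟩ := exists_lb f2 hf2
  -- the point `p`
  obtain ⟨p, hp1, hp2, hp3⟩ := exists_p (by omega) hs (fun φ i => P φ i + R φ i)
    (lt_min hε0 hδ₂)
  have hpε : ∀ (φ : M →+* ℝ) (i : Fin n), |φ (p i) - (P φ i + R φ i)| < ε := fun φ i =>
    lt_of_lt_of_le (hp1 φ i) (min_le_left _ _)
  have h3 : ∀ φ : M →+* ℝ, ∃ x : Fin n → ℝ, (∀ i, |x i - R φ i| < ε / 2) ∧
      Qp (A.map φ) (B.map φ) (fun i => φ (p i)) x = 0 ∧
        Bp (A.map φ) (B.map φ) (fun i => φ (p i)) (fun i => φ (p i)) x = 0 := fun φ =>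
    hop φ (fun i => φ (p i)) fun i =>
      lt_of_lt_of_le (lt_of_lt_of_le (hp1 φ i) (min_le_right _ _)) (hle2 φ)
  choose x hx1 hx2 hx3 using h3
  -- independence
  have hmin : ∀ (φ : M →+* ℝ) (y : Fin n → ℝ), (∀ i, |y i - R φ i| < ε) →
      φ (p (ci φ)) * y (cj φ) - φ (p (cj φ)) * y (ci φ) ≠ 0 := by
    intro φ y hy
    refine hm φ (fun i => φ (p i)) y (fun i => ?_) (fun i => ?_)
    · exact lt_of_lt_of_le (lt_of_lt_of_le (hpε φ i) hεδ₁) (hle1 φ)
    · exact lt_of_lt_of_le (lt_of_lt_of_le (hy i) hεδ₁) (hle1 φ)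
  have hp0 : p ≠ 0 := by
    rintro rfl
    obtain ⟨φ⟩ := hne
    apply hmin φ (R φ) (fun i => by
      rw [sub_self, abs_zero]
      exact hε0)
    simp only [Pi.zero_apply, map_zero]
    ring
  have hind : ∀ φ : M →+* ℝ, LinearIndependent ℝ ![fun i => φ (p i), x φ] := by
    intro φ
    refine indep_of_minor (i := ci φ) (j := cj φ) (hmin φ (x φ) fun i => ?_)
    exact lt_trans (hx1 φ i) (half_lt_self hε0)
  obtain ⟨y, hy1, hy2, hy3⟩ := exists_x hn hp0 hp3 x hind hx2 hx3 (half_pos hε0)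
  have hyε : ∀ (φ : M →+* ℝ) (i : Fin n), |φ (y i) - R φ i| < ε := by
    intro φ i
    have e1 := hy3 φ i
    have e2 := hx1 φ i
    have e3 : φ (y i) - R φ i = (φ (y i) - x φ i) + (x φ i - R φ i) := by ring
    rw [e3]
    refine lt_of_le_of_lt (abs_add_le _ _) ?_
    linarith
  refine ⟨p, y, ⟨?_, hy1, hy2⟩, hp2, fun φ i => ⟨lt_of_lt_of_le (hpε φ i) hεδ,
    lt_of_lt_of_le (hyε φ i) hεδ⟩⟩
  obtain ⟨φ⟩ := hne
  refine indep_of_minor (i := ci φ) (j := cj φ) ?_
  intro h0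
  apply hmin φ (fun i => φ (y i)) (hyε φ)
  have h4 := congrArg φ h0
  rw [map_sub, map_mul, map_mul, map_zero] at h4
  exact h4

end Ts
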