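import Pool.Agent.Lib.MP_f80667_ag.Ts.ND
import Pool.Agent.Lib.MP_f80667_ag.Ts.Zar
import Pool.Agent.Lib.MP_f80667_ag.Ts.Defs

/-! A vector near given real vectors on a nondegenerate member of the pencil. -/

namespace Ts

open ZC Tq

theorem eval_ml {M : Type*} [Field M] {n : ℕ} (A : Matrix (Fin n) (Fin n) M) (y : Fin n → M) :
    MvPolynomial.eval y (ml A) = qv A y := by
  rw [← MvPolynomial.coe_aeval_eq_eval]
  exact aeval_eq_qv rfl y

/-- The equations of a smooth pencil are independent. -/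
theorem lin_ne {M : Type} [Field M] [CharZero M] {n : ℕ} (hn : 2 ≤ n)
    {A B : Matrix (Fin n) (Fin n) M} (hs : Sm (AlgebraicClosure M) A B) {a b : M}
    (hab : a ≠ 0 ∨ b ≠ 0) : MvPolynomial.C a * ml A + MvPolynomial.C b * ml B ≠ 0 := by
  intro h0
  have h1 : ∀ x : Fin n → M, a * qv A x + b * qv B x = 0 := by
    intro x
    have h2 := congrArg (MvPolynomial.eval x) h0
    rwa [map_add, map_mul, map_mul, MvPolynomial.eval_C, MvPolynomial.eval_C, eval_ml, eval_ml,
      map_zero] at h2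
  have h3 : ∀ x y : Fin n → M, a * bv A x y + b * bv B x y = 0 := by
    intro x y
    have h4 := h1 (x + y)
    rw [qv_add, qv_add] at h4
    linear_combination h4 - h1 x - h1 y
  have hi : LinearIndependent M ![(Pi.single ⟨0, by omega⟩ 1 : Fin n → M),
      Pi.single ⟨1, by omega⟩ 1] := by
    rw [LinearIndependent.pair_iff]
    intro s t hst
    have h5 := congrFun hst ⟨0, by omega⟩
    have h6 := congrFun hst ⟨1, by omega⟩
    simp only [Pi.add_apply, Pi.smul_apply, Pi.single_apply, smul_eq_mul, Pi.zero_apply,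
      Fin.mk.injEq, one_ne_zero, zero_ne_one, if_true, if_false, mul_one, mul_zero, add_zero,
      zero_add] at h5 h6
    exact ⟨h5, h6⟩
  exact rad_le (k := M) (M := M) hs (Algebra.ofId M (AlgebraicClosure M)) hab hi (h3 _) (h3 _)

/-- Proof: `exists_seq_of_forall_finset_exists` and `wap_ne` (for the product of the nonzero
polynomials `Qp A B q` (`q` in a finite set of vectors which are not on `X`), times `ml A`) give a
sequence `q i` of vectors near `r`, not on `X`, with `Qp A B (q i) (q j) ≠ 0` for `i < j`;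
`exists_nd` with `c i = (qv B (q i), - qv A (q i))`. (`Qp A B q` is not the zero polynomial since `A`
and `B` are independent by smoothness.) -/
theorem exists_p {M : Type} [Field M] [NumberField M] {n : ℕ} (hn : 6 ≤ n)
    {A B : Matrix (Fin n) (Fin n) M} (hs : Sm (AlgebraicClosure M) A B)
    (r : (M →+* ℝ) → Fin n → ℝ) {δ : ℝ} (hδ : 0 < δ) :
    ∃ p : Fin n → M, (∀ φ i, |φ (p i) - r φ i| < δ) ∧ ¬ Zer (Pl A B) M p ∧
      ∀ x : Fin n → M, x ≠ 0 → ∃ y : Fin n → M, Bp A B p x y ≠ 0 := by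
  classical
  have hml : ml A ≠ 0 := by
    have h1 := lin_ne (by omega) hs (a := 1) (b := 0) (Or.inl one_ne_zero)
    simpa using h1
  have hst : ∀ s : Finset (Fin n → M), (∀ q ∈ s, (∀ φ i, |φ (q i) - r φ i| < δ) ∧
      ¬ Zer (Pl A B) M q) → ∃ y : Fin n → M, ((∀ φ i, |φ (y i) - r φ i| < δ) ∧
      ¬ Zer (Pl A B) M y) ∧ ∀ q ∈ s, Qp A B q y ≠ 0 := by
    intro s hq
    have hne : ((∏ q ∈ s, (MvPolynomial.C (qv B q) * ml A + MvPolynomial.C (-(qv A q)) * ml B)) *
        ml A) ≠ 0 := by
      refine mul_ne_zero (Finset.prod_ne_zero_iff.2 fun q hqs => lin_ne (by omega) hs ?_) hml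
      have h1 := (hq q hqs).2
      rw [zer_iff] at h1
      by_contra hcon
      push Not at hcon
      exact h1 ⟨neg_eq_zero.1 hcon.2, hcon.1⟩
    obtain ⟨y, hy, hyr⟩ := wap_ne _ hne r hδ
    rw [map_mul, map_prod, eval_ml] at hy
    refine ⟨y, ⟨hyr, ?_⟩, ?_⟩
    · rw [zer_iff]
      rintro ⟨h1, -⟩
      exact right_ne_zero_of_mul hy h1
    · intro q hqs
      have h1 := Finset.prod_ne_zero_iff.1 (left_ne_zero_of_mul hy) q hqs
      rw [map_add, map_mul, map_mul, MvPolynomial.eval_C, MvPolynomial.eval_C, eval_ml,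
        eval_ml] at h1
      intro h2
      apply h1
      rw [Qp] at h2
      linear_combination h2
  obtain ⟨q, hq, hqq⟩ := exists_seq_of_forall_finset_exists _ _ hst
  have hc : ∀ i j : Fin (n + 1), i < j → qv B (q i) * -(qv A (q j)) ≠ qv B (q j) * -(qv A (q i)) := by
    intro i j hij h1
    apply hqq i j hij
    rw [Qp]
    linear_combination -h1
  obtain ⟨i, hi⟩ := exists_nd hs (by omega : 1 ≤ n)
    (fun i : Fin (n + 1) => (qv B (q i), -(qv A (q i)))) (fun i j hij => by
      rcases lt_or_gt_of_ne hij with h1 | h1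
      · exact hc i j h1
      · exact (hc j i h1).symm)
  refine ⟨q i, (hq i).1, (hq i).2, fun x hx => ?_⟩
  obtain ⟨y, hy⟩ := hi x hx
  refine ⟨y, fun h1 => hy ?_⟩
  rw [Bp] at h1
  linear_combination h1

end Ts
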