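import Pool.Agent.Lib.MP_f80667_ag.Ts.Defs

/-! Real points of `X` near a smooth point with prescribed linear coordinates. -/

namespace Ts

open ZC Tq Topology

/-- The polar form as a continuous linear map. -/
noncomputable def bvL {n : ℕ} (H : Matrix (Fin n) (Fin n) ℝ) (P : Fin n → ℝ) : (Fin n → ℝ) →L[ℝ] ℝ :=
  ∑ i, ∑ j, (H i j) • (P i • ContinuousLinearMap.proj (R := ℝ) (φ := fun _ : Fin n => ℝ) j +
    P j • ContinuousLinearMap.proj (R := ℝ) (φ := fun _ : Fin n => ℝ) i)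

theorem bvL_apply {n : ℕ} (H : Matrix (Fin n) (Fin n) ℝ) (P y : Fin n → ℝ) :
    bvL H P y = bv H P y := by
  simp only [bvL, bv, ContinuousLinearMap.sum_apply, ContinuousLinearMap.smul_apply,
    ContinuousLinearMap.add_apply, ContinuousLinearMap.proj_apply, smul_eq_mul,
    Algebra.algebraMap_self, RingHom.id_apply]
  apply Finset.sum_congr rfl; intro i _
  apply Finset.sum_congr rfl; intro j _
  ring

theorem qv_deriv {n : ℕ} (H : Matrix (Fin n) (Fin n) ℝ) (P : Fin n → ℝ) :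
    HasStrictFDerivAt (fun x : Fin n → ℝ => qv H x) (bvL H P) P := by
  have h1 : ∀ i j, HasStrictFDerivAt (fun x : Fin n → ℝ => H i j * (x i * x j))
      ((H i j) • (P i • ContinuousLinearMap.proj (R := ℝ) (φ := fun _ : Fin n => ℝ) j +
        P j • ContinuousLinearMap.proj (R := ℝ) (φ := fun _ : Fin n => ℝ) i)) P := fun i j =>
    ((hasStrictFDerivAt_apply i P).mul (hasStrictFDerivAt_apply j P)).const_mul (H i j)
  exact HasStrictFDerivAt.fun_sum fun i _ => HasStrictFDerivAt.fun_sum fun j _ => h1 i j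

/-- Proof: `R ↦ (qv A R, qv B R, L R)` has the derivative `hL` at `P`;
`HasStrictFDerivAt.map_nhds_eq_of_surj`. -/
theorem exists_pt {n m : ℕ} {A B : Matrix (Fin n) (Fin n) ℝ} {P : Fin n → ℝ} (hA : qv A P = 0)
    (hB : qv B P = 0) (L : (Fin n → ℝ) →ₗ[ℝ] (Fin m → ℝ))
    (hL : ∀ (a b : ℝ) (c : Fin m → ℝ), ∃ y : Fin n → ℝ, bv A P y = a ∧ bv B P y = b ∧ L y = c)
    {δ : ℝ} (hδ : 0 < δ) : ∃ δ' > 0, ∀ t : Fin m → ℝ, (∀ i, |t i - L P i| < δ') →
      ∃ R : Fin n → ℝ, (∀ i, |R i - P i| < δ) ∧ qv A R = 0 ∧ qv B R = 0 ∧ L R = t := by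
  let Lc : (Fin n → ℝ) →L[ℝ] (Fin m → ℝ) := LinearMap.toContinuousLinearMap L
  have hF : HasStrictFDerivAt (fun x : Fin n → ℝ => (qv A x, qv B x, Lc x))
      ((bvL A P).prod ((bvL B P).prod Lc)) P :=
    (qv_deriv A P).prodMk ((qv_deriv B P).prodMk Lc.hasStrictFDerivAt)
  have hsurj : ((bvL A P).prod ((bvL B P).prod Lc)).range = ⊤ := by
    rw [LinearMap.range_eq_top]
    rintro ⟨a, b, c⟩
    obtain ⟨y, h1, h2, h3⟩ := hL a b c
    refine ⟨y, ?_⟩
    show (bvL A P y, bvL B P y, L y) = (a, b, c)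
    rw [bvL_apply, bvL_apply, h1, h2, h3]
  have hmap := hF.map_nhds_eq_of_surj hsurj
  have hU : {R : Fin n → ℝ | ∀ i, |R i - P i| < δ} ∈ 𝓝 P := by
    refine Filter.mem_of_superset (Metric.ball_mem_nhds P hδ) fun R hR i => ?_
    rw [Metric.mem_ball] at hR
    exact lt_of_le_of_lt (dist_le_pi_dist R P i) hR
  have himg : (fun x : Fin n → ℝ => (qv A x, qv B x, Lc x)) '' {R : Fin n → ℝ | ∀ i, |R i - P i| < δ} ∈
      𝓝 (qv A P, qv B P, Lc P) := by
    rw [← hmap]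
    exact Filter.image_mem_map hU
  have hcont : Filter.Tendsto (fun t : Fin m → ℝ => ((0 : ℝ), (0 : ℝ), t)) (𝓝 (L P))
      (𝓝 (qv A P, qv B P, Lc P)) := by
    rw [hA, hB]
    exact (continuous_const.prodMk (continuous_const.prodMk continuous_id)).tendsto (L P)
  have h2 := hcont himg
  obtain ⟨δ', hδ', hball⟩ := Metric.mem_nhds_iff.1 h2
  refine ⟨δ', hδ', fun t ht => ?_⟩
  have h3 : t ∈ Metric.ball (L P) δ' := by
    rw [Metric.mem_ball, dist_pi_lt_iff hδ']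
    exact ht
  obtain ⟨R, hR, hRt⟩ := hball h3
  have h4 : (qv A R, qv B R, Lc R) = ((0 : ℝ), (0 : ℝ), t) := hRt
  rw [Prod.mk.injEq, Prod.mk.injEq] at h4
  exact ⟨R, hR, h4.1, h4.2.1, h4.2.2⟩

end Ts
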